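import Pool.Agent.Lib.MP_9177b7_ag.CM.Main

/-! Values of the norm form of a lattice and their quadratic characters. -/

open UpperHalfPlane Pointwise
open Pool.Agent.Lib.MP_9177b7_ag.CM

noncomputable section

namespace Pool.Agent.Lib.MP_d6ddbd_nt.GF

/-- The area of the parallelogram spanned by `x` and `y`. -/
def ar (x y : ℂ) : ℝ := |(x * starRingEnd ℂ y).im|

theorem im_lin (x y : ℂ) (a b c d : ℤ) : ((a * x + b * y) * starRingEnd ℂ (c * x + d * y)).im =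
    ((a * d - b * c : ℤ) : ℝ) * (x * starRingEnd ℂ y).im := by
  simp [Complex.mul_im, Complex.mul_re]
  ring

theorem ar_eq {x y x' y' : ℂ} (h : sp x y = sp x' y') (h0 : ar x y ≠ 0) : ar x' y' = ar x y := by
  obtain ⟨a, b, h1⟩ := mem_sp.1 (h ▸ left_mem_sp x' y' : x' ∈ sp x y)
  obtain ⟨c, d, h2⟩ := mem_sp.1 (h ▸ right_mem_sp x' y' : y' ∈ sp x y)
  obtain ⟨a', b', h3⟩ := mem_sp.1 (h ▸ left_mem_sp x y : x ∈ sp x' y')
  obtain ⟨c', d', h4⟩ := mem_sp.1 (h ▸ right_mem_sp x y : y ∈ sp x' y')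
  have e1 := im_lin x y a b c d
  have e2 := im_lin x' y' a' b' c' d'
  rw [h1, h2] at e1
  rw [h3, h4, e1, ← mul_assoc] at e2
  have h0' : (x * starRingEnd ℂ y).im ≠ 0 := fun e => h0 (by rw [ar, e, abs_zero])
  have e3 : (a' * d' - b' * c') * (a * d - b * c) = 1 := by
    have := mul_right_cancel₀ h0' (e2.symm.trans (one_mul _).symm)
    exact_mod_cast this
  have e4 : |a * d - b * c| = 1 := Int.isUnit_iff_abs_eq.1 (IsUnit.of_mul_eq_one_right _ e3)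
  rw [ar, e1, abs_mul, ← Int.cast_abs, e4, ar]
  simp

theorem ar_smul (c x y : ℂ) : ar (c * x) (c * y) = Complex.normSq c * ar x y := by
  rw [ar, ar, ← abs_of_nonneg (Complex.normSq_nonneg c), ← abs_mul]
  congr 1
  simp [Complex.mul_im, Complex.mul_re, Complex.normSq_apply]
  ring

/-- `m` is a value of the norm form of `L`, normalised to discriminant `-δ ^ 2`. -/
def Val (δ : ℝ) (L : Submodule ℤ ℂ) (m : ℤ) : Prop :=
  ∃ x y α : ℂ, L = sp x y ∧ ar x y ≠ 0 ∧ α ∈ L ∧ Complex.normSq α * δ = 2 * m * ar x y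

theorem Val.smul {δ : ℝ} {L : Submodule ℤ ℂ} {m : ℤ} (h : Val δ L m) {c : ℂ} (hc : c ≠ 0) :
    Val δ (c • L) m := by
  obtain ⟨x, y, α, rfl, h0, h1, h2⟩ := h
  refine ⟨c * x, c * y, c * α, smul_sp c x y, ?_, mem_smul_iff.2 ⟨α, h1, rfl⟩, ?_⟩
  · rw [ar_smul]; exact mul_ne_zero (by simpa using hc) h0
  · rw [ar_smul, map_mul, mul_assoc, h2]; ring

/-- The quadratic characters of the values of `L'` are `ε` times those of `L`. -/
def R (p : ℕ) [Fact p.Prime] (δ : ℝ) (ε : ℤ) (L L' : Submodule ℤ ℂ) : Prop :=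
  (∀ m, Val δ L m → ∃ m', Val δ L' m' ∧ legendreSym p m' = ε * legendreSym p m) ∧
  (∀ m, Val δ L' m → ∃ m', Val δ L m' ∧ legendreSym p m' = ε * legendreSym p m)

variable {p : ℕ} [Fact p.Prime] {δ : ℝ}

theorem R.symm {ε : ℤ} {L L' : Submodule ℤ ℂ} (h : R p δ ε L L') : R p δ ε L' L := ⟨h.2, h.1⟩

theorem R.trans {ε ε' : ℤ} {L L' L'' : Submodule ℤ ℂ} (h : R p δ ε L L') (h' : R p δ ε' L' L'') :
    R p δ (ε * ε') L L'' := by
  constructor
  · intro m hm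
    obtain ⟨m', a, b⟩ := h.1 m hm
    obtain ⟨m'', c, d⟩ := h'.1 m' a
    exact ⟨m'', c, by rw [d, b]; ring⟩
  · intro m hm
    obtain ⟨m', a, b⟩ := h'.2 m hm
    obtain ⟨m'', c, d⟩ := h.2 m' a
    exact ⟨m'', c, by rw [d, b]; ring⟩

theorem R_smul (L : Submodule ℤ ℂ) {c : ℂ} (hc : c ≠ 0) : R p δ 1 L (c • L) := by
  refine ⟨fun m hm => ⟨m, hm.smul hc, (one_mul _).symm⟩, fun m hm => ⟨m, ?_, (one_mul _).symm⟩⟩
  have := hm.smul (inv_ne_zero hc)
  rwa [smul_smul, inv_mul_cancel₀ hc, one_smul] at this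

theorem R_of_jL {L M : Submodule ℤ ℂ} (hL : IsLat L) (hM : IsLat M) (e : jL L = jL M) :
    R p δ 1 L M := by
  obtain ⟨c, hc, rfl⟩ := hyp.eq_smul_of_jL_eq hL hM e
  exact R_smul L hc

theorem ar_tau (τ : ℍ) : ar τ 1 = τ.im := by
  rw [ar, map_one, mul_one]
  exact abs_of_pos τ.im_pos

theorem index {L X : Submodule ℤ ℂ} {l : ℕ} (hl : l.Prime) (hL : IsLat L) (h1 : (l : ℂ) • L < X)
    (h2 : X < L) : ∃ x y x' y' : ℂ, L = sp x y ∧ X = sp x' y' ∧ ar x y ≠ 0 ∧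
      ar x' y' = l * ar x y := by
  obtain ⟨τ, c, hc, -, rfl⟩ := hyp.exists_fd hL
  have hl0 : (l : ℂ) ≠ 0 := by exact_mod_cast hl.ne_zero
  have hlr : (0 : ℝ) < l := by exact_mod_cast hl.pos
  obtain ⟨Y, rfl⟩ : ∃ Y, X = c • Y :=
    ⟨c⁻¹ • X, by rw [smul_smul, mul_inv_cancel₀ hc, one_smul]⟩
  have hmono : ∀ U V : Submodule ℤ ℂ, c • U < c • V → U < V := by
    intro U V hUV
    refine lt_of_le_of_ne ?_ (by rintro rfl; exact hUV.ne rfl)
    have := smul_le_smul c⁻¹ hUV.le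
    rwa [smul_smul, smul_smul, inv_mul_cancel₀ hc, one_smul, one_smul] at this
  rw [smul_comm] at h1
  have h0 : ar (c * τ) (c * 1) ≠ 0 := by
    rw [ar_smul, ar_tau]; exact mul_ne_zero (by simpa using hc) τ.im_pos.ne'
  rcases Lat.l8 l τ Y hl (hmono _ _ h1) (hmono _ _ h2) with e | ⟨i, hi, e⟩
  · refine ⟨_, _, _, _, smul_sp _ _ _, by rw [e, smul_sp], h0, ?_⟩
    have hp : 0 < ((l : ℂ) * τ).im := by simpa using mul_pos hlr τ.im_pos
    rw [ar_smul, ar_smul, ar_tau, ar_tau, up, ofComplex_apply_of_im_pos hp]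
    simp
    ring
  · refine ⟨_, _, _, _, smul_sp _ _ _, by rw [e, smul_sp, smul_sp], h0, ?_⟩
    have hq : (((τ : ℂ) + i) / l).im = τ.im / l := by
      rw [← Complex.ofReal_natCast l, Complex.div_ofReal_im]; simp
    have hp : 0 < (((τ : ℂ) + i) / l).im := by rw [hq]; exact div_pos τ.im_pos hlr
    rw [ar_smul, ar_smul, ar_smul, ar_tau, ar_tau, dn, ofComplex_apply_of_im_pos hp]
    change _ * (_ * (((τ : ℂ) + i) / l).im) = _
    rw [hq, Complex.normSq_natCast]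
    field_simp

theorem R_index {L X : Submodule ℤ ℂ} {l : ℕ} (hl : l.Prime) (hL : IsLat L)
    (h1 : (l : ℂ) • L < X) (h2 : X < L) : R p δ (legendreSym p l) L X := by
  obtain ⟨x, y, x', y', e1, e2, h0, h3⟩ := index hl hL h1 h2
  have hlr : (l : ℝ) ≠ 0 := by exact_mod_cast hl.ne_zero
  have h0' : ar x' y' ≠ 0 := by rw [h3]; exact mul_ne_zero hlr h0
  constructor
  · rintro m ⟨u, v, α, e, -, hα, hm⟩
    refine ⟨l * m, ⟨x', y', l * α, e2, h0', h1.le (mem_smul_iff.2 ⟨α, hα, rfl⟩), ?_⟩,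
      legendreSym.mul _ _ _⟩
    rw [ar_eq (e1.symm.trans e) h0] at hm
    rw [map_mul, Complex.normSq_natCast, mul_assoc, hm, h3]
    push_cast; ring
  · rintro m ⟨u, v, α, e, -, hα, hm⟩
    refine ⟨l * m, ⟨x, y, α, e1, h0, h2.le hα, ?_⟩, legendreSym.mul _ _ _⟩
    rw [ar_eq (e2.symm.trans e) h0'] at hm
    rw [hm, h3]
    push_cast; ring

variable {ω : ℂ} {t n : ℤ}

theorem dvd_of_le (hω : ω ^ 2 = t * ω - n) (him : ω.im ≠ 0) {L : Submodule ℤ ℂ} (hL : IsLat L)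
    {l : ℕ} {r : ℤ} (h : (ω - r) • L ≤ (l : ℂ) • L) : (l : ℤ) ∣ t ^ 2 - 4 * n := by
  obtain ⟨x, y, rfl, hxy⟩ := hL.exists_sp
  have hx : x ≠ 0 := by
    rintro rfl
    simpa using (hxy 1 0 (by simp)).1
  obtain ⟨u, hu, e1⟩ := mem_smul_iff.1 (h (mem_smul_iff.2 ⟨x, left_mem_sp x y, rfl⟩))
  obtain ⟨v, hv, e2⟩ := mem_smul_iff.1 (h (mem_smul_iff.2 ⟨y, right_mem_sp x y, rfl⟩))
  obtain ⟨a, b, rfl⟩ := mem_sp.1 hu
  obtain ⟨c, d, rfl⟩ := mem_sp.1 hv
  have e3 : (ω - r) ^ 2 - l * (a + d) * (ω - r) + l ^ 2 * (a * d - b * c) = 0 := by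
    apply mul_left_cancel₀ hx
    linear_combination (-(ω - r) + l * d) * e1 - l * b * e2
  have e4 := int_of_im him (a := -n + r ^ 2 + l * (a + d) * r + l ^ 2 * (a * d - b * c))
    (b := t - 2 * r - l * (a + d)) (by push_cast; linear_combination e3 - hω)
  refine ⟨l * ((a + d) ^ 2 - 4 * (a * d - b * c)), ?_⟩
  have e5 : t = 2 * r + l * (a + d) := by linarith [e4.2]
  have e6 : n = r ^ 2 + l * (a + d) * r + l ^ 2 * (a * d - b * c) := by linarith [e4.1]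
  rw [e5, e6]; ring

theorem R_prime (hω : ω ^ 2 = t * ω - n) (him : ω.im ≠ 0) {l : ℕ} (hl : l.Prime) {r : ℤ}
    (hr : (l : ℤ) ∣ r ^ 2 - t * r + n) (hD : ¬ (l : ℤ) ∣ t ^ 2 - 4 * n) {L : Submodule ℤ ℂ}
    (hL : IsLat L) (hL' : ω • L ≤ L) : R p δ (legendreSym p l) L (sp l (ω - r) * L) := by
  have h1 : sp l (ω - r) * L ≤ L := by
    have := mul_le_mul_left (prime_lt him hl r).2.le L
    rwa [ord_mul_eq_iff.2 hL'] at this
  refine R_index hl hL (lt_of_le_of_ne (by rw [sp_mul]; exact le_sup_left) fun e => ?_)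
    (lt_of_le_of_ne h1 fun e => ?_)
  · exact hD (dvd_of_le hω him hL (r := r) (by rw [e, sp_mul]; exact le_sup_right))
  · have e2 : bar (sp l (ω - r)) * L = (l : ℂ) • L := by
      conv_lhs => rw [← e]
      rw [← mul_assoc, mul_comm (bar _), prime_mul_bar hω him hl hr hD, smul_mul_left,
        ord_mul_eq_iff.2 hL']
    rw [bar_sp, map_sub, conj_omega hω him, map_intCast, sp_mul] at e2
    refine hD (dvd_of_le (ω := t - ω) (by linear_combination hω) (by simpa using him) hL (r := r)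
      (by rw [← e2]; exact le_sup_right))

/-- The genus character of the form `[a, b, c]` at an odd prime dividing its discriminant. -/
def chi (p : ℕ) [Fact p.Prime] (a c : ℤ) : ℤ :=
  if (p : ℤ) ∣ a then legendreSym p c else legendreSym p a

theorem chi_val (hp : p ≠ 2) {a b c : ℤ} (hD : (p : ℤ) ∣ b ^ 2 - 4 * a * c) (x y : ℤ) :
    legendreSym p (a * x ^ 2 + b * x * y + c * y ^ 2) = 0 ∨
      legendreSym p (a * x ^ 2 + b * x * y + c * y ^ 2) = chi p a c := by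
  have hD' : (b : ZMod p) ^ 2 = 4 * a * c := by
    have := (ZMod.intCast_zmod_eq_zero_iff_dvd _ p).2 hD
    push_cast at this
    exact sub_eq_zero.1 this
  have key : ∀ (u m z : ℤ), ((m : ℤ) : ZMod p) = ((u * z ^ 2 : ℤ) : ZMod p) →
      legendreSym p m = 0 ∨ legendreSym p m = legendreSym p u := by
    intro u m z e
    have : legendreSym p m = legendreSym p (u * z ^ 2) := by simp only [legendreSym, e]
    rw [this, legendreSym.mul]
    by_cases hz : (z : ZMod p) = 0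
    · left
      rw [(legendreSym.eq_zero_iff p (z ^ 2)).2 (by push_cast; rw [hz]; simp), mul_zero]
    · right
      rw [legendreSym.sq_one' p hz, mul_one]
  unfold chi
  split_ifs with h
  · have ha : (a : ZMod p) = 0 := (ZMod.intCast_zmod_eq_zero_iff_dvd _ p).2 h
    have hb : (b : ZMod p) = 0 := by
      rw [ha, mul_zero, zero_mul] at hD'
      exact pow_eq_zero_iff two_ne_zero |>.1 hD'
    exact key c _ y (by push_cast; rw [ha, hb]; ring)
  · have ha : (a : ZMod p) ≠ 0 := fun e => h ((ZMod.intCast_zmod_eq_zero_iff_dvd _ p).1 e)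
    have h2 : (2 : ZMod p) ≠ 0 := Ring.two_ne_zero (by rwa [ZMod.ringChar_zmod_n])
    obtain ⟨z, hz⟩ := ZMod.intCast_surjective (((2 * a * x + b * y) / (2 * a) : ZMod p))
    refine key a _ z ?_
    push_cast
    rw [hz]
    field_simp
    linear_combination (-(y : ZMod p) ^ 2) * hD'

theorem val_iff {a b c : ℤ} {τ : ℍ} (hτ : a * (τ : ℂ) ^ 2 + b * τ + c = 0) (m : ℤ) :
    Val (2 * a * τ.im) (sp τ 1) m ↔ ∃ x y : ℤ, m = a * x ^ 2 + b * x * y + c * y ^ 2 := by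
  have h1 := congrArg Complex.im hτ
  have h2 := congrArg Complex.re hτ
  simp [pow_two] at h1 h2
  have hi := τ.im_pos.ne'
  have hb : (b : ℝ) = -2 * a * τ.re := mul_right_cancel₀ hi (by linear_combination h1)
  have key : ∀ u v : ℤ, Complex.normSq (u * (τ : ℂ) + v * 1) * (2 * a * τ.im) =
      2 * ((a * v ^ 2 + b * v * (-u) + c * (-u) ^ 2 : ℤ) : ℝ) * τ.im := by
    intro u v
    simp [Complex.normSq_apply]
    linear_combination (-2 * τ.im * u ^ 2) * h2 + (2 * τ.im * (u ^ 2 * τ.re + u * v)) * hb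
  constructor
  · rintro ⟨x, y, α, e, -, hα, hm⟩
    obtain ⟨u, v, rfl⟩ := mem_sp.1 hα
    rw [ar_eq e (by rw [ar_tau]; exact hi), ar_tau, key] at hm
    refine ⟨v, -u, ?_⟩
    have := mul_left_cancel₀ two_ne_zero (mul_right_cancel₀ hi hm)
    exact_mod_cast this.symm
  · rintro ⟨x, y, rfl⟩
    refine ⟨τ, 1, _, rfl, by rw [ar_tau]; exact hi, mem_sp.2 ⟨-y, x, rfl⟩, ?_⟩
    rw [key, ar_tau, neg_neg]

theorem chi_of_R (hp : p ≠ 2) {a b c a' b' c' : ℤ} {τ τ' : ℍ}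
    (hτ : a * (τ : ℂ) ^ 2 + b * τ + c = 0) (hτ' : a' * (τ' : ℂ) ^ 2 + b' * τ' + c' = 0)
    (hδ : a' * τ'.im = a * τ.im)
    (hD : (p : ℤ) ∣ b ^ 2 - 4 * a * c) (hD' : (p : ℤ) ∣ b' ^ 2 - 4 * a' * c') {ε : ℤ}
    (hε : ε ^ 2 = 1) (h : R p (2 * a * τ.im) ε (sp τ 1) (sp τ' 1)) :
    chi p a' c' = ε * chi p a c := by
  have ex : ∀ a b c : ℤ, ∃ x y : ℤ, legendreSym p (a * x ^ 2 + b * x * y + c * y ^ 2) =
      chi p a c := by
    intro a b c
    unfold chi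
    split_ifs
    · exact ⟨0, 1, by simp⟩
    · exact ⟨1, 0, by simp⟩
  have v := val_iff hτ
  have v' := val_iff hτ'
  rw [mul_assoc, hδ, ← mul_assoc] at v'
  obtain ⟨x, y, e⟩ := ex a b c
  obtain ⟨x', y', e'⟩ := ex a' b' c'
  obtain ⟨m, m1, m2⟩ := h.1 _ ((v _).2 ⟨x, y, rfl⟩)
  obtain ⟨m', m3, m4⟩ := h.2 _ ((v' _).2 ⟨x', y', rfl⟩)
  obtain ⟨u, w, rfl⟩ := (v' _).1 m1
  obtain ⟨u', w', rfl⟩ := (v _).1 m3
  rw [e] at m2
  rw [e'] at m4
  rcases chi_val hp hD' u w with k | k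
  · rcases chi_val hp hD u' w' with k' | k'
    · rw [k] at m2
      rw [k'] at m4
      linear_combination (-ε) * m4 + m2 - chi p a' c' * hε
    · rw [k'] at m4
      linear_combination (-ε) * m4 - chi p a' c' * hε
  · rw [← k, m2]

end Pool.Agent.Lib.MP_d6ddbd_nt.GF
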