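import Pool.Agent.Lib.MP_d6ddbd_nt.GF.Cheb
import Pool.Agent.Lib.MP_d6ddbd_nt.GF.Val

/-! The action of `Aut ℂ` on singular moduli and the genus characters. -/

open UpperHalfPlane Pointwise
open Pool.Agent.Lib.MP_9177b7_ag.CM

noncomputable section

namespace Pool.Agent.Lib.MP_d6ddbd_nt.GF

variable {ω s : ℂ} {t n : ℤ} {p : ℕ} [Fact p.Prime] {δ : ℝ}

/-- The odd prime discriminant `p*`. -/
def pst (p : ℕ) : ℤ := (-1) ^ (p / 2) * p

theorem leg_pst {l : ℕ} [Fact l.Prime] (hp : p ≠ 2) (hl : l ≠ 2) :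
    legendreSym l (pst p) = legendreSym p l := by
  have h := legendreSym.quadratic_reciprocity' hp hl
  have h1 : legendreSym l (-1) = (-1) ^ (l / 2) := by
    rw [legendreSym.at_neg_one hl, ZMod.χ₄_eq_neg_one_pow]
    exact ((Fact.out : l.Prime).eq_two_or_odd).resolve_left hl
  have h2 : legendreSym l ((-1) ^ (p / 2)) = legendreSym l (-1) ^ (p / 2) :=
    map_pow (legendreSym.hom l) _ _
  rw [pst, legendreSym.mul, h2, h1, h, ← pow_mul, ← mul_assoc, mul_comm (l / 2), ← mul_pow]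
  simp

theorem frob_sq {l : ℕ} [Fact l.Prime] (hl : l ≠ 2) {φ : ℂ ≃+* ℂ} {A : Subring ℂ}
    {P : AddSubgroup ℂ} {J : Set ℂ} (hP : ∀ a ∈ A, ∀ x ∈ P, a * x ∈ P) (hlP : (l : ℂ) ∈ P)
    (hinj : ∀ x ∈ J, ∀ y ∈ J, x - y ∈ P → x = y) {x : ℂ} {d : ℤ} (hx : x ^ 2 = d)
    (hd : ¬ (l : ℤ) ∣ d) (h1 : x ∈ J) (h2 : -x ∈ J) (hA : x ∈ A) (hf : φ x - x ^ l ∈ P) :
    φ x = legendreSym l d * x := by
  have hd' : (d : ZMod l) ≠ 0 := fun e => hd ((ZMod.intCast_zmod_eq_zero_iff_dvd _ l).1 e)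
  have hodd := ((Fact.out : l.Prime).eq_two_or_odd).resolve_left hl
  obtain ⟨k, hk⟩ : (l : ℤ) ∣ d ^ (l / 2) - legendreSym l d := by
    rw [← ZMod.intCast_zmod_eq_zero_iff_dvd]
    push_cast
    rw [legendreSym.eq_pow, sub_self]
  have hk' : (d : ℂ) ^ (l / 2) - legendreSym l d = l * k := by exact_mod_cast hk
  have e1 : x ^ l = x * d ^ (l / 2) := by
    rw [← hx, ← pow_mul, ← pow_succ']; congr 1; omega
  have e2 : φ x - legendreSym l d * x ∈ P := by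
    have := P.add_mem hf (hP _ (A.mul_mem hA (intCast_mem A k)) _ hlP)
    rwa [show φ x - x ^ l + x * k * l = φ x - legendreSym l d * x by
      linear_combination -e1 - x * hk'] at this
  refine hinj _ ?_ _ ?_ e2
  · have : φ x ^ 2 = x ^ 2 := by rw [← map_pow, hx, map_intCast]
    rcases sq_eq_sq_iff_eq_or_eq_neg.1 this with e | e <;> rwa [e]
  · rcases legendreSym.eq_one_or_neg_one l hd' with e | e <;> simpa [e]

/-- `f` moves the genus characters as it moves `s`. -/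
def Rel (p : ℕ) [Fact p.Prime] (δ : ℝ) (ω s : ℂ) (f : ℂ → ℂ) : Prop :=
  ∃ ε : ℤ, ε ^ 2 = 1 ∧ f s = ε * s ∧ ∀ L L', IsLat L → ω • L ≤ L → IsLat L' → ω • L' ≤ L' →
    f (jL L) = jL L' → R p δ ε L L'

theorem Rel.iterate (hω : ω ^ 2 = t * ω - n) (him : ω.im ≠ 0) {φ : ℂ ≃+* ℂ}
    (h : Rel p δ ω s φ) (k : ℕ) : Rel p δ ω s φ^[k] := by
  induction k with
  | zero => exact ⟨1, rfl, by simp, fun L L' h1 _ h2 _ e => R_of_jL h1 h2 e⟩
  | succ k ih =>
    obtain ⟨ε, a1, a2, a3⟩ := h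
    obtain ⟨ε', b1, b2, b3⟩ := ih
    refine ⟨ε' * ε, by rw [mul_pow, a1, b1, one_mul], ?_, fun L L' h1 h2 h3 h4 e => ?_⟩
    · rw [Function.iterate_succ_apply', b2, map_mul, map_intCast, a2]; push_cast; ring
    · have hm : ∀ k : ℕ, φ^[k] (jL L) ∈ Jset ω := by
        intro k
        induction k with
        | zero => exact ⟨L, h1, h2, rfl⟩
        | succ k ih =>
          rw [Function.iterate_succ_apply']
          exact hyp.map_mem_Jset hω him (φ : ℂ →+* ℂ) ih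
      obtain ⟨M, c1, c2, c3⟩ := hm k
      rw [Function.iterate_succ_apply', c3] at e
      exact (b3 L M h1 h2 c1 c2 c3).trans (a3 M L' c1 c2 h3 h4 e)

theorem rel (hω : ω ^ 2 = t * ω - n) (him : ω.im ≠ 0) (hp : p ≠ 2) (hs : s ^ 2 = pst p)
    (σ : ℂ ≃+* ℂ) (hσ : σ ω = ω) : Rel p δ ω s σ := by
  have hsq : ∀ (x : ℂ) (d : ℤ), x ^ 2 = d → IsAlgebraic ℚ x := fun x d e =>
    IsAlgebraic.of_pow two_pos (e ▸ isAlgebraic_intCast d)
  have hδ : (2 * ω - t) ^ 2 = (t ^ 2 - 4 * n : ℤ) := by push_cast; linear_combination 4 * hω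
  have hD := disc_ne_zero hω him
  let J : Set ℂ := {2 * ω - t, -(2 * ω - t), s, -s} ∪ Jset ω
  obtain ⟨l, hl, hlM, φ, A, P, hP, hprime, hJ, hζ, h6, hlP, hfrob, hinj, ⟨k, hk⟩, ⟨k', hk'⟩⟩ :=
    cheb J ((Set.toFinite _).union (hyp.finite_Jset him)) (by
      rintro x ((rfl | rfl | rfl | rfl) | hx)
      · exact hsq _ _ hδ
      · exact (hsq _ _ hδ).neg
      · exact hsq _ _ hs
      · exact (hsq _ _ hs).neg
      · exact hyp.isAlgebraic_of_mem_Jset hω him hx) σ (2 * p * (t ^ 2 - 4 * n).natAbs)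
      (Nat.mul_ne_zero (Nat.mul_ne_zero two_ne_zero (Fact.out : p.Prime).ne_zero)
        (Int.natAbs_ne_zero.2 hD))
  have := Fact.mk hl
  have m1 : 2 * ω - t ∈ J := Or.inl (by simp)
  have m2 : -(2 * ω - t) ∈ J := Or.inl (by simp)
  have m3 : s ∈ J := Or.inl (by simp)
  have m4 : -s ∈ J := Or.inl (by simp)
  have m5 : ∀ x ∈ Jset ω, x ∈ J := fun x hx => Or.inr hx
  have hl2 : l ≠ 2 := by rintro rfl; exact hlM ((dvd_mul_right _ _).mul_right _)
  have hlD : ¬ (l : ℤ) ∣ t ^ 2 - 4 * n := fun h => hlM ((Int.natCast_dvd.1 h).mul_left _)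
  have hlp : ¬ (l : ℤ) ∣ pst p := fun h => hlM (by
    have := Int.natCast_dvd.1 h
    simp only [pst, Int.natAbs_mul, Int.natAbs_pow, Int.natAbs_neg, Int.natAbs_one, one_pow,
      one_mul, Int.natAbs_natCast] at this
    exact (this.mul_left _).mul_right _)
  have hφδ : φ (2 * ω - t) = 2 * ω - t := by
    rw [hk' _ m1]
    exact Function.iterate_fixed (by simp [map_ofNat, hσ]) _
  have hφ : φ ω = ω := by
    simp only [map_sub, map_mul, map_ofNat, map_intCast] at hφδ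
    linear_combination hφδ / 2
  have hδ0 : 2 * ω - t ≠ 0 := fun e => hD (by
    rw [e, zero_pow two_ne_zero] at hδ; exact_mod_cast hδ.symm)
  have hleg : legendreSym l (t ^ 2 - 4 * n) = 1 := by
    have := frob_sq hl2 hP hlP hinj hδ hlD m1 m2 (hJ _ m1) (hfrob _ m1)
    rw [hφδ] at this
    exact_mod_cast (mul_right_cancel₀ hδ0 ((one_mul _).trans this)).symm
  have hφs := frob_sq hl2 hP hlP hinj hs hlp m3 m4 (hJ _ m3) (hfrob _ m3)
  rw [leg_pst hp hl2] at hφs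
  obtain ⟨r, hr⟩ : ∃ r : ℤ, (l : ℤ) ∣ r ^ 2 - t * r + n := by
    obtain ⟨u, hu⟩ := (legendreSym.eq_one_iff l
      fun e => hlD ((ZMod.intCast_zmod_eq_zero_iff_dvd _ l).1 e)).1 hleg
    have h2 : (2 : ZMod l) ≠ 0 := Ring.two_ne_zero (by rwa [ZMod.ringChar_zmod_n])
    obtain ⟨r, hr⟩ := ZMod.intCast_surjective (((t + u) / 2 : ZMod l))
    refine ⟨r, (ZMod.intCast_zmod_eq_zero_iff_dvd _ l).1 ?_⟩
    push_cast at hu ⊢
    rw [hr]
    field_simp
    linear_combination -hu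
  have hε : legendreSym p l ^ 2 = 1 := legendreSym.sq_one p fun e => hlp (by
    have h1 : p ∣ l := Int.natCast_dvd_natCast.1 ((ZMod.intCast_zmod_eq_zero_iff_dvd _ p).1 e)
    rw [(Nat.prime_dvd_prime_iff_eq Fact.out hl).1 h1]
    exact dvd_mul_left _ _)
  have hl0 : (l : ℂ) ≠ 0 := by exact_mod_cast hl.ne_zero
  obtain ⟨hlt1, hlt2⟩ := prime_lt him hl r
  have hX : IsLat (sp l (ω - r)) :=
    hyp.isLat_between (hyp.isLat_smul (isLat_ord him) hl0) (isLat_ord him) hlt1.le hlt2.le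
  have j0 : jL (sp 1 ω) ∈ Jset ω := ⟨_, isLat_ord him, smul_ord_le hω, rfl⟩
  have j1 : jL (sp l (ω - r)) ∈ Jset ω := ⟨_, hX, smul_prime_le hω hr, rfl⟩
  have hz := hζ _ (Complex.isPrimitiveRoot_exp l hl.ne_zero).pow_eq_one
  have hkr := hyp.kron_lat hl A P hP hz.1 h6 hlP hz.2 (isLat_ord him) hlt1 hlt2 (hJ _ (m5 _ j0))
    (hJ _ (m5 _ j1))
  have hR : Rel p δ ω s φ := by
    refine ⟨_, hε, hφs, fun L L' h1 h2 h3 h4 e0 => ?_⟩
    rcases hprime _ (A.sub_mem (hJ _ (m5 _ j1)) (A.pow_mem (hJ _ (m5 _ j0)) _)) _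
      (A.sub_mem (A.pow_mem (hJ _ (m5 _ j1)) _) (hJ _ (m5 _ j0))) hkr with a | a
    · have b := P.sub_mem (hfrob _ (m5 _ j0)) a
      rw [show ∀ u v w : ℂ, u - v - (w - v) = u - w from fun u v w => by ring] at b
      have e := hinj _ (m5 _ (hyp.map_mem_Jset hω him (φ : ℂ →+* ℂ) j0)) _ (m5 _ j1) b
      obtain ⟨c1, c2⟩ := hyp.acts_of_eq hω him hφ hX e L h1 (ord_mul_eq_iff.2 h2)
      simpa using (R_prime hω him hl hr hlD h1 h2).trans (R_of_jL c1 h3 (c2.symm.trans e0))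
    · have b := P.add_mem (hfrob _ (m5 _ j1)) a
      rw [show ∀ u v w : ℂ, u - v + (v - w) = u - w from fun u v w => by ring] at b
      have e := hinj _ (m5 _ (hyp.map_mem_Jset hω him (φ : ℂ →+* ℂ) j1)) _ (m5 _ j0) b
      have hφ' : φ.symm ω = ω := by rw [RingEquiv.symm_apply_eq, hφ]
      obtain ⟨c1, c2⟩ := hyp.acts_of_eq hω him hφ' hX
        (by rw [RingEquiv.symm_apply_eq]; exact e.symm) L' h3 (ord_mul_eq_iff.2 h4)
      rw [← e0, RingEquiv.symm_apply_apply] at c2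
      simpa using ((R_prime hω him hl hr hlD h3 h4).trans (R_of_jL c1 h1 c2.symm)).symm
  obtain ⟨ε, a1, a2, a3⟩ := hR.iterate hω him k
  exact ⟨ε, a1, (hk _ m3).trans a2, fun L L' h1 h2 h3 h4 e =>
    a3 L L' h1 h2 h3 h4 ((hk _ (m5 _ ⟨L, h1, h2, rfl⟩)).symm.trans e)⟩

theorem im_eq {a b c a' b' c' : ℤ} {τ τ' : ℍ}
    (hτ : a * (τ : ℂ) ^ 2 + b * τ + c = 0) (hτ' : a' * (τ' : ℂ) ^ 2 + b' * τ' + c' = 0)
    (ha : 0 < a) (ha' : 0 < a') (hD : b' ^ 2 - 4 * a' * c' = b ^ 2 - 4 * a * c) :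
    2 * a' * (τ' : ℂ) + b' = 2 * a * τ + b := by
  have hD' : (b' : ℂ) ^ 2 - 4 * a' * c' = b ^ 2 - 4 * a * c := by exact_mod_cast hD
  have e : (2 * a' * (τ' : ℂ) + b') ^ 2 = (2 * a * τ + b) ^ 2 := by
    linear_combination 4 * a' * hτ' - 4 * a * hτ + hD'
  refine (sq_eq_sq_iff_eq_or_eq_neg.1 e).resolve_right fun e' => ?_
  have := congrArg Complex.im e'
  simp at this
  have h1 : (0 : ℝ) < a * τ.im := mul_pos (by exact_mod_cast ha) τ.im_pos
  have h2 : (0 : ℝ) < a' * τ'.im := mul_pos (by exact_mod_cast ha') τ'.im_pos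
  linarith

/-- **Genus theory.** If `σ` fixes the square root of the discriminant and sends `j τ` to `j τ'`,
the genus characters at `p` of the two forms differ by the sign of `σ` on the square root of `p*`. -/
theorem genus (hp : p ≠ 2) (hs : s ^ 2 = pst p) {a b c a' b' c' : ℤ} {τ τ' : ℍ}
    (hτ : a * (τ : ℂ) ^ 2 + b * τ + c = 0) (hτ' : a' * (τ' : ℂ) ^ 2 + b' * τ' + c' = 0)
    (ha : 0 < a) (ha' : 0 < a') (hD : b' ^ 2 - 4 * a' * c' = b ^ 2 - 4 * a * c)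
    (hpD : (p : ℤ) ∣ b ^ 2 - 4 * a * c) (σ : ℂ ≃+* ℂ) (hσ : σ (2 * a * τ + b) = 2 * a * τ + b)
    (hj : σ (jH τ) = jH τ') : chi p a' c' * s = chi p a c * σ s := by
  have e := im_eq hτ hτ' ha ha' hD
  have hω : ((a : ℂ) * τ) ^ 2 = (-b : ℤ) * ((a : ℂ) * τ) - (a * c : ℤ) := by
    push_cast; linear_combination a * hτ
  have him : ((a : ℂ) * τ).im ≠ 0 := by simpa using ⟨ha.ne', τ.im_pos.ne'⟩
  have hσ' : σ (a * τ) = a * τ := by
    simp only [map_add, map_mul, map_ofNat, map_intCast] at hσ ⊢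
    linear_combination hσ / 2
  obtain ⟨ε, a1, a2, a3⟩ := rel (δ := 2 * a * τ.im) hω him hp hs σ hσ'
  obtain ⟨k, hk⟩ : ∃ k, b' = b + 2 * k := by
    have : Even (b' ^ 2 - b ^ 2) := ⟨2 * (a' * c' - a * c), by linear_combination hD⟩
    rw [Int.even_sub, Int.even_pow' two_ne_zero, Int.even_pow' two_ne_zero, ← Int.even_sub] at this
    obtain ⟨k, hk⟩ := this
    exact ⟨k, by linear_combination hk⟩
  have hk' : (b' : ℂ) = b + 2 * k := by exact_mod_cast hk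
  have h := a3 (sp τ 1) (sp τ' 1) (hyp.isLat_sp τ) (by
      rw [smul_sp, sp_le]
      exact ⟨mem_sp.2 ⟨-b, -c, by push_cast; linear_combination -hτ⟩, mem_sp.2 ⟨a, 0, by simp⟩⟩)
    (hyp.isLat_sp τ') (by
      rw [smul_sp, sp_le]
      exact ⟨mem_sp.2 ⟨k - b', -c', by
          push_cast; linear_combination -hτ' + (τ' : ℂ) / 2 * e - (τ' : ℂ) / 2 * hk'⟩,
        mem_sp.2 ⟨a', k, by linear_combination e / 2 - hk' / 2⟩⟩)
    (by rw [hyp.jL_sp, hyp.jL_sp, hj])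
  have hi : a' * τ'.im = a * τ.im := by
    have := congrArg Complex.im e
    simp at this
    linarith
  rw [chi_of_R hp hτ hτ' hi hpD (hD ▸ hpD) a1 h, a2]
  push_cast; ring

/-- The mirror image `-conj τ`. -/
def mir (τ : ℍ) : ℍ := ⟨-starRingEnd ℂ τ, by simpa using τ.im_pos⟩

theorem coe_mir (τ : ℍ) : (mir τ : ℂ) = -starRingEnd ℂ τ := rfl

theorem jH_mir (τ : ℍ) : jH (mir τ) = starRingEnd ℂ (jH τ) := by
  rw [← hyp.jL_sp, ← hyp.jL_sp, ← hyp.jL_bar (hyp.isLat_sp τ), bar_sp, map_one, coe_mir,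
    Lat.sp_neg]

theorem conj_sqrt (hs : s ^ 2 = pst p) :
    starRingEnd ℂ s = (-1) ^ (p / 2) * s := by
  have h0 : (0 : ℝ) < p := by exact_mod_cast (Fact.out : p.Prime).pos
  have h1 := congrArg Complex.im hs
  have h2 := congrArg Complex.re hs
  rw [Complex.intCast_im] at h1
  rw [Complex.intCast_re, pst] at h2
  simp only [pow_two, Complex.mul_im, Complex.mul_re] at h1 h2
  have h3 : s.re = 0 ∨ s.im = 0 := mul_eq_zero.1 (by linarith)
  rcases neg_one_pow_eq_or ℤ (p / 2) with e | e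
  · have e' : (-1 : ℂ) ^ (p / 2) = 1 := by exact_mod_cast e
    rw [e] at h2
    push_cast at h2
    rw [e', one_mul, Complex.conj_eq_iff_im]
    refine h3.resolve_left fun h => ?_
    rw [h] at h2
    nlinarith [mul_self_nonneg s.im]
  · have e' : (-1 : ℂ) ^ (p / 2) = -1 := by exact_mod_cast e
    rw [e] at h2
    push_cast at h2
    have h4 : s.re = 0 := by
      refine h3.resolve_right fun h => ?_
      rw [h] at h2
      nlinarith [mul_self_nonneg s.re]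
    rw [e']
    apply Complex.ext <;> simp [h4]

/-- The same for automorphisms that change the sign of the square root of the discriminant. -/
theorem genus' (hp : p ≠ 2) (hs : s ^ 2 = pst p) {a b c a' b' c' : ℤ} {τ τ' : ℍ}
    (hτ : a * (τ : ℂ) ^ 2 + b * τ + c = 0) (hτ' : a' * (τ' : ℂ) ^ 2 + b' * τ' + c' = 0)
    (ha : 0 < a) (ha' : 0 < a') (hD : b' ^ 2 - 4 * a' * c' = b ^ 2 - 4 * a * c)
    (hpD : (p : ℤ) ∣ b ^ 2 - 4 * a * c) (σ : ℂ ≃+* ℂ)
    (hσ : σ (2 * a * τ + b) = -(2 * a * τ + b))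
    (hj : σ (jH τ) = jH τ') : chi p a' c' * s = (-1) ^ (p / 2) * chi p a c * σ s := by
  have h1 := congrArg (starRingEnd ℂ) hτ
  simp only [map_add, map_mul, map_pow, map_intCast, map_zero] at h1
  have hm : a * (mir τ : ℂ) ^ 2 + (-b : ℤ) * (mir τ : ℂ) + c = 0 := by
    rw [coe_mir]; push_cast; linear_combination h1
  have e := im_eq hτ hm ha ha (by ring)
  have h := genus hp hs hm hτ' ha ha' (by rw [hD]; ring) (by simpa using hpD) (cj.trans σ)
    (by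
      have : starRingEnd ℂ (2 * a * (mir τ : ℂ) + (-b : ℤ)) = -(2 * a * τ + b) := by
        rw [coe_mir]; simp [map_ofNat]; ring
      rw [RingEquiv.trans_apply, cj_apply, this, map_neg, hσ, neg_neg, e])
    (by rw [RingEquiv.trans_apply, cj_apply, jH_mir, Complex.conj_conj, hj])
  rw [h, RingEquiv.trans_apply, cj_apply, conj_sqrt hs]
  simp only [map_mul, map_pow, map_neg, map_one]
  ring

end Pool.Agent.Lib.MP_d6ddbd_nt.GF
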