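import Pool.Agent.Lib.MP_d6ddbd_nt.GF.Hg

/-! Heegner points on `X₀(17)` with their genus characters. -/

open Finset UpperHalfPlane
open scoped MatrixGroups
open Pool.Agent.Lib.MP_9177b7_ag.CM (jH hyp)
open Pool.Agent.Lib.MP_d6ddbd_nt.G
open Pool.Agent.Lib.MP_d6ddbd_nt.G.SelAux (z2)
open Pool.Agent.Lib.MP_d6ddbd_nt.G.FinalAux (odd_of dsc_cases jac_cases)
open Pool.Agent.Lib.MP_d6ddbd_nt.K (Hg G0 phi TT XX YY Orb PP Dv)
open Pool.Agent.Lib.MP_d6ddbd_nt.K.HeegAux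

noncomputable section

namespace Pool.Agent.Lib.MP_d6ddbd_nt.GF

variable {S : Finset ℕ} {D β : ℤ} {O : ValuationSubring ℂ}

/-- The classes of Heegner points. -/
def HI (D β : ℤ) : Type := {c : Orb // (Hg D β c.out).Nonempty}

/-- The form attached to a class. -/
def HI.Q (i : HI D β) : ℤ × ℤ × ℤ := i.2.choose

theorem HI.mem (i : HI D β) : i.Q ∈ Hg D β i.1.out := i.2.choose_spec

theorem HI.finite (hD : D < 0) : Finite (HI D β) := by
  refine ((K.dv_fin 1 hD β).subset fun c hc => ?_).to_subtype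
  obtain ⟨Q, h⟩ := hc
  change Dv 1 D β c.out ≠ 0
  rw [dv_eq 1 hD h]
  simp [K.chi]

theorem HI.inj (h17 : ¬ (17 : ℤ) ∣ β) :
    Function.Injective fun i : HI D β => jH i.1.out := fun i i' e => by
  obtain ⟨γ, h⟩ := hyp.jH_eq_iff.1 e
  have h1 := hg_uniq h17 i.mem (h ▸ i'.mem)
  refine Subtype.ext ?_
  rw [← Quotient.out_eq i'.1, h, mk_smul h1, Quotient.out_eq]

theorem HI.lift {w : ℍ} (h : (Hg D β w).Nonempty) :
    ∃ i : HI D β, ∃ γ ∈ G0, i.1.out = γ • w := by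
  obtain ⟨γ, h1, h2⟩ := out_mk w
  obtain ⟨Q, hQ⟩ := h
  rw [← inv_smul_smul γ w] at hQ
  obtain ⟨Q', h3, -⟩ := hg_sl (inv_mem h1) hQ
  exact ⟨⟨Quotient.mk _ w, Q', h2 ▸ h3⟩, γ, h1, h2⟩

theorem HI.gal (hS : Adm S) (h17 : ¬ (17 : ℤ) ∣ β) (σ : ℂ ≃+* ℂ) :
    ∃ π : HI (dsc S) β ≃ HI (dsc S) β,
      (∑ p ∈ S, sgn σ p = 0 → ∀ i, act σ (br (phi i.1.out)) = br (phi (π i).1.out) ∧
        ∀ p ∈ S, cq p (π i).Q = cq p i.Q + sgn σ p) ∧
      (∑ p ∈ S, sgn σ p = 1 → ∀ i, act σ (br (phi i.1.out)) = T0 - br (phi (π i).1.out) ∧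
        ∀ p ∈ S, cq p (π i).Q = cq p i.Q + sgn σ p + ep p + ga p) := by
  have key : ∀ i : HI (dsc S) β, ∃ i' : HI (dsc S) β,
      (∑ p ∈ S, sgn σ p = 0 → jH i'.1.out = σ (jH i.1.out) ∧
        act σ (br (phi i.1.out)) = br (phi i'.1.out) ∧
        ∀ p ∈ S, cq p i'.Q = cq p i.Q + sgn σ p) ∧
      (∑ p ∈ S, sgn σ p = 1 → jH (WW i'.1.out) = σ (jH i.1.out) ∧
        act σ (br (phi i.1.out)) = T0 - br (phi i'.1.out) ∧
        ∀ p ∈ S, cq p i'.Q = cq p i.Q + sgn σ p + ep p + ga p) := fun i => by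
    obtain ⟨w, Q, h1, h2⟩ := gal_pt hS σ i.mem
    obtain ⟨i', γ, h3, h4⟩ := HI.lift ⟨Q, h1⟩
    obtain ⟨δ, -, h5⟩ := WW_smul h3 w
    have h6 : ∀ p ∈ S, cq p i'.Q = cq p Q := fun p hp => by
      have := hg_fm i'.mem
      rw [h4, jH_sl] at this
      rw [cq, cq, (hg_fm h1).1.ch hS.1 hp this.1 (hg_fm h1).2 this.2]
    refine ⟨i', ?_⟩
    rw [h4, h5, jH_sl, jH_sl, K.phi_inv h3]
    exact ⟨fun e => ⟨(h2.1 e).1, (h2.1 e).2.1, fun p hp => (h6 p hp).trans ((h2.1 e).2.2 p hp)⟩,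
      fun e => ⟨(h2.2 e).1, (h2.2 e).2.1, fun p hp => (h6 p hp).trans ((h2.2 e).2.2 p hp)⟩⟩
  choose f h0 h1 using key
  have := HI.finite (β := β) (dsc_neg hS)
  have hf : Function.Injective f := fun i i' e => HI.inj h17 (σ.injective (by
    rcases z2 (∑ p ∈ S, sgn σ p) with k | k
    · rw [← (h0 i k).1, ← (h0 i' k).1, e]
    · rw [← (h1 i k).1, ← (h1 i' k).1, e]))
  exact ⟨Equiv.ofBijective f hf.bijective_of_finite, fun k i => (h0 i k).2, fun k i => (h1 i k).2⟩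

theorem in0 {τ : ℍ} (h : XX τ ∉ O.nonunits) : In0 O (br (phi τ)) := by
  rw [phi, br_pt (X.curS.1 τ)]
  exact h

/-- The Heegner points of discriminant `dsc S`. -/
def heeg (hO : (17 : ℂ) ∈ O.nonunits) (hS : Adm S) (hβ : (68 : ℤ) ∣ dsc S - β ^ 2)
    (h17 : ¬ (17 : ℤ) ∣ β) : Heeg O S where
  I := HI (dsc S) β
  fin := @Fintype.ofFinite _ (HI.finite (dsc_neg hS))
  x i := br (phi i.1.out)
  χ p i := cq p i.Q
  gal := HI.gal hS h17
  prod i := sum_ch hS (hg_fm i.mem).1.pos (hg_fm i.mem).2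
  redei := by
    refine @redei S hS _ (_) _ _ (HI.inj h17)
      (fun i => ⟨_, _, _, (hg_fm i.mem).1, (hg_fm i.mem).2, fun _ _ => rfl⟩) fun A B C x h hD => ?_
    obtain ⟨z, h1, rfl⟩ := hg_ex hβ h17 h hD
    obtain ⟨i, γ, -, h2⟩ := HI.lift h1
    exact ⟨i, by rw [h2, jH_sl]⟩
  comp := by
    refine (X.valS O hO (dsc S) β fun h =>
      (hS.1 17 (mem_of_dvd hS.1 (by norm_num) h)).2.2.2 rfl).imp (fun h i => in0 (h _ i.2))
      fun h i => ?_
    rw [← br_TT, ← map_sub, ← X.curS.2.1]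
    exact in0 (h _ i.2)

theorem heeg_P (hO : (17 : ℂ) ∈ O.nonunits) (hS : Adm S) (hβ : (68 : ℤ) ∣ dsc S - β ^ 2)
    (h17 : ¬ (17 : ℤ) ∣ β) {e : Finset ℕ} (he : e ⊆ S) :
    (heeg hO hS hβ h17).P e = br (PP (∏ p ∈ e, p) (dsc S) β) := by
  let _ := (heeg hO hS hβ h17).fin
  have hD := dsc_neg hS
  rw [PP, K.hsum, finsum_eq_sum_of_support_subset (s := (univ : Finset (heeg hO hS hβ h17).I).map
    (Function.Embedding.subtype _)) _ fun c hc => ?_, sum_map, map_sum, Heeg.P]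
  · refine sum_congr rfl fun i _ => ?_
    have h1 := (hg_fm i.mem).2
    have h2 : Dv (∏ p ∈ e, p) (dsc S) β i.1.out = sg (∑ p ∈ e, cq p i.Q) := by
      rw [dv_eq _ hD i.mem, K.chi, Nat.primeFactors_prod fun p hp => (hS.1 p (he hp)).1]
      refine (prod_congr rfl fun p hp => ?_).trans (sum_zz hS.1 h1 he).symm
      rw [K.chip, if_pos ((dvd_dsc hS.1 (he hp)).trans h1.symm.dvd), ch]
    change (if ∑ p ∈ e, cq p i.Q = 0 then br (phi i.1.out) else -br (phi i.1.out)) =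
      br (Dv (∏ p ∈ e, p) (dsc S) β i.1.out • phi i.1.out)
    rw [h2, sg, map_zsmul]
    split_ifs <;> simp
  · have h1 : (Hg (dsc S) β c.out).Nonempty :=
      ne_of_dv (m := ∏ p ∈ e, p) fun k => hc (by simp only [k]; exact zero_zsmul _)
    exact mem_coe.2 (mem_map.2 ⟨⟨c, h1⟩, @mem_univ (heeg hO hS hβ h17).I _ _, rfl⟩)

theorem P_union {e T : Finset ℕ} (H : Heeg O S) (hS : S = e ∪ T) (hd : Disjoint e T) :
    H.P e = H.P T := by
  refine sum_congr rfl fun i _ => ?_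
  have := H.prod i
  rw [sum_congr hS fun _ _ => rfl, sum_union hd] at this
  rw [KerAux.eq_of_add this]

theorem pp_congr (m : ℕ) {β' : ℤ} (h : (34 : ℤ) ∣ β - β') : PP m D β = PP m D β' := by
  have : Hg D β = Hg D β' := by
    funext z
    ext Q
    simp only [Hg, Set.mem_ofPred_eq]
    rw [show (34 : ℤ) ∣ Q.2.1 - β ↔ (34 : ℤ) ∣ Q.2.1 - β' by omega]
  rw [PP, PP, funext fun z => show Dv m D β z = Dv m D β' z by rw [Dv, Dv, this]]

theorem root_cases {u v : ℤ} (h : (68 : ℤ) ∣ u ^ 2 - v ^ 2) :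
    (34 : ℤ) ∣ u - v ∨ (34 : ℤ) ∣ u - -v := by
  have h1 : Even (u ^ 2 - v ^ 2) := even_iff_two_dvd.2 ((by norm_num : (2 : ℤ) ∣ 68).trans h)
  rw [Int.even_sub, Int.even_pow' two_ne_zero, Int.even_pow' two_ne_zero, ← Int.even_sub,
    even_iff_two_dvd] at h1
  have h2 : (17 : ℤ) ∣ (u - v) * (u + v) :=
    ((by norm_num : (17 : ℤ) ∣ 68).trans h).trans (dvd_of_eq (by ring))
  rcases (Nat.prime_iff_prime_int.1 (by norm_num : Nat.Prime 17)).dvd_or_dvd h2 with e | e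
  · left; omega
  · right; omega

theorem exists_val : ∃ O : ValuationSubring ℂ, (17 : ℂ) ∈ O.nonunits := by
  obtain ⟨O, -, h⟩ := Ideal.image_subset_nonunits_valuationSubring (A := (⊥ : Subring ℂ))
    (Ideal.span {17}) (by
      rw [Ne, Ideal.span_singleton_eq_top, isUnit_iff_exists_inv]
      rintro ⟨⟨x, hx⟩, h⟩
      obtain ⟨n, rfl⟩ := Subring.mem_bot.1 hx
      have h1 : (17 : ℂ) * n = 1 := congrArg Subtype.val h
      have h2 : 17 * n = 1 := by exact_mod_cast h1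
      omega)
  exact ⟨O, h ⟨17, Ideal.mem_span_singleton_self _, rfl⟩⟩

/-- The twisted Gross-Kohnen-Zagier relation for the points `PP`. -/
def GkzStmt : Prop := ∀ e h : ℤ, 0 < e → (68 : ℤ) ∣ e - h ^ 2 → ¬ (17 : ℤ) ∣ h →
  ∃ c : ℚ, ∀ (m : ℕ) (r₀ : ℤ), Squarefree m → m.Coprime 102 → IsCoprime e m →
    (68 : ℤ) ∣ r₀ ^ 2 + m →
    IsOfFinAddOrder ((c.den : ℤ) • PP m (-(m * e)) (r₀ * h) - c.num • PP m (-m) r₀)

theorem geom_of (hG : GkzStmt) : GeomStmt := by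
  obtain ⟨O, hO⟩ := exists_val
  have h0 : ∀ S, ∃ h : ℤ, Prs S → ∑ p ∈ S, ga p = 0 →
      (68 : ℤ) ∣ dsc S - h ^ 2 ∧ ¬ (17 : ℤ) ∣ h := fun S => by
    by_cases k : Prs S ∧ ∑ p ∈ S, ga p = 0
    · exact (ex_root k.1 k.2).imp fun _ h _ _ => h
    · exact ⟨0, fun a b => absurd ⟨a, b⟩ k⟩
  choose rt h0 using h0
  have hpos : ∀ e, Pos e → dsc e = (∏ p ∈ e, p : ℕ) := fun e he => by
    rcases dsc_cases (odd_of he.1) with h | h
    · exact h.2.1
    · exact absurd (h.1.symm.trans he.2.1) (by decide)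
  have h1 : ∀ e, ∃ c : ℚ, Pos e → ∀ (m : ℕ) (r₀ : ℤ), Squarefree m → m.Coprime 102 →
      IsCoprime (dsc e) m → (68 : ℤ) ∣ r₀ ^ 2 + m → IsOfFinAddOrder ((c.den : ℤ) •
        PP m (-(m * dsc e)) (r₀ * rt e) - c.num • PP m (-m) r₀) := fun e => by
    by_cases k : Pos e
    · refine (hG _ _ ?_ (h0 e k.1 k.2.2).1 (h0 e k.1 k.2.2).2).imp fun _ h _ => h
      rw [hpos e k]
      exact_mod_cast (sqf k.1).ne_zero.bot_lt
    · exact ⟨0, fun a => absurd a k⟩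
  choose c h1 using h1
  refine ⟨O, hO, fun S hS => heeg hO hS (h0 S hS.1 hS.2.2).1 (h0 S hS.1 hS.2.2).2, c,
    fun e T hT h he hd => ?_⟩
  have a1 := dsc_adm hT
  have a2 : dsc (e ∪ T) = -((∏ p ∈ T, p : ℕ) * dsc e) := by
    rw [dsc, prod_union hd, ← dsc, ← dsc, a1]
    ring
  have a3 := (h0 T hT.1 hT.2.2).1
  have a4 := h1 e he (∏ p ∈ T, p) (rt T) (sqf hT.1)
    (Nat.Coprime.prod_left fun p hp => by
      obtain ⟨b1, b2, b3, b4⟩ := hT.1 p hp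
      exact ((Nat.coprime_primes b1 Nat.prime_two).2 b2).mul_right
        (((Nat.coprime_primes b1 Nat.prime_three).2 b3).mul_right
          ((Nat.coprime_primes b1 (by norm_num)).2 b4)))
    (by
      rw [hpos e he, Nat.isCoprime_iff_coprime]
      exact Nat.Coprime.prod_left fun p hp => Nat.Coprime.prod_right fun q hq =>
        (Nat.coprime_primes (he.1 p hp).1 (hT.1 q hq).1).2 fun k =>
          disjoint_left.1 hd hp (k ▸ hq))
    ((dvd_neg.2 a3).trans (dvd_of_eq (by rw [a1]; ring)))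
  beta_reduce
  rw [P_union _ rfl hd, P_union (e := ∅) _ (empty_union T).symm (disjoint_empty_left T),
    heeg_P _ _ _ _ subset_union_right, heeg_P _ _ _ _ Subset.rfl]
  rw [← a1, ← a2] at a4
  have a5 : (68 : ℤ) ∣ (rt T * rt e) ^ 2 - rt (e ∪ T) ^ 2 := by
    have := dvd_sub (dvd_sub (h0 _ h.1 h.2.2).1 (a3.mul_right (dsc e)))
      ((h0 e he.1 he.2.2).1.mul_left (rt T ^ 2))
    exact this.trans (dvd_of_eq (by rw [a2, a1]; ring))
  rcases root_cases a5 with k | k <;> rw [pp_congr _ k] at a4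
  · refine ⟨1, Or.inl rfl, ?_⟩
    simpa using br.toAddMonoidHom.isOfFinAddOrder a4
  · refine ⟨-1, Or.inr rfl, ?_⟩
    rw [pp_of (fun γ k => K.phi_inv k) K.phi_W _ (abs_dsc hT.1 ▸ Int.natAbs_odd.2
      (Int.odd_iff.2 (by have := dsc_mod hT.1; omega)))
      (((jac_cases fun p hp => ⟨(hT.1 p hp).1, (hT.1 p hp).2.2.2⟩).resolve_right fun k =>
        absurd (k.1.symm.trans hT.2.2) (by decide)).2) (sqf hT.1) (dsc_neg h)] at a4
    have a6 : IsOfFinAddOrder TT := isOfFinAddOrder_iff_nsmul_eq_zero.2 ⟨4, by norm_num, K.four_TT⟩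
    have a7 := ((a6.zsmul (i := K.hdeg (Dv (∏ p ∈ T, p) (dsc (e ∪ T)) (rt (e ∪ T))))).zsmul
      (i := (c e).den)).add a4.neg
    have a8 := br.toAddMonoidHom.isOfFinAddOrder a7
    convert a8 using 1
    simp only [AddEquiv.coe_toAddMonoidHom, map_add, map_neg, map_sub, map_zsmul]
    module

end Pool.Agent.Lib.MP_d6ddbd_nt.GF
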