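import Pool.Agent.Lib.MP_9177b7_ag.CM.Main
import Pool.Agent.Shared.FrobeniusDensity

/-! Every automorphism of `ℂ` is, on a finite set of algebraic numbers, a power of a Frobenius. -/

open Filter Topology NumberField
open Pool.Agent.Lib.MP_9177b7_ag.CM Pool.Agent.Shared.FrobeniusDensity

namespace Pool.Agent.Lib.MP_d6ddbd_nt.GF

theorem isFrob_conj {K : Type} [Field K] [NumberField K] {p : ℕ} {φ : K ≃ₐ[ℚ] K}
    (h : IsFrob p φ) (g : K ≃ₐ[ℚ] K) : IsFrob p (g⁻¹ * φ * g) := by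
  obtain ⟨P, hP, h1, h2⟩ := h
  refine ⟨P.comap (MulSemiringAction.toRingHom _ (𝓞 K) g), Ideal.comap_isPrime _ _, ?_,
    fun x => ?_⟩
  · rw [Ideal.mem_comap, map_natCast]; exact h1
  · rw [Ideal.mem_comap, map_sub, map_pow]
    simp only [MulSemiringAction.toRingHom_apply, mul_smul, smul_inv_smul]
    exact h2 _

theorem exists_frob_gen (K : Type) [Field K] [NumberField K] [IsGalois ℚ K] (σ : K ≃ₐ[ℚ] K)
    (M : ℕ) (hM : M ≠ 0) : ∃ (l : ℕ) (φ : K ≃ₐ[ℚ] K), l.Prime ∧ ¬ l ∣ M ∧ IsFrob l φ ∧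
      Subgroup.zpowers φ = Subgroup.zpowers σ := by
  classical
  have hex : ∀ p : ℕ, ∃ φ : K ≃ₐ[ℚ] K, p.Prime → IsFrob p φ := fun p => by
    by_cases hp : p.Prime
    · obtain ⟨φ, h⟩ := exists_isFrob (K := K) hp
      exact ⟨φ, fun _ => h⟩
    · exact ⟨1, fun h => absurd h hp⟩
  choose φ hφ using hex
  obtain ⟨S, hS⟩ : ∃ S : Set (K ≃ₐ[ℚ] K),
      ∀ τ, τ ∈ S ↔ ∃ g, Subgroup.zpowers (g⁻¹ * τ * g) = Subgroup.zpowers σ :=
    ⟨{τ | ∃ g, Subgroup.zpowers (g⁻¹ * τ * g) = Subgroup.zpowers σ}, fun _ => Iff.rfl⟩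
  have hz : ∀ (a b g : K ≃ₐ[ℚ] K), Subgroup.zpowers a = Subgroup.zpowers b →
      Subgroup.zpowers (g⁻¹ * a * g) ≤ Subgroup.zpowers (g⁻¹ * b * g) := by
    intro a b g h
    rw [Subgroup.zpowers_le]
    obtain ⟨k, hk⟩ := Subgroup.mem_zpowers_iff.1 (h ▸ Subgroup.mem_zpowers a)
    refine Subgroup.mem_zpowers_iff.2 ⟨k, ?_⟩
    have := conj_zpow (i := k) (a := g⁻¹) (b := b)
    rw [inv_inv] at this
    rw [this, hk]
  have hd := frobenius_density φ hφ S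
    (fun τ g => (hS _).trans (Iff.trans ⟨?_, ?_⟩ (hS _).symm)) ?_
  · by_contra hne
    have e := tendsto_nhds_unique hd (lim_zero (by
      filter_upwards [eventually_gt_atTop M] with p hp hpp
      rw [if_neg]
      rw [hS]
      rintro ⟨g, hg⟩
      exact hne ⟨p, _, hpp, fun h => absurd (Nat.le_of_dvd (Nat.pos_of_ne_zero hM) h) hp.not_ge,
        isFrob_conj (hφ p hpp) g, hg⟩))
    rw [div_eq_zero_iff] at e
    rcases e with e | e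
    · have e' := Nat.cast_eq_zero.1 e
      rw [Finset.card_eq_zero, Finset.filter_eq_empty_iff] at e'
      exact e' (Finset.mem_univ σ) ((hS _).2 ⟨1, by simp⟩)
    · exact Fintype.card_ne_zero (by exact_mod_cast e)
  · rintro ⟨g', h⟩
    exact ⟨g * g', by rw [← h]; simp only [mul_inv_rev, mul_assoc]⟩
  · rintro ⟨g', h⟩
    exact ⟨g⁻¹ * g', by rw [← h]; congr 1; group⟩
  · intro a b h
    rw [hS, hS]
    rintro ⟨g, hg⟩
    exact ⟨g, by rw [← hg]; exact le_antisymm (hz _ _ g h.symm) (hz _ _ g h)⟩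

theorem cheb (J : Set ℂ) (hJ : J.Finite) (ha : ∀ x ∈ J, IsAlgebraic ℚ x) (σ : ℂ ≃+* ℂ)
    (M : ℕ) (hM : M ≠ 0) : ∃ l : ℕ, l.Prime ∧ ¬ l ∣ M ∧
      ∃ (φ : ℂ ≃+* ℂ) (A : Subring ℂ) (P : AddSubgroup ℂ),
        (∀ a ∈ A, ∀ x ∈ P, a * x ∈ P) ∧ (∀ a ∈ A, ∀ b ∈ A, a * b ∈ P → a ∈ P ∨ b ∈ P) ∧
        (∀ x ∈ J, x ∈ A) ∧ (∀ ζ : ℂ, ζ ^ l = 1 → ζ ∈ A ∧ 1 - ζ ∈ P) ∧ (6 : ℂ)⁻¹ ∈ A ∧
        (l : ℂ) ∈ P ∧ (∀ x ∈ J, φ x - x ^ l ∈ P) ∧ (∀ x ∈ J, ∀ y ∈ J, x - y ∈ P → x = y) ∧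
        (∃ k : ℕ, ∀ x ∈ J, σ x = φ^[k] x) ∧ (∃ k : ℕ, ∀ x ∈ J, φ x = σ^[k] x) := by
  obtain ⟨N, hN0, hN⟩ := Frob.exists_den
    (insert (6 : ℂ)⁻¹ (J ∪ Set.image2 (fun x y => (x - y)⁻¹) J J))
    ((hJ.union (hJ.image2 _ hJ)).insert _) (by
      rintro x (rfl | hx | ⟨a, h1, b, h2, rfl⟩)
      · exact (isAlgebraic_natCast 6).inv
      · exact ha x hx
      · exact ((ha a h1).sub (ha b h2)).inv)
  obtain ⟨K, _, _, _, j, hj⟩ := Frob.exists_field J hJ ha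
  obtain ⟨σ₀, hσ₀⟩ : ∃ σ₀ : K ≃ₐ[ℚ] K, ∀ y, j (σ₀ y) = σ (j y) := by
    let _inst := j.toAlgebra
    have : IsScalarTower ℚ K ℂ := IsScalarTower.of_algebraMap_eq' (Subsingleton.elim _ _)
    let σ' : ℂ ≃ₐ[ℚ] ℂ := { σ with commutes' := fun q => by simp }
    exact ⟨σ'.restrictNormal K, fun y => AlgEquiv.restrictNormal_commutes σ' K y⟩
  obtain ⟨l, φ₀, hl, hlN, ⟨Q₀, hQ₀, hlQ₀, hφ₀⟩, hz⟩ :=
    exists_frob_gen K σ₀ (N * M) (Nat.mul_ne_zero hN0 hM)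
  refine ⟨l, hl, fun h => hlN (h.mul_left N), ?_⟩
  have : Countable K := by
    have : Module.Finite ℚ K := inferInstance
    exact Countable.of_equiv _ (Module.finBasis ℚ K).equivFun.toEquiv.symm
  obtain ⟨φ, hφ⟩ := ext K j (j.comp (φ₀ : K →+* K)) j.injective (j.injective.comp φ₀.injective)
  have hφ' : ∀ y, φ (j y) = j (φ₀ y) := hφ
  let O := integralClosure ℤ ℂ
  let ι : O →+* ℂ := O.val.toRingHom
  have hι : Function.Injective ι := Subtype.val_injective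
  let ι₀ : 𝓞 K →+* O := (j.comp (algebraMap (𝓞 K) K)).codRestrict O.toSubring fun y =>
    (RingOfIntegers.isIntegral_coe y).map j.toIntAlgHom
  have hι₀ : ∀ y, ι (ι₀ y) = j y := fun _ => rfl
  obtain ⟨Q, hQ, hQQ⟩ : ∃ Q : Ideal O, Q.IsPrime ∧ Q.comap ι₀ = Q₀ := by
    let _inst := ι₀.toAlgebra
    have : IsScalarTower ℤ (𝓞 K) O := IsScalarTower.of_algebraMap_eq' (Subsingleton.elim _ _)
    have : Algebra.IsIntegral (𝓞 K) O := Algebra.IsIntegral.tower_top ℤ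
    obtain ⟨Q, -, h1, h2⟩ := Ideal.exists_ideal_over_prime_of_isIntegral Q₀ (⊥ : Ideal O) (by
      intro y hy
      have h1 : ι₀ y = 0 := hy
      have h2 : j y = 0 := by rw [← hι₀, h1, map_zero]
      have h3 : y = 0 := by simpa using h2
      rw [h3]; exact Q₀.zero_mem)
    exact ⟨Q, h1, h2⟩
  have hmem : ∀ y ∈ Q₀, ι₀ y ∈ Q := fun y hy => by rw [← hQQ] at hy; exact hy
  have hlQ : (l : O) ∈ Q := by simpa using hmem _ hlQ₀
  have hNQ : (N : O) ∉ Q := fun h => hQ.ne_top ((Ideal.eq_top_iff_one _).2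
    (Frob.one_mem_of_coprime ((Nat.Prime.coprime_iff_not_dvd hl).2
      fun h => hlN (h.mul_right M)) hlQ h))
  obtain ⟨A, P, h1, h2, h3, h4, h5⟩ := Frob.core ι hι Q hQ N hNQ
  have hA : ∀ z : ℂ, IsIntegral ℤ ((N : ℂ) * z) → z ∈ A := fun z hz =>
    h3 z 1 ⟨_, hz⟩ (by rw [pow_one]; rfl)
  have hpow : ∀ (a : K ≃ₐ[ℚ] K) (b : ℂ ≃+* ℂ), (∀ y, j (a y) = b (j y)) →
      ∀ (k : ℕ) y, j ((a ^ k) y) = b^[k] (j y) := by
    intro a b hab k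
    induction k with
    | zero => intro y; rfl
    | succ k ih => intro y; rw [pow_succ', Function.iterate_succ_apply', ← ih, ← hab]; rfl
  refine ⟨φ, A, P, h1, h2, fun x hx => hA x (hN _ (Set.mem_insert_of_mem _ (Or.inl hx))),
    fun ζ hζ => ?_, hA _ (hN _ (Set.mem_insert _ _)), h4 _ 0 l hlQ (by simp), fun x hx => ?_,
    fun x hx y hy hxy => ?_, ?_, ?_⟩
  · have hζi : IsIntegral ℤ ζ := IsIntegral.of_pow hl.pos (by rw [hζ]; exact isIntegral_one)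
    let z : O := ⟨ζ, hζi⟩
    have e1 : z ^ l = 1 := Subtype.ext hζ
    obtain ⟨r, hr⟩ := exists_add_pow_prime_eq hl z (1 - z)
    rw [add_sub_cancel, one_pow, e1] at hr
    have e4 : (1 - z) ^ l ∈ Q := by
      rw [show (1 - z) ^ l = l * (-(z * (1 - z) * r)) by linear_combination -hr]
      exact Q.mul_mem_right _ hlQ
    exact ⟨h3 ζ 0 z (by rw [pow_zero, one_mul]; rfl),
      h4 _ 0 (1 - z) (hQ.mem_of_pow_mem l e4) (by rw [pow_zero, one_mul]; rfl)⟩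
  · obtain ⟨z, rfl⟩ := hj x hx
    have hi := hN _ (Set.mem_insert_of_mem _ (Or.inl hx))
    let y : 𝓞 K := ⟨N * z, (isIntegral_algHom_iff j.toIntAlgHom j.injective).1 (by simpa using hi)⟩
    have hy : (y : K) = N * z := rfl
    have e1 := hφ₀ (N : 𝓞 K)
    have e0 : φ₀ • (N : 𝓞 K) = N := map_natCast (MulSemiringAction.toRingHom _ (𝓞 K) φ₀) N
    rw [e0] at e1
    refine h4 _ (l + 1) (ι₀ ((N : 𝓞 K) ^ l * (φ₀ • y - y ^ l) - ((N : 𝓞 K) - N ^ l) * y ^ l))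
      (hmem _ (Q₀.sub_mem (Q₀.mul_mem_left _ (hφ₀ y)) (Q₀.mul_mem_right _ e1))) ?_
    simp only [map_sub, map_mul, map_pow, map_natCast, hι₀, coe_smul, hy, hφ']
    ring
  · by_contra hne
    have e1 := h1 _ (hA _ (hN _ (Set.mem_insert_of_mem _ (Or.inr ⟨_, hx, _, hy, rfl⟩)))) _ hxy
    rw [inv_mul_cancel₀ (sub_ne_zero.2 hne)] at e1
    exact h5 e1
  · obtain ⟨k, hk⟩ := (Submonoid.mem_powers_iff _ _).1
      (mem_powers_iff_mem_zpowers.2 (hz ▸ Subgroup.mem_zpowers σ₀ : σ₀ ∈ Subgroup.zpowers φ₀))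
    refine ⟨k, fun x hx => ?_⟩
    obtain ⟨z, rfl⟩ := hj x hx
    rw [← hpow φ₀ φ (fun y => (hφ' y).symm), hk, hσ₀]
  · obtain ⟨k, hk⟩ := (Submonoid.mem_powers_iff _ _).1
      (mem_powers_iff_mem_zpowers.2 (hz ▸ Subgroup.mem_zpowers φ₀ : φ₀ ∈ Subgroup.zpowers σ₀))
    refine ⟨k, fun x hx => ?_⟩
    obtain ⟨z, rfl⟩ := hj x hx
    rw [← hpow σ₀ σ hσ₀, hk, hφ']

end Pool.Agent.Lib.MP_d6ddbd_nt.GF
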