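import Pool.Agent.Lib.MP_d6ddbd_nt.K.Defs
import Pool.Agent.Lib.MP_d6ddbd_nt.X.Defs

/-! The function field of `X₀(17)` and Abel's theorem: statements. -/

open UpperHalfPlane Filter Topology
open scoped MatrixGroups
open Pool.Agent.Lib.MP_9177b7_ag.CM (jH Conj sp)
open scoped Pointwise
open Pool.Agent.Lib.MP_d6ddbd_nt.K
open Pool.Agent.Lib.MP_d6ddbd_nt.X (ww)

noncomputable section

namespace Pool.Agent.Lib.MP_d6ddbd_nt.GF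

/-- The properties of the model of `X₀(17)` that are used. -/
structure Mdl (X Y t : ℍ → ℂ) : Prop where
  mX : MF G0 X
  mY : MF G0 Y
  mt : MF G0 t
  ne : ∀ z, t z ≠ 0
  eqn : ∀ z, Y z ^ 2 = X z * (X z ^ 2 + 30 * X z + 289)
  rel : ∀ z, 16 * t z = X z ^ 2 + 94 * X z + 289 - 16 * Y z
  qX : ∃ c, QE 1 X c ∧ RatS c ∧ c.coeff (-2) ≠ 0 ∧ ∀ N < -2, c.coeff N = 0
  qY : ∃ c, QE 1 Y c ∧ RatS c ∧ c.coeff (-3) ≠ 0 ∧ ∀ N < -3, c.coeff N = 0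
  wX : Tendsto (fun z => X (ww z)) atImInfty (𝓝 17)
  wY : Tendsto (fun z => Y (ww z)) atImInfty (𝓝 136)
  wt : ∀ z, t (ww z) * t z = 4913
  liou : ∀ f, MF G0 f → IsBoundedAtImInfty f → IsBoundedAtImInfty (fun z => f (ww z)) →
    ∃ c, ∀ z, f z = c

/-- Every modular function is a polynomial in `X`, `Y`, `1 / t`. -/
def FFStmt (X Y t : ℍ → ℂ) : Prop :=
  (∀ f, MF G0 f → ∃ (k : ℕ) (P Q : Polynomial ℂ),
    ∀ z, f z * t z ^ k = P.eval (X z) + Q.eval (X z) * Y z) ∧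
  ∀ f c, MF G0 f → QE 1 f c → RatS c → ∃ (k : ℕ) (P Q : Polynomial ℚ),
    ∀ z, f z * t z ^ k = Polynomial.aeval (X z) P + Polynomial.aeval (X z) Q * Y z

/-- Every affine point other than `(17, 136)` is a value, and `(17, 136)` is not. -/
def SurjStmt (X Y : ℍ → ℂ) : Prop :=
  (∀ x y : ℂ, y ^ 2 = x * (x ^ 2 + 30 * x + 289) → ¬ (x = 17 ∧ y = 136) →
    ∃ z, X z = x ∧ Y z = y) ∧ ∀ z, ¬ (X z = 17 ∧ Y z = 136)

/-- Injectivity modulo the group away from the ramification points of `j`. -/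
def InjStmt (X Y : ℍ → ℂ) : Prop := ∀ z w : ℍ, jH z ≠ 0 → jH z ≠ 1728 → X w = X z → Y w = Y z →
  ∃ γ ∈ G0, w = γ • z

/-- `j` is a modular function, unramified away from `0` and `1728`. -/
def JStmt : Prop := MF G0 jH ∧
  ∀ z : ℍ, jH z ≠ 0 → jH z ≠ 1728 → ord (fun w => jH w - jH z) z = 1

/-- The point `w` of `Y₀(17)` is the conjugate of `z` by `σ`. -/
def Cj (σ : ℂ ≃+* ℂ) (z w : ℍ) : Prop := ∃ c : ℂ, c ≠ 0 ∧
  Conj (σ : ℂ →+* ℂ) (sp z 1) (c • sp w 1) ∧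
  Conj (σ : ℂ →+* ℂ) (sp z (1 / 17)) (c • sp w (1 / 17))

/-- Galois equivariance of the coordinates. -/
def EquivStmt (X Y : ℍ → ℂ) : Prop :=
  ∀ (σ : ℂ ≃+* ℂ) (z w : ℍ), jH z ≠ 0 → jH z ≠ 1728 → Cj σ z w → X w = σ (X z) ∧ Y w = σ (Y z)

/-- Abel's theorem. -/
def AbelStmt (X Y : ℍ → ℂ) : Prop :=
  ∀ (W : WeierstrassCurve.Affine ℂ), W = ⟨0, 30, 0, 289, 0⟩ → ∀ φ : ℍ → W.Point,
    (∀ z, ∃ h, φ z = .some (X z) (Y z) h) → ∀ (f₁ f₂ : ℍ → ℂ) (D : ℍ → ℤ), MF G0 f₁ → MF G0 f₂ →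
    (∃ z, f₁ z ≠ 0) → (∃ z, f₂ z ≠ 0) → (∀ z, (ord f₁ z : ℤ) - ord f₂ z = D z) →
    (∀ z, D z ≠ 0 → jH z ≠ 0 ∧ jH z ≠ 1728) →
    Fin0 D ∧ IsOfFinAddOrder (∑ᶠ c : Orb, D c.out • φ c.out)

end Pool.Agent.Lib.MP_d6ddbd_nt.GF
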