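import Mathlib

/-! The divisor of a regular function on a Weierstrass curve has sum zero. -/

open WeierstrassCurve WeierstrassCurve.Affine WeierstrassCurve.Affine.CoordinateRing Polynomial
open scoped nonZeroDivisors

noncomputable section

namespace Pool.Agent.Lib.MP_d6ddbd_nt.GF

variable {W : WeierstrassCurve.Affine ℂ}

/-- The ideal of a point. -/
def mI : W.Point → Ideal W.CoordinateRing
  | .zero => ⊤
  | .some x y _ => XYIdeal W x (C y)

theorem exists_point (hW : ∀ x y, W.Equation x y → W.Nonsingular x y)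
    {I : Ideal W.CoordinateRing} (hI : I ≠ ⊤) :
    ∃ x y, W.Nonsingular x y ∧ I ≤ XYIdeal W x (C y) ∧ XYIdeal W x (C y) ≠ ⊤ := by
  obtain ⟨M, hM, hle⟩ := Ideal.exists_le_maximal I hI
  let _i := Ideal.Quotient.field M
  have : Algebra.FiniteType ℂ W.CoordinateRing :=
    Algebra.FiniteType.trans (S := ℂ[X]) inferInstance inferInstance
  have : Module.Finite ℂ (W.CoordinateRing ⧸ M) := finite_of_finite_type_of_isJacobsonRing _ _
  have hs := (IsAlgClosed.algebraMap_bijective_of_isIntegral (k := ℂ)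
    (K := W.CoordinateRing ⧸ M)).2
  obtain ⟨x, hx⟩ := hs (Ideal.Quotient.mk M (mk W (C X)))
  obtain ⟨y, hy⟩ := hs (Ideal.Quotient.mk M (mk W X))
  have hc : ∀ a : ℂ, Ideal.Quotient.mk M (mk W (C (C a))) = algebraMap ℂ _ a := fun _ => rfl
  have h1 : XYIdeal W x (C y) ≤ M := by
    rw [XYIdeal, Ideal.span_le, Set.insert_subset_iff, Set.singleton_subset_iff]
    constructor <;> rw [SetLike.mem_coe, ← Ideal.Quotient.eq_zero_iff_mem]
    · rw [XClass, map_sub, map_sub, map_sub, ← hx, hc, sub_self]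
    · rw [YClass, map_sub, map_sub, ← hy, hc, sub_self]
  have h2 : W.Equation x y := by
    rw [equation_iff']
    apply (algebraMap ℂ (W.CoordinateRing ⧸ M)).injective
    have h5 : CoordinateRing.mk W (X ^ 2 + C (C W.a₁ * X + C W.a₃) * X -
        C (X ^ 3 + C W.a₂ * X ^ 2 + C W.a₄ * X + C W.a₆)) = 0 := AdjoinRoot.mk_self
    have := congrArg (Ideal.Quotient.mk M) h5
    simp only [map_add, map_sub, map_mul, map_pow, map_zero, hc, ← hx, ← hy] at this ⊢
    linear_combination this
  have h3 : (XYIdeal W x (C y)).IsMaximal := Ideal.Quotient.maximal_of_isField _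
    ((quotientXYIdealEquiv (W' := W) (x := x) (y := C y) (by
      have h4 : W.polynomial.evalEval x y = 0 := h2
      rwa [evalEval] at h4)).toMulEquiv.isField
      (Field.toIsField ℂ))
  exact ⟨x, y, hW x y h2, hle.trans (h3.eq_of_le hM.ne_top h1).ge, h3.ne_top⟩

theorem exists_fac (hW : ∀ x y, W.Equation x y → W.Nonsingular x y)
    (I : Ideal W.CoordinateRing) : I ≠ ⊥ → ∃ D : Multiset W.Point, I = (D.map mI).prod := by
  induction I using WellFoundedGT.induction with
  | ind I ih =>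
  intro h0
  by_cases hI : I = ⊤
  · exact ⟨0, by simp [hI]⟩
  obtain ⟨x, y, h, hle, hne⟩ := exists_point hW hI
  have e := XYIdeal_neg_mul h
  obtain ⟨J, hJ⟩ : ∃ J, XYIdeal W x (C (W.negY x y)) * I = XIdeal W x * J := by
    have hl : XYIdeal W x (C (W.negY x y)) * I ≤ XIdeal W x := e ▸ Ideal.mul_mono_right hle
    refine ⟨Submodule.comap (LinearMap.mulLeft _ (XClass W x)) (XYIdeal W x (C (W.negY x y)) * I),
      (Ideal.eq_span_singleton_mul _ _).2 ⟨fun z hz => ?_, fun z hz => hz⟩⟩
    obtain ⟨a, rfl⟩ := Ideal.mem_span_singleton.1 (hl hz)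
    exact ⟨a, hz, rfl⟩
  have e2 : I = XYIdeal W x (C y) * J := by
    apply Ideal.span_singleton_mul_right_injective (XClass_ne_zero (W' := W) x)
    change XIdeal W x * I = XIdeal W x * _
    rw [mul_left_comm, ← hJ, ← e]; ring
  have h1 : I ≤ J := e2 ▸ Ideal.mul_le_right
  have h2 : I ≠ J := by
    rintro rfl
    obtain ⟨r, r1, r2⟩ := Submodule.exists_sub_one_mem_and_smul_eq_zero_of_fg_of_le_smul
      (XYIdeal W x (C y)) I (IsNoetherian.noetherian I) e2.le
    have hr : r ≠ 0 := by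
      rintro rfl
      exact hne ((Ideal.eq_top_iff_one _).2 (by simpa using r1))
    exact h0 ((Submodule.eq_bot_iff _).2 fun n hn => (mul_eq_zero.1 (r2 n hn)).resolve_left hr)
  obtain ⟨D, hD⟩ := ih J (lt_of_le_of_ne h1 h2) fun e => h0 (le_bot_iff.1 (e ▸ h1))
  exact ⟨.some x y h ::ₘ D, by rw [Multiset.map_cons, Multiset.prod_cons, ← hD]; exact e2⟩

theorem exists_unit (D : Multiset W.Point) :
    ∃ U : (FractionalIdeal W.CoordinateRing⁰ W.FunctionField)ˣ,
      (U : FractionalIdeal W.CoordinateRing⁰ W.FunctionField) = ((D.map mI).prod : Ideal _) ∧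
      Point.toClass D.sum = Additive.ofMul (ClassGroup.mk W.FunctionField U) := by
  induction D using Multiset.induction_on with
  | empty => exact ⟨1, by simp, by simp⟩
  | cons P D ih =>
    obtain ⟨U, h1, h2⟩ := ih
    rw [Multiset.map_cons, Multiset.prod_cons, Multiset.sum_cons, map_add, h2]
    rcases P with _ | ⟨x, y, h⟩
    · exact ⟨U, by simp [mI, h1], zero_add _⟩
    · refine ⟨XYIdeal' (W := W) h * U, ?_, ?_⟩
      · rw [Units.val_mul, FractionalIdeal.coeIdeal_mul, h1]; rfl
      · rw [map_mul, ofMul_mul]; rfl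

theorem exists_div (hW : ∀ x y, W.Equation x y → W.Nonsingular x y) {u : W.CoordinateRing}
    (hu : u ≠ 0) : ∃ D : Multiset W.Point, D.sum = 0 ∧ Ideal.span {u} = (D.map mI).prod := by
  obtain ⟨D, hD⟩ := exists_fac hW (Ideal.span {u}) (by simpa using hu)
  obtain ⟨U, h1, h2⟩ := exists_unit D
  refine ⟨D, (Point.toClass_eq_zero _).1 ?_, hD⟩
  rw [h2, (ClassGroup.mk_eq_one_of_coe_ideal h1).2 ⟨u, hu, hD.symm⟩]
  rfl

end Pool.Agent.Lib.MP_d6ddbd_nt.GF
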