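import Pool.Agent.Lib.MP_d6ddbd_nt.GF.Surj
import Pool.Agent.Lib.MP_d6ddbd_nt.GF.Div

/-! Abel's theorem for `X₀(17)`. -/

open UpperHalfPlane Filter Topology Polynomial
open WeierstrassCurve WeierstrassCurve.Affine WeierstrassCurve.Affine.CoordinateRing
open scoped MatrixGroups
open Pool.Agent.Lib.MP_9177b7_ag.CM (jH)
open Pool.Agent.Lib.MP_d6ddbd_nt.K

noncomputable section

namespace Pool.Agent.Lib.MP_d6ddbd_nt.GF

variable {X Y t : ℍ → ℂ}

/-- The curve. -/
abbrev W0 : WeierstrassCurve.Affine ℂ := ⟨0, 30, 0, 289, 0⟩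

theorem W0_eq (x y : ℂ) : W0.Equation x y ↔ y ^ 2 = x * (x ^ 2 + 30 * x + 289) := by
  rw [equation_iff]
  constructor <;> intro h <;> linear_combination h

theorem W0_ns (x y : ℂ) (h : W0.Equation x y) : W0.Nonsingular x y := by
  refine (equation_iff_nonsingular_of_Δ_ne_zero ?_).1 h
  simp [Δ, b₂, b₄, b₆, b₈]
  norm_num

/-- Regular functions on the curve as functions on the upper half plane. -/
def Mdl.ev (h : Mdl X Y t) : W0.CoordinateRing →+* (ℍ → ℂ) :=
  AdjoinRoot.lift (aeval X : ℂ[X] →ₐ[ℂ] (ℍ → ℂ)).toRingHom Y (by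
    funext z
    simp [WeierstrassCurve.Affine.polynomial, eval₂_add, eval₂_sub, eval₂_pow]
    linear_combination h.eqn z)

theorem Mdl.ev_apply (h : Mdl X Y t) (P Q : ℂ[X]) (z : ℍ) :
    h.ev (P • (1 : W0.CoordinateRing) + Q • CoordinateRing.mk W0 Polynomial.X) z =
      P.eval (X z) + Q.eval (X z) * Y z := by
  simp [CoordinateRing.smul, Mdl.ev]

theorem hol_eval (hX : Hol X) (P : ℂ[X]) : Hol fun z => P.eval (X z) := by
  induction P using Polynomial.induction_on' with
  | add p q hp hq => simpa using hp.add hq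
  | monomial n a => simpa using (hol_const a).mul (hX.pow n)

theorem Mdl.hol_ev (h : Mdl X Y t) (u : W0.CoordinateRing) : Hol (h.ev u) := by
  obtain ⟨P, Q, rfl⟩ := exists_smul_basis_eq u
  rw [funext (h.ev_apply P Q)]
  exact (hol_eval h.mX.hol P).add ((hol_eval h.mX.hol Q).mul h.mY.hol)

/-- The order of a regular function at a point of the upper half plane. -/
def Mdl.o (h : Mdl X Y t) (z : ℍ) (u : W0.CoordinateRing) : ℕ∞ :=
  analyticOrderAt (h.ev u ∘ ofComplex) (z : ℂ)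

theorem Mdl.o_mul (h : Mdl X Y t) (z : ℍ) (u v : W0.CoordinateRing) :
    h.o z (u * v) = h.o z u + h.o z v := by
  rw [Mdl.o, map_mul]
  exact analyticOrderAt_mul ((h.hol_ev u).analyticAt z) ((h.hol_ev v).analyticAt z)

theorem Mdl.o_add (h : Mdl X Y t) (z : ℍ) (u v : W0.CoordinateRing) :
    min (h.o z u) (h.o z v) ≤ h.o z (u + v) := by
  rw [Mdl.o, Mdl.o, Mdl.o, map_add]
  exact le_analyticOrderAt_add

theorem Mdl.o_eq_zero (h : Mdl X Y t) (z : ℍ) (u : W0.CoordinateRing) :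
    h.o z u = 0 ↔ h.ev u z ≠ 0 := by
  rw [Mdl.o, analyticOrderAt_eq_zero]
  simp [(h.hol_ev u).analyticAt z]

/-- `k` is the least order of an element of `I`. -/
def Mdl.V (h : Mdl X Y t) (z : ℍ) (I : Ideal W0.CoordinateRing) (k : ℕ∞) : Prop :=
  (∀ u ∈ I, k ≤ h.o z u) ∧ ∃ u ∈ I, h.o z u = k

theorem Mdl.V_mul (h : Mdl X Y t) {z : ℍ} {I J : Ideal W0.CoordinateRing} {k l : ℕ∞}
    (h1 : h.V z I k) (h2 : h.V z J l) : h.V z (I * J) (k + l) := by
  obtain ⟨u, u1, u2⟩ := h1.2
  obtain ⟨v, v1, v2⟩ := h2.2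
  refine ⟨fun w hw => ?_, u * v, Ideal.mul_mem_mul u1 v1, by rw [h.o_mul, u2, v2]⟩
  refine Submodule.mul_induction_on hw (fun a ha b hb => ?_) fun a b ha hb => ?_
  · rw [h.o_mul]; exact add_le_add (h1.1 a ha) (h2.1 b hb)
  · exact (le_min ha hb).trans (h.o_add z a b)

theorem Mdl.V_pair (h : Mdl X Y t) (z : ℍ) (a b : W0.CoordinateRing) :
    h.V z (Ideal.span {a, b}) (min (h.o z a) (h.o z b)) := by
  constructor
  · intro u hu
    obtain ⟨r, s, rfl⟩ := Ideal.mem_span_pair.1 hu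
    refine le_trans (min_le_min ?_ ?_) (h.o_add z _ _) <;> rw [h.o_mul] <;> exact le_add_self
  · rcases min_choice (h.o z a) (h.o z b) with e | e <;> rw [e]
    · exact ⟨a, Ideal.subset_span (by simp), rfl⟩
    · exact ⟨b, Ideal.subset_span (by simp), rfl⟩

theorem Mdl.ev_X (h : Mdl X Y t) (x : ℂ) (z : ℍ) : h.ev (XClass W0 x) z = X z - x := by
  simp [XClass, Mdl.ev]

theorem Mdl.ev_Y (h : Mdl X Y t) (y : ℂ) (z : ℍ) : h.ev (YClass W0 (C y)) z = Y z - y := by
  simp [YClass, Mdl.ev]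

/-- The ramification index. -/
def Mdl.e (h : Mdl X Y t) (z : ℍ) : ℕ∞ :=
  min (h.o z (XClass W0 (X z))) (h.o z (YClass W0 (C (Y z))))

theorem Mdl.e_spec (h : Mdl X Y t) (z : ℍ) : ∃ e : ℕ, e ≠ 0 ∧ h.e z = e := by
  have h1 : h.e z ≠ ⊤ := by
    refine ne_top_of_le_ne_top ((h.hol_ev _).order_ne_top (fun e => ?_) z) (min_le_left _ _)
    obtain ⟨c, c1, -, c2, -⟩ := h.qX
    refine c2 (low_of_bdd c1 (C := ‖X z‖) (fun w => ?_) (by norm_num))
    have := congrFun e w
    rw [h.ev_X, Pi.zero_apply, sub_eq_zero] at this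
    rw [this]
  obtain ⟨e, he⟩ := ENat.ne_top_iff_exists.1 h1
  refine ⟨e, ?_, he.symm⟩
  rintro rfl
  rcases min_eq_iff.1 he.symm with e | e
  · exact (h.o_eq_zero _ _).1 e.1 (by rw [h.ev_X, sub_self])
  · exact (h.o_eq_zero _ _).1 e.1 (by rw [h.ev_Y, sub_self])

open Classical in
theorem Mdl.V_prod (h : Mdl X Y t) (z : ℍ) (hz : W0.Nonsingular (X z) (Y z))
    (D : Multiset W0.Point) :
    h.V z (D.map mI).prod (D.count (.some (X z) (Y z) hz) * h.e z) := by
  have h0 : h.V z ⊤ 0 := ⟨fun _ _ => zero_le, 1, trivial, (h.o_eq_zero _ _).2 (by simp)⟩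
  induction D using Multiset.induction_on with
  | empty => simpa using h0
  | cons P D ih =>
    rw [Multiset.map_cons, Multiset.prod_cons]
    by_cases hP : .some (X z) (Y z) hz = P
    · subst hP
      rw [Multiset.count_cons_self, Nat.cast_succ, add_mul, one_mul, add_comm]
      exact h.V_mul (h.V_pair z _ _) ih
    · rw [Multiset.count_cons_of_ne hP, ← zero_add (_ * h.e z)]
      refine h.V_mul ?_ ih
      rcases P with _ | ⟨x, y, hxy⟩
      · exact h0
      · have := h.V_pair z (XClass W0 x) (YClass W0 (C y))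
        rwa [show min (h.o z (XClass W0 x)) (h.o z (YClass W0 (C y))) = 0 from ?_] at this
        by_cases hx : X z = x
        · rw [(h.o_eq_zero z (YClass W0 (C y))).2, min_zero]
          rw [h.ev_Y, sub_ne_zero]
          rintro rfl
          subst hx
          exact hP rfl
        · rw [(h.o_eq_zero z (XClass W0 x)).2, zero_min]
          rwa [h.ev_X, sub_ne_zero]

open Classical in
theorem Mdl.div (h : Mdl X Y t) {f : ℍ → ℂ} (hf : MF G0 f) (h0 : ∃ z, f z ≠ 0) :
    ∃ D : Multiset W0.Point, D.sum = 0 ∧ ∀ (z : ℍ) (hz : W0.Nonsingular (X z) (Y z)),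
      (ord f z : ℕ∞) = D.count (.some (X z) (Y z) hz) * h.e z := by
  obtain ⟨k, P, Q, e⟩ := (ff h).1 f hf
  have e' : h.ev (P • (1 : W0.CoordinateRing) + Q • CoordinateRing.mk W0 Polynomial.X) = fun z => f z * t z ^ k :=
    funext fun z => (h.ev_apply P Q z).trans (e z).symm
  generalize P • (1 : W0.CoordinateRing) + Q • CoordinateRing.mk W0 Polynomial.X = u at e'
  obtain ⟨w, hw⟩ := h0
  have hu : u ≠ 0 := by
    rintro rfl
    have := congrFun e' w
    rw [map_zero] at this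
    exact mul_ne_zero hw (pow_ne_zero _ (h.ne w)) this.symm
  obtain ⟨D, h1, h2⟩ := exists_div W0_ns hu
  refine ⟨D, h1, fun z hz => ?_⟩
  have v1 := h.V_prod z hz D
  have v2 := h.V_pair z u u
  rw [Set.pair_eq_singleton, min_self] at v2
  rw [← h2] at v1
  have e1 : h.o z u = D.count (.some (X z) (Y z) hz) * h.e z := by
    obtain ⟨a, a1, a2⟩ := v1.2
    exact le_antisymm (a2 ▸ v2.1 a a1) (v1.1 u (Ideal.mem_span_singleton_self u))
  have hf0 : f ≠ 0 := fun e => hw (by rw [e]; rfl)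
  rw [← e1, Mdl.o, e', ord, Nat.cast_analyticOrderNatAt (hf.hol.order_ne_top hf0 z)]
  have e2 := analyticOrderAt_mul (hf.hol.analyticAt z) ((h.mt.hol.pow k).analyticAt z)
  rw [(analyticOrderAt_eq_zero (f := (fun τ => t τ ^ k) ∘ ofComplex)).2
    (Or.inr (by simpa using fun e => absurd e (h.ne z))), add_zero] at e2
  exact e2.symm

theorem four_T (h : W0.Nonsingular 17 136) : IsOfFinAddOrder (Point.some 17 136 h) := by
  have h0 : W0.Nonsingular 0 0 := W0_ns _ _ ((W0_eq _ _).2 (by simp))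
  have hy : (136 : ℂ) ≠ W0.negY 17 136 := by simp [negY]; norm_num
  have e : Point.some 17 136 h + Point.some 17 136 h = Point.some 0 0 h0 := by
    rw [Point.add_self_of_Y_ne hy]
    congr 1
    · rw [slope_of_Y_ne rfl hy]; simp [addX, negY]; norm_num
    · rw [slope_of_Y_ne rfl hy]; simp [addY, negAddY, addX, negY]; norm_num
  refine isOfFinAddOrder_iff_nsmul_eq_zero.2 ⟨2 + 2, by norm_num, ?_⟩
  rw [add_nsmul, two_nsmul, e]
  exact Point.add_self_of_Y_eq (by simp [negY])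

theorem abel (h : Mdl X Y t) (hi : InjStmt X Y) (hj : JStmt) : AbelStmt X Y := by
  classical
  rintro W rfl φ hφ f₁ f₂ D m₁ m₂ n₁ n₂ hD hDj
  obtain ⟨D₁, s₁, o₁⟩ := h.div m₁ n₁
  obtain ⟨D₂, s₂, o₂⟩ := h.div m₂ n₂
  let n : W0.Point → ℤ := fun P => (D₁.count P : ℤ) - D₂.count P
  have key : ∀ z, D z = n (φ z) := by
    intro z
    obtain ⟨hz, e⟩ := hφ z
    obtain ⟨k, k0, hk⟩ := h.e_spec z
    have a₁ := o₁ z hz
    have a₂ := o₂ z hz
    rw [hk, ← e] at a₁ a₂
    have b₁ : ord f₁ z = D₁.count (φ z) * k := by exact_mod_cast a₁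
    have b₂ : ord f₂ z = D₂.count (φ z) * k := by exact_mod_cast a₂
    have e1 : D z = n (φ z) * k := by rw [← hD z, b₁, b₂]; push_cast; ring
    by_cases h0 : D z = 0
    · rw [h0] at e1 ⊢
      exact ((mul_eq_zero.1 e1.symm).resolve_right (by exact_mod_cast k0)).symm
    · have j1 := hj.2 z (hDj z h0).1 (hDj z h0).2
      obtain ⟨D₃, -, o₃⟩ := h.div (f := fun w => jH w - jH z)
        (by simpa [sub_eq_add_neg] using hj.1.add (MF.const _ (-jH z))) (by
          by_contra hh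
          rw [not_exists] at hh
          have : (fun w => jH w - jH z) = fun _ => 0 := funext fun w => not_not.1 (hh w)
          rw [this, ord, analyticOrderNatAt, (analyticOrderAt_eq_top).2 (by simp)] at j1
          simp at j1)
      have a₃ := o₃ z hz
      rw [hk, j1] at a₃
      have b₃ : 1 = D₃.count (.some (X z) (Y z) hz) * k := by exact_mod_cast a₃
      rw [e1, Nat.eq_one_of_mul_eq_one_left b₃.symm]
      simp
  have hT : W0.Nonsingular 17 136 := W0_ns _ _ ((W0_eq _ _).2 (by norm_num))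
  let S : Finset W0.Point := insert (.some 17 136 hT) (D₁.toFinset ∪ D₂.toFinset)
  have hS : ∀ P, n P ≠ 0 → P ∈ S := fun P hP => by
    by_contra hh
    simp only [S, Finset.mem_insert, Finset.mem_union, Multiset.mem_toFinset, not_or] at hh
    exact hP (by simp [n, Multiset.count_eq_zero_of_notMem, hh.2.1, hh.2.2])
  have hinj : Set.InjOn (fun c : Orb => φ c.out) {c | D c.out ≠ 0} := by
    intro c hc c' _ e
    obtain ⟨h1, e1⟩ := hφ c.out
    obtain ⟨h2, e2⟩ := hφ c'.out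
    simp only [e1, e2, Point.some.injEq] at e
    obtain ⟨γ, hγ, e'⟩ := hi c.out c'.out (hDj _ hc).1 (hDj _ hc).2 e.1.symm e.2.symm
    rw [← c.out_eq, ← c'.out_eq]
    exact (Quotient.sound (s := MulAction.orbitRel G0 ℍ) ⟨⟨γ, hγ⟩, e'.symm⟩).symm
  have hfin : Fin0 D := Set.Finite.of_injOn (t := (S : Set W0.Point))
    (fun c hc => hS _ (by rwa [← key])) hinj S.finite_toSet
  refine ⟨hfin, ?_⟩
  have e1 : ∑ P ∈ S, n P • P = 0 := by
    simp only [n, sub_smul, natCast_zsmul, Finset.sum_sub_distrib]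
    rw [← Finset.sum_multiset_count_of_subset D₁ S fun P hP => by simp [S, Multiset.mem_toFinset.1 hP],
      ← Finset.sum_multiset_count_of_subset D₂ S fun P hP => by simp [S, Multiset.mem_toFinset.1 hP],
      s₁, s₂, sub_zero]
  have e2 : ∑ᶠ c : Orb, D c.out • φ c.out = ∑ P ∈ S.erase (.some 17 136 hT), n P • P := by
    rw [finsum_eq_sum_of_support_subset (s := hfin.toFinset) _ fun c hc => by
      simpa using fun e => hc (by simp [e])]
    refine Finset.sum_bij_ne_zero (fun c _ _ => φ c.out) (fun c hc _ => ?_)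
      (fun c hc _ c' hc' _ e => hinj (hfin.mem_toFinset.1 hc) (hfin.mem_toFinset.1 hc') e)
      (fun P hP hP0 => ?_) fun c _ _ => by rw [key]
    · refine Finset.mem_erase.2 ⟨fun e => ?_, hS _ (by rw [← key]; exact hfin.mem_toFinset.1 hc)⟩
      obtain ⟨h1, e1⟩ := hφ c.out
      rw [e1, Point.some.injEq] at e
      exact (surj h).2 _ e
    · rcases P with _ | ⟨x, y, hxy⟩
      · exact absurd (zsmul_zero _) hP0
      · obtain ⟨z, rfl, rfl⟩ := (surj h).1 x y ((W0_eq _ _).1 hxy.1) fun e =>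
          (Finset.mem_erase.1 hP).1 (by rw [Point.some.injEq]; exact e)
        let c : Orb := Quotient.mk _ z
        obtain ⟨γ, hγ⟩ : (MulAction.orbitRel G0 ℍ) c.out z := Quotient.mk_out (s := MulAction.orbitRel G0 ℍ) z
        have e : φ c.out = .some (X z) (Y z) hxy := by
          obtain ⟨h1, e1⟩ := hφ c.out
          rw [e1, Point.some.injEq, ← hγ]
          exact ⟨h.mX.inv _ γ.2 z, h.mY.inv _ γ.2 z⟩
        refine ⟨c, hfin.mem_toFinset.2 fun e0 => hP0 ?_, by rwa [key, e], e⟩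
        rw [key, e] at e0
        rw [e0, zero_zsmul]
  rw [e2]
  rw [← Finset.add_sum_erase S _ (Finset.mem_insert_self _ _), add_eq_zero_iff_neg_eq] at e1
  rw [← e1]
  exact ((four_T hT).zsmul).neg

end Pool.Agent.Lib.MP_d6ddbd_nt.GF
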