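import Pool.Agent.Lib.MP_d6ddbd_nt.GF.AStmt
import Pool.Agent.Lib.MP_d6ddbd_nt.K.QE

/-! The function field of `X₀(17)`. -/

open UpperHalfPlane Filter Topology Polynomial
open scoped MatrixGroups
open Pool.Agent.Lib.MP_d6ddbd_nt.K
open Pool.Agent.Lib.MP_d6ddbd_nt.X (ww up)

noncomputable section

namespace Pool.Agent.Lib.MP_d6ddbd_nt.GF

variable {X Y t f g : ℍ → ℂ} {c d : LaurentSeries ℂ}

/-- Modular functions that are regular at the cusp `0`. -/
def A0 (f : ℍ → ℂ) : Prop := MF G0 f ∧ IsBoundedAtImInfty fun z => f (ww z)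

theorem A0.add (h : A0 f) (h' : A0 g) : A0 fun z => f z + g z :=
  ⟨h.1.add h'.1, BoundedAtFilter.add h.2 h'.2⟩

theorem A0.mul (h : A0 f) (h' : A0 g) : A0 fun z => f z * g z :=
  ⟨h.1.mul h'.1, BoundedAtFilter.mul h.2 h'.2⟩

theorem a0_const (a : ℂ) : A0 fun _ => a := ⟨MF.const _ a, const_boundedAtFilter _ a⟩

theorem A0.pow (h : A0 f) (k : ℕ) : A0 fun z => f z ^ k := by
  induction k with
  | zero => simpa using a0_const 1
  | succ k ih => simpa [pow_succ] using ih.mul h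

theorem A0.sub_smul (h : A0 f) (h' : A0 g) (a : ℂ) : A0 fun z => f z - a * g z := by
  simpa [sub_eq_add_neg] using h.add ((a0_const (-a)).mul h')

theorem Mdl.aX (h : Mdl X Y t) : A0 X := ⟨h.mX, h.wX.isBigO_one ℝ⟩

theorem Mdl.aY (h : Mdl X Y t) : A0 Y := ⟨h.mY, h.wY.isBigO_one ℝ⟩

theorem T_mem : ModularGroup.T ∈ G0 := by
  simp [CongruenceSubgroup.Gamma0_mem, ModularGroup.T]

theorem mf_qe (h : MF G0 f) : ∃ c, QE 1 f c := by
  refine exists_qe one_pos h.hol (fun τ => ?_) (by simpa using h.gro 1)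
  rw [← h.inv _ T_mem τ, modular_T_smul, Nat.cast_one]

theorem bdd_of_low (h : QE 1 f c) (hl : ∀ N < 0, c.coeff N = 0) : IsBoundedAtImInfty f := by
  obtain ⟨C, hC⟩ := h.bound one_pos hl one_pos
  exact isBoundedAtImInfty_iff.2 ⟨C, 1, fun z hz => by simpa using hC z hz⟩

theorem low_of_bdd (h : QE 1 f c) {C : ℝ} (hb : ∀ z, ‖f z‖ ≤ C) {N : ℤ} (hN : N < 0) :
    c.coeff N = 0 :=
  h.low one_pos (C := C) (K := 0) (Y := 0) (fun z _ => by simpa using hb z) (by exact_mod_cast hN)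

theorem exists_low (c : LaurentSeries ℂ) : ∃ n : ℕ, ∀ N < -(n : ℤ), c.coeff N = 0 :=
  ⟨c.order.natAbs, fun N hN => HahnSeries.coeff_eq_zero_of_lt_order (by omega)⟩

theorem step {n : ℕ} {u : ℂ} (hl : ∀ N < -((n + 1 : ℕ) : ℤ), c.coeff N = 0)
    (hd : Lead d (-((n + 1 : ℕ) : ℤ)) u) (hu : u ≠ 0) :
    ∀ N < -(n : ℤ), (c - (c.coeff (-((n + 1 : ℕ) : ℤ)) / u) • d).coeff N = 0 := by
  intro N hN
  rw [HahnSeries.coeff_sub, HahnSeries.coeff_smul, smul_eq_mul]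
  rcases (show N < -((n + 1 : ℕ) : ℤ) ∨ N = -((n + 1 : ℕ) : ℤ) by omega) with h | rfl
  · rw [hl N h, hd.1 N h, mul_zero, sub_zero]
  · rw [hd.2, div_mul_cancel₀ _ hu, sub_self]

theorem Mdl.const (h : Mdl X Y t) (hf : A0 f) (hc : QE 1 f c) (hl : ∀ N < 0, c.coeff N = 0)
    (z : ℍ) : f z = c.coeff 0 := by
  obtain ⟨a, ha⟩ := h.liou f hf.1 (bdd_of_low hc hl) hf.2
  obtain rfl : f = fun _ => a := funext ha
  rw [hc.unique one_pos (qe_const a)]
  simp

theorem cusp_poly {P Q : ℂ[X]} (h : Q ^ 2 = P * (P ^ 2 + 30 * P + 289)) : P.natDegree = 0 := by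
  have h1 := congrArg derivative h
  simp only [derivative_mul, derivative_add, derivative_ofNat, pow_two,
    zero_mul, zero_add, add_zero] at h1
  have hc : IsCoprime Q (3 * P ^ 2 + 60 * P + 289) := by
    have h0 : (C (10690688 : ℂ)⁻¹ : ℂ[X]) * 10690688 = 1 := by
      rw [← map_ofNat C, ← C_mul, inv_mul_cancel₀ (by norm_num), C_1]
    refine ⟨C (10690688 : ℂ)⁻¹ * (-11025 + 99 * P) * Q,
      C (10690688 : ℂ)⁻¹ * (36992 + 3345 * P - 33 * P ^ 2), ?_⟩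
    linear_combination (C (10690688 : ℂ)⁻¹ * (-11025 + 99 * P)) * h + h0
  have hd : Q ∣ derivative P := hc.dvd_of_dvd_mul_left ⟨2 * derivative Q, by linear_combination -h1⟩
  by_contra hP
  have hP' : derivative P ≠ 0 := fun e => hP (derivative_eq_zero.1 e)
  have d1 := natDegree_le_of_dvd hd hP'
  have d2 := natDegree_derivative_lt hP
  have d3 : (P * (P ^ 2 + 30 * P + 289)).natDegree = 3 * P.natDegree := by
    have e : P * (P ^ 2 + 30 * P + 289) =
        (Polynomial.X ^ 3 + 30 * Polynomial.X ^ 2 + 289 * Polynomial.X : ℂ[X]).comp P := by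
      simp; ring
    rw [e, natDegree_comp]
    congr 1
    compute_degree!
  rw [← h, natDegree_pow] at d3
  omega

theorem Mdl.gap (h : Mdl X Y t) (hg : A0 g) (hd : QE 1 g d) (hl : ∀ N < -1, d.coeff N = 0) :
    d.coeff (-1) = 0 := by
  by_contra he
  have hL : Lead d (-1) (d.coeff (-1)) := ⟨hl, rfl⟩
  have key : ∀ (n : ℕ) (f : ℍ → ℂ) (c : LaurentSeries ℂ), A0 f → QE 1 f c →
      (∀ N < -(n : ℤ), c.coeff N = 0) → ∃ P : ℂ[X], ∀ z, f z = P.eval (g z) := by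
    intro n
    induction n with
    | zero => exact fun f c hf hc hl => ⟨C (c.coeff 0), fun z => by
        rw [eval_C]; exact h.const hf hc (by simpa using hl) z⟩
    | succ n ih =>
      intro f c hf hc hl
      have hp := hL.pow (n + 1)
      rw [mul_neg_one] at hp
      obtain ⟨P, hP⟩ := ih _ _ (hf.sub_smul (hg.pow (n + 1)) _) (hc.sub ((hd.pow (n + 1)).smul _))
        (step hl hp (pow_ne_zero _ he))
      refine ⟨P + C (c.coeff (-((n + 1 : ℕ) : ℤ)) / d.coeff (-1) ^ (n + 1)) *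
        Polynomial.X ^ (n + 1), fun z => ?_⟩
      rw [eval_add, ← hP z, eval_mul, eval_C, eval_pow, eval_X, sub_add_cancel]
  obtain ⟨cX, x1, -, x2, x3⟩ := h.qX
  obtain ⟨cY, y1, -, -, y3⟩ := h.qY
  obtain ⟨P, hP⟩ := key 2 X cX h.aX x1 x3
  obtain ⟨Q, hQ⟩ := key 3 Y cY h.aY y1 y3
  have hR : Q ^ 2 - P * (P ^ 2 + 30 * P + 289) = 0 := by
    by_contra hne
    obtain ⟨B, hB⟩ := ((Q ^ 2 - P * (P ^ 2 + 30 * P + 289)).roots.toFinset.finite_toSet.image
      norm).bddAbove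
    refine he (low_of_bdd hd (C := B) (fun z => hB ⟨g z, ?_, rfl⟩) (by norm_num))
    rw [Finset.mem_coe, Multiset.mem_toFinset, mem_roots hne, IsRoot.def]
    have := h.eqn z
    rw [hP, hQ] at this
    simpa [sub_eq_zero] using this
  obtain ⟨a, rfl⟩ := natDegree_eq_zero.1 (cusp_poly (sub_eq_zero.1 hR))
  exact x2 (low_of_bdd x1 (C := ‖a‖) (fun z => by rw [hP, eval_C]) (by norm_num))

theorem Mdl.span (h : Mdl X Y t) {k : Type} [Field k] [Algebra k ℂ] (G : LaurentSeries ℂ → Prop)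
    (g1 : ∀ c, G c → ∀ N, ∃ r : k, c.coeff N = algebraMap k ℂ r)
    (g2 : ∀ c d, G c → G d → G (c - d)) (g3 : ∀ c d, G c → G d → G (c * d))
    (g4 : ∀ c (r : k), G c → G (algebraMap k ℂ r • c)) (g5 : ∀ c n, G c → G (c ^ n))
    (g6 : ∀ c, RatS c → G c) (n : ℕ) : ∀ (f : ℍ → ℂ) (c : LaurentSeries ℂ), A0 f → QE 1 f c → G c →
      (∀ N < -(n : ℤ), c.coeff N = 0) →
      ∃ P Q : k[X], ∀ z, f z = aeval (X z) P + aeval (X z) Q * Y z := by
  obtain ⟨cX, x1, x0, x2, x3⟩ := h.qX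
  obtain ⟨cY, y1, y0, y2, y3⟩ := h.qY
  have lX : Lead cX (-2) (cX.coeff (-2)) := ⟨x3, rfl⟩
  have lY : Lead cY (-3) (cY.coeff (-3)) := ⟨y3, rfl⟩
  induction n with
  | zero =>
    intro f c hf hc hG hl
    obtain ⟨r, hr⟩ := g1 c hG 0
    exact ⟨C r, 0, fun z => by rw [h.const hf hc (by simpa using hl) z, hr]; simp⟩
  | succ n ih =>
    intro f c hf hc hG hl
    have gen : ∀ (m : ℍ → ℂ) (d : LaurentSeries ℂ) (u : ℂ) (A B : k[X]), A0 m → QE 1 m d → G d →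
        Lead d (-((n + 1 : ℕ) : ℤ)) u → u ≠ 0 →
        (∀ z, m z = aeval (X z) A + aeval (X z) B * Y z) →
        ∃ P Q : k[X], ∀ z, f z = aeval (X z) P + aeval (X z) Q * Y z := by
      intro m d u A B hm hd hGd hL hu hAB
      obtain ⟨r, hr⟩ := g1 c hG (-((n + 1 : ℕ) : ℤ))
      obtain ⟨s, hs⟩ := g1 d hGd (-((n + 1 : ℕ) : ℤ))
      have e : c.coeff (-((n + 1 : ℕ) : ℤ)) / u = algebraMap k ℂ (r / s) := by
        rw [map_div₀, ← hr, ← hs, hL.2]
      have st := step hl hL hu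
      rw [e] at st
      obtain ⟨P, Q, hPQ⟩ := ih _ _ (hf.sub_smul hm _) (hc.sub (hd.smul _))
        (g2 _ _ hG (g4 _ _ hGd)) st
      refine ⟨P + C (r / s) * A, Q + C (r / s) * B, fun z => ?_⟩
      have := hPQ z
      rw [hAB z] at this
      simp only [map_add, map_mul, aeval_C]
      linear_combination this
    obtain rfl | ⟨i, hi⟩ | ⟨i, hi⟩ : n = 0 ∨ (∃ i, n + 1 = 2 * i) ∨ ∃ i, n + 1 = 2 * i + 3 := by
      rcases Nat.even_or_odd' n with ⟨i, rfl | rfl⟩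
      · rcases i with _ | i
        · exact Or.inl rfl
        · exact Or.inr (Or.inr ⟨i, by ring⟩)
      · exact Or.inr (Or.inl ⟨i + 1, by ring⟩)
    · refine ih f c hf hc hG fun N hN => ?_
      rcases (show N < -1 ∨ N = -1 by omega) with e | rfl
      · exact hl N e
      · exact h.gap hf hc hl
    · refine gen _ _ (cX.coeff (-2) ^ i) (Polynomial.X ^ i) 0 (h.aX.pow i) (x1.pow i)
        (g5 _ _ (g6 _ x0)) ?_ (pow_ne_zero _ x2) fun z => by simp
      rw [show -((n + 1 : ℕ) : ℤ) = i * (-2) by omega]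
      exact lX.pow i
    · refine gen _ _ (cX.coeff (-2) ^ i * cY.coeff (-3)) 0 (Polynomial.X ^ i)
        ((h.aX.pow i).mul h.aY) ((x1.pow i).mul y1) (g3 _ _ (g5 _ _ (g6 _ x0)) (g6 _ y0)) ?_
        (mul_ne_zero (pow_ne_zero _ x2) y2) fun z => by simp
      rw [show -((n + 1 : ℕ) : ℤ) = i * (-2) + -3 by omega]
      exact (lX.pow i).mul lY

theorem lower {N : ℤ} {a : ℂ} (h : QE 1 f c) (hL : Lead c N a) (ha : a ≠ 0) :
    ∃ y : ℝ, ∀ z : ℍ, y ≤ z.im → ‖a‖ / 2 * Real.exp (-(2 * Real.pi * N * z.im)) ≤ ‖f z‖ := by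
  have h1 := (h.tendsto one_pos hL.1).norm
  rw [hL.2] at h1
  obtain ⟨y, hy⟩ := (atImInfty_mem _).1
    (h1.eventually (lt_mem_nhds (half_lt_self (norm_pos_iff.2 ha))))
  refine ⟨y, fun z hz => ?_⟩
  have h2 : ‖a‖ / 2 < ‖f z * ee (-(N * (z : ℂ) / (1 : ℕ)))‖ := hy z hz
  rw [norm_mul, norm_ee] at h2
  simp only [Nat.cast_one, div_one, Complex.neg_im, Complex.mul_im, Complex.intCast_re, coe_im,
    Complex.intCast_im, zero_mul, add_zero, mul_neg, neg_neg] at h2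
  rw [Real.exp_neg, ← div_eq_mul_inv, div_le_iff₀ (Real.exp_pos _), mul_assoc (2 * Real.pi)]
  exact h2.le

theorem Mdl.qt (h : Mdl X Y t) : ∃ c a, QE 1 t c ∧ RatS c ∧ Lead c (-4) a ∧ a ≠ 0 := by
  obtain ⟨cX, x1, x0, x2, x3⟩ := h.qX
  obtain ⟨cY, y1, y0, y2, y3⟩ := h.qY
  have lX : Lead cX (-2) (cX.coeff (-2)) := ⟨x3, rfl⟩
  have l2 := lX.pow 2
  have e : t = fun z => ((1 / 16 : ℚ) : ℂ) * (X z ^ 2 + ((94 : ℚ) : ℂ) * X z + ((289 : ℚ) : ℂ) -
      ((16 : ℚ) : ℂ) * Y z) := funext fun z => by push_cast; linear_combination h.rel z / 16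
  refine ⟨_, ((1 / 16 : ℚ) : ℂ) * cX.coeff (-2) ^ 2, e ▸ ((((x1.pow 2).add (x1.smul _)).add
    (qe_const _)).sub (y1.smul _)).smul _, ((((x0.pow 2).add (x0.smul _)).add
    (rat_single _ _)).sub (y0.smul _)).smul _, ⟨fun M hM => ?_, ?_⟩,
    mul_ne_zero (by norm_num) (pow_ne_zero _ x2)⟩
  · simp only [HahnSeries.coeff_smul, HahnSeries.coeff_sub, HahnSeries.coeff_add]
    rw [l2.1 M (by omega), x3 M (by omega), y3 M (by omega),
      HahnSeries.coeff_single_of_ne (by omega)]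
    simp
  · simp only [HahnSeries.coeff_smul, HahnSeries.coeff_sub, HahnSeries.coeff_add]
    have := l2.2
    rw [show ((2 : ℕ) : ℤ) * -2 = -4 by norm_num] at this
    rw [this, x3 (-4) (by omega), y3 (-4) (by omega), HahnSeries.coeff_single_of_ne (by omega)]
    simp

theorem coe_up (z : ℍ) : (up z : ℂ) = 17 * z := by
  have hp : 0 < (((17 : ℕ) : ℂ) * z).im := by simpa using z.im_pos
  rw [up, MP_9177b7_ag.CM.up, ofComplex_apply_of_im_pos hp]
  simp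

theorem im_up (z : ℍ) : (up z).im = 17 * z.im := by
  rw [← coe_im, coe_up]; simp

theorem Mdl.clear (h : Mdl X Y t) (hf : MF G0 f) : ∃ k : ℕ, A0 fun z => f z * t z ^ k := by
  obtain ⟨C, K, hC⟩ := hf.gro ModularGroup.S
  obtain ⟨c, a, c1, -, c2, c3⟩ := h.qt
  obtain ⟨y, hy⟩ := lower c1 c2 c3
  obtain ⟨k, hk⟩ := exists_nat_ge (17 * K)
  have ha : 0 < ‖a‖ / 2 := half_pos (norm_pos_iff.2 c3)
  refine ⟨k, hf.mul (h.mt.pow k), isBoundedAtImInfty_iff.2
    ⟨|C| * (4913 / (‖a‖ / 2)) ^ k, max y 1, fun z hz => ?_⟩⟩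
  have z1 : 1 ≤ z.im := (le_max_right _ _).trans hz
  have h1 := hC (up z) (by rw [im_up]; linarith)
  have h2 := hy z ((le_max_left _ _).trans hz)
  have h3 : ‖t (ww z)‖ ≤ 4913 / (‖a‖ / 2) * Real.exp (-z.im) := by
    have e := congrArg norm (h.wt z)
    rw [norm_mul, Complex.norm_ofNat] at e
    have h4 : Real.exp z.im ≤ Real.exp (-(2 * Real.pi * ((-4 : ℤ) : ℝ) * z.im)) := by
      apply Real.exp_le_exp.2
      push_cast
      nlinarith [Real.pi_gt_three]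
    rw [Real.exp_neg, ← div_eq_mul_inv, div_div, le_div_iff₀ (by positivity), ← e]
    gcongr
    exact (mul_le_mul_of_nonneg_left h4 ha.le).trans h2
  rw [norm_mul, norm_pow]
  calc _ ≤ (|C| * Real.exp (K * (17 * z.im))) * (4913 / (‖a‖ / 2) * Real.exp (-z.im)) ^ k := by
        gcongr
        rw [im_up] at h1
        exact h1.trans (mul_le_mul_of_nonneg_right (le_abs_self C) (Real.exp_pos _).le)
    _ = |C| * (4913 / (‖a‖ / 2)) ^ k * Real.exp (K * (17 * z.im) + k * -z.im) := by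
        rw [mul_pow, ← Real.exp_nat_mul, Real.exp_add]; ring
    _ ≤ _ := by
        refine mul_le_of_le_one_right (by positivity) (Real.exp_le_one_iff.2 ?_)
        nlinarith

theorem ff (h : Mdl X Y t) : FFStmt X Y t := by
  constructor
  · intro f hf
    obtain ⟨k, hk⟩ := h.clear hf
    obtain ⟨c, hc⟩ := mf_qe hk.1
    obtain ⟨n, hn⟩ := exists_low c
    obtain ⟨P, Q, e⟩ := h.span (k := ℂ) (fun _ => True) (fun c _ N => ⟨_, rfl⟩)
      (fun _ _ _ _ => trivial) (fun _ _ _ _ => trivial) (fun _ _ _ => trivial)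
      (fun _ _ _ => trivial) (fun _ _ => trivial) n _ c hk hc trivial hn
    exact ⟨k, P, Q, fun z => by simpa using e z⟩
  · intro f c hf hc hr
    obtain ⟨k, hk⟩ := h.clear hf
    obtain ⟨d, a, d1, d2, -, -⟩ := h.qt
    obtain ⟨n, hn⟩ := exists_low (c * d ^ k)
    obtain ⟨P, Q, e⟩ := h.span (k := ℚ) RatS (fun c h N => h N) (fun _ _ => RatS.sub)
      (fun _ _ => RatS.mul) (fun _ r h => h.smul r) (fun _ n h => h.pow n) (fun _ h => h) n _ _ hk
      (hc.mul (d1.pow k)) (hr.mul (d2.pow k)) hn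
    exact ⟨k, P, Q, e⟩

end Pool.Agent.Lib.MP_d6ddbd_nt.GF
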