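import Pool.Agent.Lib.MP_d6ddbd_nt.GF.Gen
import Pool.Agent.Lib.MP_d6ddbd_nt.G.Final
import Pool.Agent.Lib.MP_d6ddbd_nt.G.Ker
import Pool.Agent.Lib.MP_d6ddbd_nt.G.Sel

/-! Genus characters of binary forms of squarefree discriminant. -/

open Finset
open Pool.Agent.Lib.MP_d6ddbd_nt.G
open Pool.Agent.Lib.MP_d6ddbd_nt.G.SelAux (sg_add sg_sum z2)
open Pool.Agent.Lib.MP_d6ddbd_nt.G.FinalAux (dsc_cases jac_cases odd_of)

noncomputable section

namespace Pool.Agent.Lib.MP_d6ddbd_nt.GF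

/-- A sign, written additively. -/
def zz (n : ℤ) : ZMod 2 := if n = -1 then 1 else 0

theorem zz_sg (x : ZMod 2) : zz (sg x) = x := by revert x; decide

theorem sg_zz {n : ℤ} (h : n = 1 ∨ n = -1) : sg (zz n) = n := by
  rcases h with rfl | rfl <;> decide

theorem zz_mul {n : ℤ} (h : n = 1 ∨ n = -1) (x : ZMod 2) : zz (n * sg x) = zz n + x := by
  revert x
  rcases h with rfl | rfl <;> decide

/-- The genus character of `[A, B, C]` at `p`. -/
def ch (p : ℕ) (A C : ℤ) : ℤ := if (p : ℤ) ∣ A then jacobiSym C p else jacobiSym A p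

theorem ch_eq (p : ℕ) [Fact p.Prime] (A C : ℤ) : ch p A C = chi p A C := by
  simp only [ch, chi, jacobiSym.legendreSym.to_jacobiSym]

variable {S : Finset ℕ} {p : ℕ} {A B C : ℤ}

theorem sqf (hS : Prs S) : Squarefree (∏ p ∈ S, p) :=
  Finset.squarefree_prod_of_pairwise_isCoprime (fun p h q h' hpq => Nat.coprime_iff_isRelPrime.1
    ((Nat.coprime_primes (hS p h).1 (hS q h').1).2 hpq)) fun p h => (hS p h).1.squarefree

theorem abs_dsc (hS : Prs S) : (dsc S).natAbs = ∏ p ∈ S, p := by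
  rcases dsc_cases (odd_of hS) with h | h
  · rw [h.2.1, Int.natAbs_natCast]
  · rw [h.2.1, Int.natAbs_neg, Int.natAbs_natCast]

theorem dvd_dsc (hS : Prs S) (hp : p ∈ S) : (p : ℤ) ∣ dsc S :=
  Int.natCast_dvd.2 (abs_dsc hS ▸ dvd_prod_of_mem _ hp)

theorem mem_of_dvd (hS : Prs S) (hp : p.Prime) (h : (p : ℤ) ∣ dsc S) : p ∈ S := by
  have h1 := Int.natCast_dvd.1 h
  rw [abs_dsc hS] at h1
  obtain ⟨q, hq, e⟩ := (Prime.dvd_finsetProd_iff hp.prime _).1 h1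
  rwa [(Nat.prime_dvd_prime_iff_eq hp (hS q hq).1).1 e]

theorem sq_ndvd (hS : Prs S) (hp : p.Prime) : ¬ (p : ℤ) * p ∣ dsc S := fun h => by
  have h1 : p * p ∣ ∏ p ∈ S, p := abs_dsc hS ▸ Int.natCast_dvd.1 (by exact_mod_cast h)
  exact hp.not_isUnit (sqf hS p h1)

theorem dsc_mod (hS : Prs S) : dsc S % 4 = 1 := by
  rcases dsc_cases (odd_of hS) with h | h <;> omega

theorem dsc_adm (hS : Adm S) : dsc S = -(∏ p ∈ S, p : ℕ) := by
  rcases dsc_cases (odd_of hS.1) with h | h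
  · exact absurd (h.1.symm.trans hS.2.1) (by decide)
  · exact h.2.1

theorem dsc_neg (hS : Adm S) : dsc S < 0 := by
  have := (sqf hS.1).ne_zero
  rw [dsc_adm hS]
  omega

theorem adm_ne (hS : Adm S) : S.Nonempty := by
  rw [nonempty_iff_ne_empty]
  rintro rfl
  exact absurd hS.2.1 (by decide)

theorem prim (hS : Prs S) (hp : p ∈ S) (hD : B ^ 2 - 4 * A * C = dsc S) (hA : (p : ℤ) ∣ A) :
    ¬ (p : ℤ) ∣ C := fun hC => by
  have h1 : (p : ℤ) ∣ B := Int.Prime.dvd_pow' (hS p hp).1 (k := 2) (by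
    rw [show B ^ 2 = dsc S + 4 * A * C by linear_combination hD]
    exact dvd_add (dvd_dsc hS hp) (hC.mul_left _))
  refine sq_ndvd hS (hS p hp).1 ?_
  rw [← hD, pow_two, mul_assoc]
  exact dvd_sub (mul_dvd_mul h1 h1) ((mul_dvd_mul hA hC).mul_left _)

theorem jac_cs (hp : p.Prime) {n : ℤ} (h : ¬ (p : ℤ) ∣ n) :
    jacobiSym n p = 1 ∨ jacobiSym n p = -1 := by
  have := Fact.mk hp
  rw [← jacobiSym.legendreSym.to_jacobiSym]
  exact legendreSym.eq_one_or_neg_one p fun e => h ((ZMod.intCast_zmod_eq_zero_iff_dvd _ p).1 e)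

theorem ch_cs (hS : Prs S) (hp : p ∈ S) (hD : B ^ 2 - 4 * A * C = dsc S) :
    ch p A C = 1 ∨ ch p A C = -1 := by
  unfold ch
  split_ifs with h
  · exact jac_cs (hS p hp).1 (prim hS hp hD h)
  · exact jac_cs (hS p hp).1 h

theorem ch_val (hS : Prs S) (hp : p ∈ S) (hD : B ^ 2 - 4 * A * C = dsc S) {x y : ℤ}
    (h : ¬ (p : ℤ) ∣ A * x ^ 2 + B * x * y + C * y ^ 2) :
    jacobiSym (A * x ^ 2 + B * x * y + C * y ^ 2) p = ch p A C := by
  have := Fact.mk (hS p hp).1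
  have h1 := jac_cs (hS p hp).1 h
  rw [ch_eq, ← jacobiSym.legendreSym.to_jacobiSym] at *
  refine (chi_val (hS p hp).2.1 (hD ▸ dvd_dsc hS hp) x y).resolve_left ?_
  omega

theorem ch_symm (hS : Prs S) (hp : p ∈ S) (hD : B ^ 2 - 4 * A * C = dsc S) :
    ch p C A = ch p A C := by
  rw [ch]
  split_ifs with h
  · rw [ch, if_neg fun e => prim hS hp hD e h]
  · simpa using ch_val hS hp hD (x := 0) (y := 1) (by simpa using h)

theorem jac_dsc (hS : Prs S) {n : ℕ} (hn : Odd n) :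
    jacobiSym (dsc S) n = ∏ p ∈ S, jacobiSym n p := by
  rw [dsc]
  induction S using Finset.induction_on with
  | empty => simp
  | insert q S hq ih =>
    rw [prod_insert hq, prod_insert hq, jacobiSym.mul_left,
      ih fun p hp => hS p (mem_insert_of_mem hp),
      KerAux.jac_ps hn (Nat.odd_iff.2 (odd_of hS q (mem_insert_self _ _)))]

theorem prod_aux (hS : Adm S) (hA : 0 < A) (hD : B ^ 2 - 4 * A * C = dsc S)
    (h2 : (2 : ℤ) ∣ C → (2 : ℤ) ∣ A) : ∏ p ∈ S, ch p A C = 1 := by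
  have hP : ∀ l ∈ insert 2 S, l.Prime := fun l hl => by
    rcases mem_insert.1 hl with rfl | h
    · exact Nat.prime_two
    · exact (hS.1 l h).1
  obtain ⟨x, hx⟩ : ∃ x : ℤ, ∀ l ∈ insert 2 S, ((l : ℤ) ∣ x ↔ ¬ (l : ℤ) ∣ C) := by
    refine ⟨(∏ l ∈ (insert 2 S).filter fun l : ℕ => ¬ (l : ℤ) ∣ C, l : ℕ), fun l hl => ?_⟩
    rw [Int.natCast_dvd_natCast, Prime.dvd_finsetProd_iff (hP l hl).prime]
    constructor
    · rintro ⟨q, hq, e⟩
      rw [(Nat.prime_dvd_prime_iff_eq (hP l hl) (hP q (mem_filter.1 hq).1)).1 e]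
      exact (mem_filter.1 hq).2
    · exact fun h => ⟨l, mem_filter.2 ⟨hl, h⟩, dvd_rfl⟩
  have hm := dsc_mod hS.1
  have hn : ∀ l ∈ insert 2 S, ¬ (l : ℤ) ∣ A * x ^ 2 + B * x * 1 + C * 1 ^ 2 := fun l hl h => by
    have hl' : Prime (l : ℤ) := Nat.prime_iff_prime_int.1 (hP l hl)
    by_cases hC : (l : ℤ) ∣ C
    · have h1 : ¬ (l : ℤ) ∣ x := fun e => (hx l hl).1 e hC
      have h3 : (l : ℤ) ∣ A * x + B := (hl'.dvd_or_dvd (a := x) ((dvd_sub h hC).trans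
        (dvd_of_eq (by ring)))).resolve_left h1
      rcases mem_insert.1 hl with rfl | hl
      · obtain ⟨k, hk⟩ := (dvd_add_right ((h2 hC).mul_right x)).1 h3
        have : dsc S = 4 * (k ^ 2 - A * C) := by rw [← hD, hk]; ring
        omega
      · have h4 : (l : ℤ) ∣ B := hl'.dvd_of_dvd_pow (n := 2) (by
          rw [show B ^ 2 = dsc S + 4 * A * C by linear_combination hD]
          exact dvd_add (dvd_dsc hS.1 hl) (hC.mul_left _))
        exact prim hS.1 hl hD ((hl'.dvd_or_dvd ((dvd_add_left h4).1 h3)).resolve_right h1) hC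
    · have h1 := (hx l hl).2 hC
      exact hC ((dvd_sub h (h1.mul_right (A * x + B))).trans (dvd_of_eq (by ring)))
  have h0 : 0 < A * x ^ 2 + B * x * 1 + C * 1 ^ 2 := by
    nlinarith [sq_nonneg (2 * A * x + B), dsc_neg hS]
  obtain ⟨n, e⟩ := Int.eq_ofNat_of_zero_le h0.le
  have ho : Odd n := by
    have := hn 2 (mem_insert_self _ _)
    rw [e] at this
    exact Nat.odd_iff.2 (by omega)
  rw [← prod_congr rfl fun p hp => ch_val hS.1 hp hD (hn p (mem_insert_of_mem hp)), e,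
    ← jac_dsc hS.1 ho]
  have e2 : (2 * A * x + B) ^ 2 = dsc S + n * (4 * A) := by rw [← e, ← hD]; ring
  rw [jacobiSym.mod_left' (a₂ := (2 * A * x + B) ^ 2) (by rw [e2, Int.add_mul_emod_self_left])]
  refine jacobiSym.sq_one' ?_
  by_contra hg
  obtain ⟨l, hl, h1⟩ := Nat.exists_prime_and_dvd hg
  have h3 : (l : ℤ) ∣ n := (Int.natCast_dvd_natCast.2 h1).trans (Int.gcd_dvd_right _ _)
  have h4 : (l : ℤ) ∣ 2 * A * x + B :=
    (Int.natCast_dvd_natCast.2 h1).trans (Int.gcd_dvd_left _ _)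
  refine hn l (mem_insert_of_mem (mem_of_dvd hS.1 hl ?_)) (e ▸ h3)
  exact (dvd_add_left (h3.mul_right _)).1 (e2 ▸ dvd_pow h4 two_ne_zero)

/-- The product of the genus characters is trivial. -/
theorem prod_ch (hS : Adm S) (hA : 0 < A) (hD : B ^ 2 - 4 * A * C = dsc S) :
    ∏ p ∈ S, ch p A C = 1 := by
  by_cases h2 : (2 : ℤ) ∣ C → (2 : ℤ) ∣ A
  · exact prod_aux hS hA hD h2
  · rw [← prod_congr rfl fun p hp => ch_symm hS.1 hp hD]
    refine prod_aux (B := B) hS ?_ (by rw [← hD]; ring) fun h => absurd (fun _ => h) h2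
    nlinarith [sq_nonneg B, dsc_neg hS]

theorem sum_zz (hS : Prs S) (hD : B ^ 2 - 4 * A * C = dsc S) {e : Finset ℕ} (he : e ⊆ S) :
    sg (∑ p ∈ e, zz (ch p A C)) = ∏ p ∈ e, ch p A C := by
  rw [sg_sum]
  exact prod_congr rfl fun p hp => sg_zz (ch_cs hS (he hp) hD)

theorem sum_ch (hS : Adm S) (hA : 0 < A) (hD : B ^ 2 - 4 * A * C = dsc S) :
    ∑ p ∈ S, zz (ch p A C) = 0 := by
  rw [← zz_sg (∑ p ∈ S, _), sum_zz hS.1 hD Subset.rfl, prod_ch hS hA hD]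
  rfl

theorem sg_ga (hS : Prs S) (hp : p ∈ S) : sg (ga p) = jacobiSym 17 p :=
  sg_zz (jac_cs (hS p hp).1 fun h => (hS p hp).2.2.2 ((Nat.prime_dvd_prime_iff_eq (hS p hp).1
    (by norm_num : Nat.Prime 17)).1 (Int.natCast_dvd_natCast.1 h)))

/-- The genus characters and the Fricke involution. -/
theorem ch_w (hS : Prs S) (hp : p ∈ S) (hD : B ^ 2 - 4 * (17 * A) * C = dsc S) :
    ch p (17 * C) A = ch p (17 * A) C * sg (ga p) := by
  have hp' : Prime (p : ℤ) := Nat.prime_iff_prime_int.1 (hS p hp).1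
  have h17 : ¬ (p : ℤ) ∣ 17 := fun h => (hS p hp).2.2.2 ((Nat.prime_dvd_prime_iff_eq (hS p hp).1
    (by norm_num : Nat.Prime 17)).1 (Int.natCast_dvd_natCast.1 h))
  have h1 := jac_cs (hS p hp).1 h17
  rw [← ch_symm hS hp hD, sg_ga hS hp, ch, ch]
  by_cases h : (p : ℤ) ∣ C
  · rw [if_pos h, if_pos (h.mul_left _), jacobiSym.mul_left]
    rcases h1 with e | e <;> simp [e]
  · rw [if_neg h, if_neg fun e => h ((hp'.dvd_or_dvd e).resolve_left h17), jacobiSym.mul_left,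
      mul_comm]

theorem ps_eq (hp : p % 2 = 1) : pst p = ps p ∧ (-1 : ℤ) ^ (p / 2) = sg (ep p) := by
  unfold pst ps ep
  split_ifs with h
  · rw [Odd.neg_one_pow ⟨p / 4, by omega⟩]
    exact ⟨by ring, rfl⟩
  · rw [Even.neg_one_pow ⟨p / 4, by omega⟩]
    exact ⟨by ring, rfl⟩

theorem ex_root (hS : Prs S) (hg : ∑ p ∈ S, ga p = 0) :
    ∃ h : ℤ, (68 : ℤ) ∣ dsc S - h ^ 2 ∧ ¬ (17 : ℤ) ∣ h := by
  have h1 : jacobiSym (dsc S) 17 = 1 := by
    rw [jac_dsc hS (by decide), ← show sg 0 = 1 from rfl, ← hg, sg_sum]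
    exact prod_congr rfl fun p hp => (sg_ga hS hp).symm
  have : Fact (Nat.Prime 17) := ⟨by norm_num⟩
  have h17 : ¬ (17 : ℤ) ∣ dsc S := fun h => (hS 17 (mem_of_dvd hS this.out h)).2.2.2 rfl
  obtain ⟨r, hr⟩ := ZMod.isSquare_of_jacobiSym_eq_one h1
  obtain ⟨r, rfl⟩ := ZMod.intCast_surjective r
  obtain ⟨k, hk⟩ := (ZMod.intCast_zmod_eq_zero_iff_dvd (dsc S - r * r) 17).1
    (by push_cast; rw [hr, sub_self])
  have hm := dsc_mod hS
  have h2 : (17 : ℤ) ∣ dsc S - (18 * r + 17) ^ 2 :=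
    ⟨k - 19 * r ^ 2 - 36 * r - 17, by push_cast at hk; linear_combination hk⟩
  have h3 : (4 : ℤ) ∣ dsc S - (18 * r + 17) ^ 2 :=
    ⟨dsc S / 4 - (81 * r ^ 2 + 153 * r + 72), by
      linear_combination hm - Int.emod_add_mul_ediv (dsc S) 4⟩
  refine ⟨18 * r + 17, by omega, fun h => h17 ?_⟩
  exact (dvd_sub_left (dvd_pow h two_ne_zero)).1 h2

theorem not_sq (hS : Adm S) : ¬ IsSquare (-dsc S) ∧ ¬ IsSquare (-3 * dsc S) := by
  obtain ⟨p, hp⟩ := adm_ne hS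
  have h0 := hS.1 p hp
  have hp' : Prime (p : ℤ) := Nat.prime_iff_prime_int.1 h0.1
  have key : ∀ k r : ℤ, ¬ (p : ℤ) ∣ k → k * dsc S ≠ r * r := fun k r hk e => by
    have h1 : (p : ℤ) ∣ r := (hp'.dvd_or_dvd (e ▸ (dvd_dsc hS.1 hp).mul_left k)).elim id id
    have h2 : IsCoprime (p : ℤ) k := (hp'.irreducible.coprime_iff_not_dvd).2 hk
    exact sq_ndvd hS.1 h0.1 ((h2.mul_left h2).dvd_of_dvd_mul_left (e ▸ mul_dvd_mul h1 h1))
  constructor
  · rintro ⟨r, hr⟩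
    exact key (-1) r (fun h => hp'.not_dvd_one (dvd_neg.1 h)) (by rw [← hr]; ring)
  · rintro ⟨r, hr⟩
    exact key (-3) r (fun h => h0.2.2.1 ((Nat.prime_dvd_prime_iff_eq h0.1 Nat.prime_three).1
      (Int.natCast_dvd_natCast.1 (dvd_neg.1 h)))) hr

end Pool.Agent.Lib.MP_d6ddbd_nt.GF
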