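import Pool.Agent.Lib.MP_d6ddbd_nt.GF.FF
import Pool.Agent.Lib.MP_9177b7_ag.CM.Lat

/-! The modular parametrisation is onto. -/

open UpperHalfPlane Filter Topology
open scoped MatrixGroups
open Pool.Agent.Lib.MP_d6ddbd_nt.K
open Pool.Agent.Lib.MP_d6ddbd_nt.X (ww up)

noncomputable section

namespace Pool.Agent.Lib.MP_d6ddbd_nt.GF

variable {X Y t f g : ℍ → ℂ} {c d : LaurentSeries ℂ}

theorem coset (g : SL(2, ℤ)) (hg : g ∉ G0) :
    ∃ i : ℤ, g * (ModularGroup.S * ModularGroup.T ^ i)⁻¹ ∈ G0 := by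
  have : Fact (Nat.Prime 17) := ⟨by norm_num⟩
  rw [CongruenceSubgroup.Gamma0_mem] at hg
  obtain ⟨i, hi⟩ := ZMod.intCast_surjective ((g 1 1 : ZMod 17) / (g 1 0 : ZMod 17))
  refine ⟨i, ?_⟩
  rw [CongruenceSubgroup.Gamma0_mem, Matrix.SpecialLinearGroup.SL2_inv_expl]
  simp [Matrix.mul_apply, Fin.sum_univ_two, ModularGroup.coe_T_zpow, ModularGroup.S, hi]
  field_simp
  ring

theorem conj_mem : ModularGroup.S * ModularGroup.T ^ (17 : ℤ) * ModularGroup.S⁻¹ ∈ G0 := by
  rw [CongruenceSubgroup.Gamma0_mem, Matrix.SpecialLinearGroup.SL2_inv_expl]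
  simp [Matrix.mul_apply, Fin.sum_univ_two, ModularGroup.S]
  decide

theorem mf_of (hf : Hol f) (hi : ∀ γ ∈ G0, ∀ z, f (γ • z) = f z)
    (h1 : ∃ C K y : ℝ, ∀ z : ℍ, y < z.im → ‖f z‖ ≤ C * Real.exp (K * z.im))
    (h2 : IsBoundedAtImInfty fun z => f (ww z)) : MF G0 f := by
  refine ⟨hf, hi, fun g => ?_⟩
  by_cases hg : g ∈ G0
  · obtain ⟨C, K, y, h⟩ := h1
    obtain ⟨C', h'⟩ := bound_of_high one_pos hf (fun τ => by
      rw [← hi _ T_mem τ, modular_T_smul, Nat.cast_one]) h one_pos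
    exact ⟨C', K, fun τ hτ => by simpa only [hi g hg] using h' τ hτ⟩
  · obtain ⟨i, hi'⟩ := coset g hg
    obtain ⟨M, A, h⟩ := isBoundedAtImInfty_iff.1 h2
    obtain ⟨C', h'⟩ := bound_of_high (n := 17) (by norm_num) (hf.smul ModularGroup.S) (fun τ => by
      have := hi _ conj_mem (ModularGroup.S • τ)
      rw [mul_smul, inv_smul_smul, mul_smul, modular_T_zpow_smul] at this
      simpa using this) (C := M) (K := 0) (Y := 17 * A) (fun τ hτ => by
        let w : ℍ := ⟨τ / 17, by
          rw [← Complex.ofReal_ofNat, Complex.div_ofReal_im]; exact div_pos τ.im_pos (by norm_num)⟩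
        have e : up w = τ := UpperHalfPlane.ext (by
          rw [coe_up]; change 17 * ((τ : ℂ) / 17) = _; ring)
        have := h w (by have := im_up w; rw [e] at this; linarith)
        simpa [ww, e] using this) one_pos
    refine ⟨C', 0, fun τ hτ => ?_⟩
    have e := hi _ hi' ((ModularGroup.S * ModularGroup.T ^ i) • τ)
    rw [mul_smul, inv_smul_smul, mul_smul] at e
    have := h' (ModularGroup.T ^ i • τ) (by rwa [ModularGroup.im_T_zpow_smul])
    simp only [zero_mul] at this ⊢
    rw [e]; exact this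

theorem hol_div {a b a' b' : ℍ → ℂ} (ha : Hol a) (hb : Hol b) (ha' : Hol a') (hb' : Hol b')
    (h : ∀ z, b z * g z = a z) (h' : ∀ z, b' z * g z = a' z) (h0 : ∀ z, b z ≠ 0 ∨ b' z ≠ 0) :
    Hol g := by
  have key : ∀ {a b : ℍ → ℂ}, Hol a → Hol b → (∀ z, b z * g z = a z) → ∀ z : ℍ, b z ≠ 0 →
      DifferentiableAt ℂ (g ∘ ofComplex) z := by
    intro a b ha hb h z hz
    have b1 := hb.analyticAt z
    have b2 : (b ∘ ofComplex) z ≠ 0 := by simpa using hz
    refine ((ha.analyticAt z).div b1 b2).differentiableAt.congr_of_eventuallyEq ?_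
    filter_upwards [b1.continuousAt.eventually_ne b2] with w hw
    rw [Pi.div_apply, eq_div_iff hw, mul_comm]
    exact h _
  intro z hz
  rcases h0 ⟨z, hz⟩ with e | e
  · exact (key ha hb h ⟨z, hz⟩ e).differentiableWithinAt
  · exact (key ha' hb' h' ⟨z, hz⟩ e).differentiableWithinAt

theorem lead_unique {N M : ℤ} {a b : ℂ} (h : Lead c N a) (h' : Lead c M b) (ha : a ≠ 0)
    (hb : b ≠ 0) : N = M := by
  rcases lt_trichotomy N M with e | e | e
  · exact absurd (h.2.symm.trans (h'.1 N e)) ha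
  · exact e
  · exact absurd (h'.2.symm.trans (h.1 M e)) hb

theorem lead_add_const {N : ℤ} {a : ℂ} (h : Lead c N a) (hN : N < 0) (b : ℂ) :
    Lead (c + HahnSeries.single 0 b) N a := by
  refine ⟨fun M hM => ?_, ?_⟩
  · rw [HahnSeries.coeff_add, h.1 M hM, HahnSeries.coeff_single_of_ne (by omega), add_zero]
  · rw [HahnSeries.coeff_add, h.2, HahnSeries.coeff_single_of_ne (by omega), add_zero]

theorem surj (h : Mdl X Y t) : SurjStmt X Y := by
  refine ⟨fun x y hxy hT => ?_, fun z hz => h.ne z ?_⟩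
  swap
  · have := h.rel z
    rw [hz.1, hz.2] at this
    linear_combination this / 16
  by_contra hne
  have h0 : ∀ z, X z + -x ≠ 0 ∨ Y z + -y ≠ 0 := fun z => by
    by_contra hh
    rw [not_or, not_not, not_not, add_neg_eq_zero, add_neg_eq_zero] at hh
    exact hne ⟨z, hh⟩
  classical
  let G : ℍ → ℂ := fun z => X z ^ 2 + x * X z + 30 * X z + (x ^ 2 + 30 * x + 289)
  let g : ℍ → ℂ := fun z => if X z + -x = 0 then G z / (Y z + -y) else (Y z + y) / (X z + -x)
  have hG : ∀ z, (X z + -x) * G z = (Y z + y) * (Y z + -y) := fun z => by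
    simp only [G]; linear_combination hxy - h.eqn z
  have g1 : ∀ z, (X z + -x) * g z = Y z + y := fun z => by
    simp only [g]
    split_ifs with e
    · have := hG z
      rw [e, zero_mul] at this ⊢
      exact ((mul_eq_zero.1 this.symm).resolve_right ((h0 z).resolve_left fun e' => e' e)).symm
    · exact mul_div_cancel₀ _ e
  have g2 : ∀ z, (Y z + -y) * g z = G z := fun z => by
    simp only [g]
    split_ifs with e
    · exact mul_div_cancel₀ _ ((h0 z).resolve_left fun e' => e' e)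
    · rw [← mul_div_assoc, div_eq_iff e]; linear_combination -hG z
  have hX := h.mX.hol
  have hY := h.mY.hol
  obtain ⟨cX, x1, -, x2, x3⟩ := h.qX
  obtain ⟨cY, y1, -, y2, y3⟩ := h.qY
  have lX := lead_add_const (c := cX) ⟨x3, rfl⟩ (by norm_num) (-x)
  have lY := lead_add_const (c := cY) ⟨y3, rfl⟩ (by norm_num) y
  have qX := x1.add (qe_const (-x))
  have qY := y1.add (qe_const y)
  have hb : IsBoundedAtImInfty fun z => g (ww z) := by
    by_cases hx : (17 : ℂ) + -x = 0
    · have hy : (136 : ℂ) + -y ≠ 0 := fun e =>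
        hT ⟨(add_neg_eq_zero.1 hx).symm, (add_neg_eq_zero.1 e).symm⟩
      have t1 := h.wY.add_const (-y)
      have t2 : Tendsto (fun z => G (ww z)) atImInfty _ :=
        (((h.wX.pow 2).add (h.wX.const_mul x)).add (h.wX.const_mul 30)).add_const _
      refine ((t2.div t1 hy).congr' ?_).isBigO_one ℝ
      filter_upwards [t1.eventually_ne hy] with z hz
      rw [Pi.div_apply, div_eq_iff hz, mul_comm, g2]
    · have t1 := h.wX.add_const (-x)
      refine (((h.wY.add_const y).div t1 hx).congr' ?_).isBigO_one ℝ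
      filter_upwards [t1.eventually_ne hx] with z hz
      rw [Pi.div_apply, div_eq_iff hz, mul_comm, g1]
  have hm : MF G0 g := by
    refine mf_of (hol_div (hY.add (hol_const _)) (hX.add (hol_const _))
      ((((hX.pow 2).add ((hol_const _).mul hX)).add ((hol_const _).mul hX)).add (hol_const _))
      (hY.add (hol_const _)) g1 g2 h0) (fun γ hγ z => ?_) ?_ hb
    · simp only [g, G, h.mX.inv γ hγ, h.mY.inv γ hγ]
    · obtain ⟨y₀, hy₀⟩ := lower qX lX x2
      obtain ⟨C, K, hC⟩ := qY.gro one_pos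
      have ha : 0 < ‖cX.coeff (-2)‖ / 2 := half_pos (norm_pos_iff.2 x2)
      refine ⟨C / (‖cX.coeff (-2)‖ / 2), K, max y₀ 1, fun z hz => ?_⟩
      have a1 := hy₀ z ((le_max_left _ _).trans hz.le)
      have a2 := hC z ((le_max_right _ _).trans hz.le)
      have a3 : 1 ≤ Real.exp (-(2 * Real.pi * ((-2 : ℤ) : ℝ) * z.im)) := by
        apply Real.one_le_exp
        push_cast
        nlinarith [Real.pi_pos, z.im_pos, mul_pos Real.pi_pos z.im_pos]
      rw [div_mul_eq_mul_div, le_div_iff₀ ha]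
      refine le_trans ?_ a2
      beta_reduce
      rw [← g1 z, norm_mul, mul_comm]
      gcongr
      exact (le_mul_of_one_le_right ha.le a3).trans a1
  obtain ⟨d, hd⟩ := mf_qe hm
  have e : (cX + HahnSeries.single 0 (-x)) * d = cY + HahnSeries.single 0 y :=
    (qX.mul hd).unique one_pos (by simpa only [g1] using qY)
  have hd0 : d ≠ 0 := by
    rintro rfl
    have := lY.2
    rw [← e, mul_zero] at this
    exact y2 this.symm
  have ld : Lead d d.order (d.coeff d.order) :=
    ⟨fun M hM => HahnSeries.coeff_eq_zero_of_lt_order hM, rfl⟩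
  have hc : d.coeff d.order ≠ 0 := fun e => hd0 (HahnSeries.coeff_order_eq_zero.1 e)
  have e2 := lead_unique (e ▸ lX.mul ld) lY (mul_ne_zero x2 hc) y2
  have e3 : d.order = -1 := by omega
  rw [e3] at ld hc
  exact hc (h.gap ⟨hm, hb⟩ hd ld.1)

end Pool.Agent.Lib.MP_d6ddbd_nt.GF
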