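import Pool.Agent.Lib.MP_d6ddbd_nt.GF.Red
import Pool.Agent.Lib.MP_d6ddbd_nt.G.Field
import Pool.Agent.Lib.MP_d6ddbd_nt.K.Heeg2
import Pool.Agent.Lib.MP_d6ddbd_nt.K.X0

/-! The action of `Aut ℂ` on Heegner points. -/

open Finset UpperHalfPlane
open scoped MatrixGroups Pointwise
open Pool.Agent.Lib.MP_9177b7_ag.CM
open Pool.Agent.Lib.MP_d6ddbd_nt.G
open Pool.Agent.Lib.MP_d6ddbd_nt.G.SelAux (sg_add sg_sum z2 map_rt rt_sq)
open Pool.Agent.Lib.MP_d6ddbd_nt.G.FinalAux (odd_of)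
open Pool.Agent.Lib.MP_d6ddbd_nt.K (Hg G0 phi TT XX YY)
open Pool.Agent.Lib.MP_d6ddbd_nt.K.HeegAux

noncomputable section

namespace Pool.Agent.Lib.MP_d6ddbd_nt.GF

variable {S : Finset ℕ} {D β : ℤ} {σ : ℂ ≃+* ℂ} {z w : ℍ} {Q Q' : ℤ × ℤ × ℤ}

theorem conj_lt {L L' M M' : Submodule ℤ ℂ} (h1 : Conj (σ : ℂ →+* ℂ) L L')
    (h2 : Conj (σ : ℂ →+* ℂ) M M') (h : L < M) : L' < M' :=
  lt_of_le_of_ne (hyp.conj_mono h1 h2 h.le) fun e =>
    h.ne (hyp.conj_unique h1.symm (e ▸ h2.symm))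

theorem lt_of_smul {c : ℂ} (hc : c ≠ 0) {U V : Submodule ℤ ℂ} (h : c • U < c • V) : U < V := by
  refine lt_of_le_of_ne ?_ (by rintro rfl; exact h.ne rfl)
  have := smul_le_smul c⁻¹ h.le
  rwa [smul_smul, smul_smul, inv_mul_cancel₀ hc, one_smul, one_smul] at this

theorem sp_lt (z : ℍ) : (17 : ℂ) • sp z (1 / 17) < sp z 1 ∧ sp z 1 < sp z (1 / 17) := by
  constructor
  · rw [smul_sp]
    refine lt_of_le_of_ne (sp_le.2 ⟨mem_sp.2 ⟨17, 0, by simp⟩, mem_sp.2 ⟨0, 1, by simp⟩⟩) fun e => ?_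
    obtain ⟨a, b, h⟩ := mem_sp.1 (e.ge (left_mem_sp (z : ℂ) 1))
    have := (Lat.int_indep z (17 * a) b 1 0 (by push_cast; linear_combination h)).1
    omega
  · refine lt_of_le_of_ne (sp_le.2 ⟨left_mem_sp _ _, mem_sp.2 ⟨0, 17, by simp⟩⟩) fun e => ?_
    obtain ⟨a, b, h⟩ := mem_sp.1 (e.ge (right_mem_sp (z : ℂ) (1 / 17)))
    have := (Lat.int_indep z (17 * a) (17 * b) 0 1 (by push_cast; linear_combination 17 * h)).2
    omega

theorem exists_cj (σ : ℂ ≃+* ℂ) (z : ℍ) : ∃ w, Cj σ z w := by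
  have h17 : (17 : ℂ) ≠ 0 := by norm_num
  have hM : IsLat (sp z (1 / 17)) := by
    rw [X.sp_up]
    exact hyp.isLat_smul (hyp.isLat_sp _) (by norm_num)
  obtain ⟨L, h1⟩ := hyp.exists_conj (σ : ℂ →+* ℂ) (hyp.isLat_sp z)
  obtain ⟨M, h2⟩ := hyp.exists_conj (σ : ℂ →+* ℂ) hM
  have h3 := conj_lt (hyp.conj_smul h2 h17) h1 (sp_lt z).1
  have h4 := conj_lt h1 h2 (sp_lt z).2
  rw [map_ofNat] at h3
  obtain ⟨τ, c, hc, -, rfl⟩ := hyp.exists_fd h2.2.1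
  obtain ⟨Y, rfl⟩ : ∃ Y, L = c • Y := ⟨c⁻¹ • L, by rw [smul_smul, mul_inv_cancel₀ hc, one_smul]⟩
  rw [smul_comm] at h3
  have h0 := τ.ne_zero
  rcases Lat.l8 17 τ Y (by norm_num) (lt_of_smul hc h3) (lt_of_smul hc h4) with e | ⟨i, -, e⟩
  · refine ⟨WW τ, c * (17 * τ), mul_ne_zero hc (mul_ne_zero h17 h0), ?_, ?_⟩
    · convert h1 using 1
      rw [e, mul_smul, smul_sp, coe_WW, Norm.coe_up (by norm_num), ← Lat.sp_neg, sp_comm]
      congr 2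
      · simp
      · field_simp
    · convert h2 using 1
      rw [mul_smul, smul_sp, coe_WW, sp_comm (τ : ℂ), ← Lat.sp_neg]
      congr 2 <;> field_simp
  · refine ⟨dn 17 i τ, c * 17, mul_ne_zero hc h17, by rw [mul_smul]; exact e ▸ h1, ?_⟩
    convert h2 using 1
    rw [mul_smul, smul_sp, Norm.coe_dn (by norm_num)]
    congr 1
    apply le_antisymm <;> rw [sp_le]
    · exact ⟨mem_sp.2 ⟨1, i, by push_cast; ring⟩, mem_sp.2 ⟨0, 1, by simp⟩⟩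
    · exact ⟨mem_sp.2 ⟨1, -i, by push_cast; ring⟩, mem_sp.2 ⟨0, 1, by simp⟩⟩

theorem hg_le (h : Q ∈ Hg D β z) :
    ((2 * (17 * Q.1 : ℤ) * (z : ℂ) + Q.2.1 - β) / 2) • sp z (1 / 17) ≤ sp z 1 := by
  obtain ⟨-, -, ⟨k, hk⟩, h4⟩ := h
  have hk' : (Q.2.1 : ℂ) - β = 34 * k := by exact_mod_cast hk
  rw [smul_sp, sp_le]
  exact ⟨mem_sp.2 ⟨17 * k - Q.2.1, -Q.2.2, by
      push_cast; linear_combination -h4 - (z : ℂ) / 2 * hk'⟩,
    mem_sp.2 ⟨Q.1, k, by push_cast; linear_combination -hk' / 34⟩⟩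

theorem hg_of_le {δ : ℂ} (hδ : δ ^ 2 = D) (him : 0 < δ.im)
    (h : ((δ - β) / 2) • sp w (1 / 17) ≤ sp w 1) : (Hg D β w).Nonempty := by
  rw [smul_sp, sp_le] at h
  obtain ⟨e, f, h1⟩ := mem_sp.1 h.1
  obtain ⟨a, k, h2⟩ := mem_sp.1 h.2
  have h3 : δ = 34 * a * w + 34 * k + β := by linear_combination -34 * h2
  have ha : 0 < a := by
    rw [h3] at him
    simp at him
    have := pos_of_mul_pos_left him w.im_pos.le
    exact_mod_cast (by linarith : (0 : ℝ) < a)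
  have h4 : 17 * (a : ℂ) * w ^ 2 + (17 * k - e : ℤ) * (w : ℂ) + (-f : ℤ) = 0 := by
    push_cast
    linear_combination 17 * (w : ℂ) * h2 - h1
  obtain ⟨h5, h6⟩ := Lat.int_indep w (68 * a * (17 * k + e + β))
    ((34 * k + β) ^ 2 + 68 * a * f) 0 D (by
      push_cast at h4 ⊢
      linear_combination hδ - (δ + 34 * a * w + 34 * k + β) * h3 - 68 * a * h4)
  have h7 : e = -17 * k - β := by
    have := (mul_eq_zero.1 h5).resolve_left (by omega)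
    omega
  exact ⟨(a, 17 * k - e, -f), ha, by rw [h7]; linear_combination h6, ⟨k, by rw [h7]; ring⟩, h4⟩

theorem cj_hg (h : Q ∈ Hg D β z) (hc : Cj σ z w) {ε : ℤ} (hε : ε = 1 ∨ ε = -1)
    (hσ : σ (2 * (17 * Q.1 : ℤ) * (z : ℂ) + Q.2.1) = ε * (2 * (17 * Q.1 : ℤ) * (z : ℂ) + Q.2.1)) :
    (Hg D (ε * β) w).Nonempty := by
  obtain ⟨c, c0, c1, c2⟩ := hc
  have h1 := hg_le h
  obtain ⟨a1, a2, -, a4⟩ := h
  have him : 0 < (2 * (17 * Q.1 : ℤ) * (z : ℂ) + Q.2.1).im := by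
    have h1 : (0 : ℝ) < Q.1 := by exact_mod_cast a1
    have h2 := z.im_pos
    simp
    positivity
  have hδ : (2 * (17 * Q.1 : ℤ) * (z : ℂ) + Q.2.1) ^ 2 = D := by
    rw [← a2]
    push_cast
    linear_combination 68 * Q.1 * a4
  generalize 2 * ((17 * Q.1 : ℤ) : ℂ) * (z : ℂ) + Q.2.1 = δ at *
  have h0 : (δ - β) / 2 ≠ 0 := fun e => by
    have := congrArg Complex.im e
    simp at this
    exact him.ne' this
  have h2 := smul_le_smul c⁻¹ (hyp.conj_mono (hyp.conj_smul c2 h0) c1 h1)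
  rw [smul_comm, smul_smul c⁻¹, smul_smul c⁻¹, inv_mul_cancel₀ c0, one_smul, one_smul,
    RingHom.coe_coe, map_div₀, map_sub, hσ, map_intCast, map_ofNat] at h2
  refine hg_of_le hδ him ?_
  rcases hε with rfl | rfl
  · simpa using h2
  · rw [smul_sp, sp_le] at h2 ⊢
    refine ⟨?_, ?_⟩
    · convert Submodule.neg_mem _ h2.1 using 1
      push_cast; ring
    · convert Submodule.neg_mem _ h2.2 using 1
      push_cast; ring

theorem hg_uniq (h17 : ¬ (17 : ℤ) ∣ β) {γ : SL(2, ℤ)} (h : Q ∈ Hg D β z)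
    (h' : Q' ∈ Hg D β (γ • z)) : γ ∈ G0 := by
  obtain ⟨a1, a2, a3⟩ := mem_hg.1 h
  obtain ⟨b1, b2, b3⟩ := mem_hg.1 h'
  have hd := det_eq γ
  obtain ⟨e1, e2, -⟩ := rt_uniq a1 b1.sl ((disc _ _ _ hd).trans (b2.trans a2.symm))
  have f6 : (17 : ZMod 17) = 0 := rfl
  have f7 : (2 : ZMod 17) ≠ 0 := by decide
  have : Fact (Nat.Prime 17) := ⟨by norm_num⟩
  have k : ∀ n : ℤ, (17 : ℤ) ∣ n ↔ (n : ZMod 17) = 0 := fun n =>
    (ZMod.intCast_zmod_eq_zero_iff_dvd n 17).symm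
  have f1 := congrArg (Int.cast : ℤ → ZMod 17) e1
  have f2 := congrArg (Int.cast : ℤ → ZMod 17) e2
  have f3 := congrArg (Int.cast : ℤ → ZMod 17) hd
  have f4 := (k _).1 ((by norm_num : (17 : ℤ) ∣ 34).trans a3)
  have f5 := (k _).1 ((by norm_num : (17 : ℤ) ∣ 34).trans b3)
  push_cast at f1 f2 f3 f4 f5
  rw [f6] at f1 f2
  rw [CongruenceSubgroup.Gamma0_mem]
  by_contra hr
  have g1 : (Q'.2.1 : ZMod 17) * γ 0 0 + Q'.2.2 * γ 1 0 = 0 :=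
    mul_left_cancel₀ hr (by linear_combination f1)
  have g2 : (Q'.2.1 : ZMod 17) * γ 0 1 + Q'.2.2 * γ 1 1 = 0 :=
    mul_left_cancel₀ (mul_ne_zero f7 hr) (by linear_combination f2 + f4 - f5 - Q'.2.1 * f3)
  exact h17 ((k _).2 (by linear_combination γ 1 1 * g1 - γ 1 0 * g2 - f5 - Q'.2.1 * f3))

theorem hg_ex (hβ : (68 : ℤ) ∣ D - β ^ 2) (h17 : ¬ (17 : ℤ) ∣ β) {A B C : ℤ} {x : ℂ}
    (h : Fm A B C x) (hD : B ^ 2 - 4 * A * C = D) : ∃ z, (Hg D β z).Nonempty ∧ jH z = x := by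
  have key : ∀ A B C : ℤ, Fm A B C x → B ^ 2 - 4 * A * C = D → (17 : ℤ) ∣ A → (17 : ℤ) ∣ B - β →
      ∃ z, (Hg D β z).Nonempty ∧ jH z = x := by
    rintro _ B C ⟨z, h1, h2⟩ hD ⟨a, rfl⟩ h3
    refine ⟨z, ⟨(a, B, C), mem_hg.2 ⟨h1, hD, ?_⟩⟩, h2⟩
    obtain ⟨k, hk⟩ := hβ
    have : Even (B ^ 2 - β ^ 2) := ⟨34 * (k + a * C), by linear_combination hD + hk⟩
    rw [Int.even_sub, Int.even_pow' two_ne_zero, Int.even_pow' two_ne_zero, ← Int.even_sub,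
      even_iff_two_dvd] at this
    dsimp only
    omega
  by_cases h1 : (17 : ℤ) ∣ A ∧ (17 : ℤ) ∣ B - β
  · exact key _ _ _ h hD h1.1 h1.2
  have f2 : (2 : ZMod 17) ≠ 0 := by decide
  have : Fact (Nat.Prime 17) := ⟨by norm_num⟩
  have k : ∀ n : ℤ, (17 : ℤ) ∣ n ↔ (n : ZMod 17) = 0 := fun n =>
    (ZMod.intCast_zmod_eq_zero_iff_dvd n 17).symm
  have f1 := (k _).1 ((by norm_num : (17 : ℤ) ∣ 68).trans hβ)
  rw [← hD] at f1
  rw [k] at h17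
  rw [k, k] at h1
  push_cast at f1 h1
  obtain ⟨p, p1, p2⟩ : ∃ p : ZMod 17, A * p ^ 2 + B * p + C = 0 ∧ -2 * A * p - B - β = 0 := by
    by_cases hA : (A : ZMod 17) = 0
    · have hB : (B : ZMod 17) = -β := mul_left_cancel₀ (fun e => h1 ⟨hA, e⟩)
        (by linear_combination f1 + 4 * C * hA)
      refine ⟨C / β, ?_, ?_⟩
      · rw [hA, hB]
        field_simp
        ring
      · rw [hA, hB]
        ring
    · have h2 : -2 * A * (-(β + B) / (2 * A) : ZMod 17) - B - β = 0 := by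
        field_simp
        ring
      refine ⟨_, mul_left_cancel₀ (mul_ne_zero (mul_ne_zero f2 f2) hA) ?_, h2⟩
      generalize (-(β + B) / (2 * A) : ZMod 17) = p at h2
      linear_combination -f1 - (2 * A * p + B - β) * h2
  obtain ⟨p, rfl⟩ := ZMod.intCast_surjective p
  exact key _ _ _ (h.sl p (-1) 1 0 (by ring) rfl rfl rfl) ((disc _ _ _ (by ring)).trans hD)
    ((k _).2 (by push_cast; linear_combination p1)) ((k _).2 (by push_cast; linear_combination p2))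

theorem hg_fm (h : Q ∈ Hg D β z) :
    Fm (17 * Q.1) Q.2.1 Q.2.2 (jH z) ∧ Q.2.1 ^ 2 - 4 * (17 * Q.1) * Q.2.2 = D :=
  ⟨⟨z, (mem_hg.1 h).1, rfl⟩, (mem_hg.1 h).2.1⟩

/-- The genus character of a Heegner form, written additively. -/
def cq (p : ℕ) (Q : ℤ × ℤ × ℤ) : ZMod 2 := zz (ch p (17 * Q.1) Q.2.2)

theorem phi_W (τ : ℍ) : br (phi (WW τ)) = T0 - br (phi τ) := by
  rw [WW, K.phi_W, map_sub, br_TT]

/-- The Galois action on one Heegner point. -/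
theorem gal_pt (hS : Adm S) (σ : ℂ ≃+* ℂ) (h : Q ∈ Hg (dsc S) β z) :
    ∃ w, ∃ Q' ∈ Hg (dsc S) β w,
      (∑ p ∈ S, sgn σ p = 0 → jH w = σ (jH z) ∧ act σ (br (phi z)) = br (phi w) ∧
        ∀ p ∈ S, cq p Q' = cq p Q + sgn σ p) ∧
      (∑ p ∈ S, sgn σ p = 1 → jH (WW w) = σ (jH z) ∧ act σ (br (phi z)) = T0 - br (phi w) ∧
        ∀ p ∈ S, cq p Q' = cq p Q + sgn σ p + ep p + ga p) := by
  obtain ⟨w, hc⟩ := exists_cj σ z
  obtain ⟨j0, j1⟩ := K.dv_j 1 (dsc_neg hS) β (not_sq hS).1 (not_sq hS).2 ⟨Q, h⟩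
  obtain ⟨e1, e2⟩ := X.equivS σ z w j0 j1 hc
  have hact : act σ (br (phi z)) = br (phi w) := by
    rw [phi, phi, act_br_pt σ (X.curS.1 z), e1, e2]
  have hj : σ (jH z) = jH w := by
    obtain ⟨c, c0, c1, -⟩ := hc
    have := c1.jL
    rwa [hyp.jL_smul _ c0, hyp.jL_sp, hyp.jL_sp] at this
  obtain ⟨a1, a2, -⟩ := mem_hg.1 h
  have hσ : σ (2 * (17 * Q.1 : ℤ) * (z : ℂ) + Q.2.1) =
      sg (∑ p ∈ S, sgn σ p) * (2 * (17 * Q.1 : ℤ) * (z : ℂ) + Q.2.1) := by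
    have : (2 * (17 * Q.1 : ℤ) * (z : ℂ) + Q.2.1) ^ 2 = (∏ p ∈ S, G.sq p) ^ 2 := by
      rw [rt_sq field, ← a2]
      have := a1.2
      push_cast at this ⊢
      linear_combination 68 * Q.1 * this
    rcases sq_eq_sq_iff_eq_or_eq_neg.1 this with e | e
    · rw [e, map_rt field]
    · rw [e, map_neg, map_rt field, mul_neg]
  have s0 : ∀ p ∈ S, G.sq p ≠ 0 := fun p hp e => SelAux.ps_ne (hS.1 p hp).1 (by
    have := field.1 p
    rw [e, zero_pow two_ne_zero] at this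
    exact_mod_cast this.symm)
  rcases z2 (∑ p ∈ S, sgn σ p) with e | e <;> rw [e] at hσ ⊢
  · obtain ⟨Q', h'⟩ := cj_hg h hc (Or.inl rfl) hσ
    rw [one_mul] at h'
    refine ⟨w, Q', h', fun _ => ⟨hj.symm, hact, fun p hp => ?_⟩, fun k => absurd k (by decide)⟩
    have := Fact.mk (hS.1 p hp).1
    obtain ⟨b1, b2, -⟩ := mem_hg.1 h'
    have g := genus (hS.1 p hp).2.1 (s := G.sq p)
      (by rw [(ps_eq (odd_of hS.1 p hp)).1]; exact field.1 p) a1.2 b1.2 a1.1 b1.1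
      (b2.trans a2.symm) (a2 ▸ dvd_dsc hS.1 hp) σ (by simpa [sg] using hσ) hj
    rw [field.2.1, ← mul_assoc, ← ch_eq, ← ch_eq] at g
    have g' : ch p (17 * Q'.1) Q'.2.2 = ch p (17 * Q.1) Q.2.2 * sg (sgn σ p) := by
      exact_mod_cast mul_right_cancel₀ (s0 p hp) g
    rw [cq, cq, g', zz_mul (ch_cs hS.1 hp a2)]
  · obtain ⟨Q', h'⟩ := cj_hg h hc (Or.inr rfl) hσ
    have h2 := hg_W h'
    rw [neg_one_mul, neg_neg] at h2
    refine ⟨WW w, _, h2, fun k => absurd k (by decide), fun _ => ⟨by rw [WW_WW, hj],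
      by rw [phi_W, sub_sub_cancel, hact], fun p hp => ?_⟩⟩
    have := Fact.mk (hS.1 p hp).1
    obtain ⟨b1, b2, -⟩ := mem_hg.1 h'
    have g := genus' (hS.1 p hp).2.1 (s := G.sq p)
      (by rw [(ps_eq (odd_of hS.1 p hp)).1]; exact field.1 p) a1.2 b1.2 a1.1 b1.1
      (b2.trans a2.symm) (a2 ▸ dvd_dsc hS.1 hp) σ (by simpa [sg] using hσ) hj
    rw [field.2.1, ← mul_assoc, ← ch_eq, ← ch_eq] at g
    have g' : ch p (17 * Q'.1) Q'.2.2 = (-1) ^ (p / 2) * ch p (17 * Q.1) Q.2.2 * sg (sgn σ p) := by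
      exact_mod_cast mul_right_cancel₀ (s0 p hp) g
    rw [cq, cq]
    dsimp only
    rw [ch_w hS.1 hp b2, g', (ps_eq (odd_of hS.1 p hp)).2, mul_comm (sg _), mul_assoc, mul_assoc,
      ← sg_add, ← sg_add, zz_mul (ch_cs hS.1 hp a2)]
    ring

end Pool.Agent.Lib.MP_d6ddbd_nt.GF
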