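import Pool.Agent.Lib.MP_d6ddbd_nt.GF.Geom
import Pool.Agent.Lib.MP_d6ddbd_nt.K.GKZ

/-! The geometric half. -/

namespace Pool.Agent.Lib.MP_d6ddbd_nt.GF

theorem geom : G.GeomStmt := geom_of K.gkz

end Pool.Agent.Lib.MP_d6ddbd_nt.GF
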