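import Pool.Agent.Lib.MP_d6ddbd_nt.GF.Frm
import Pool.Agent.Lib.MP_d6ddbd_nt.K.Heeg1

/-! Classes of forms, ambiguous classes and the parity of the principal genus. -/

open Finset UpperHalfPlane
open scoped MatrixGroups symmDiff
open Pool.Agent.Lib.MP_9177b7_ag.CM (jH hyp)
open Pool.Agent.Lib.MP_d6ddbd_nt.G
open Pool.Agent.Lib.MP_d6ddbd_nt.G.SelAux (sg_add sg_sum z2)
open Pool.Agent.Lib.MP_d6ddbd_nt.G.FinalAux (dsc_cases jac_cases odd_of)
open Pool.Agent.Lib.MP_d6ddbd_nt.K.HeegAux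

noncomputable section

namespace Pool.Agent.Lib.MP_d6ddbd_nt.GF

variable {S T T' : Finset ℕ} {p : ℕ} {A B C A' B' C' : ℤ} {x y : ℂ}

theorem jH_sl (γ : SL(2, ℤ)) (τ : ℍ) : jH (γ • τ) = jH τ := (hyp.jH_eq_iff.2 ⟨γ, rfl⟩).symm

theorem rt_uniq {z : ℍ} (h : Rt A B C z) (h' : Rt A' B' C' z)
    (hD : B' ^ 2 - 4 * A' * C' = B ^ 2 - 4 * A * C) : A' = A ∧ B' = B ∧ C' = C := by
  obtain ⟨h1, h2⟩ := MP_9177b7_ag.CM.Lat.int_indep z (2 * A') B' (2 * A) B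
    (by exact_mod_cast im_eq h.2 h'.2 h.1 h'.1 hD)
  obtain rfl : A' = A := by omega
  subst h2
  exact ⟨rfl, rfl, by exact_mod_cast add_left_cancel (h'.2.trans h.2.symm)⟩

theorem rt_eq {z w : ℍ} (h : Rt A B C z) (h' : Rt A B C w) : w = z := by
  have h0 : (2 * A : ℂ) ≠ 0 := by exact_mod_cast (by have := h.1; omega : 2 * A ≠ 0)
  exact UpperHalfPlane.ext
    (mul_left_cancel₀ h0 (add_right_cancel (im_eq h.2 h'.2 h.1 h'.1 rfl)))

theorem rt_mir {z : ℍ} (h : Rt A B C z) : Rt A (-B) C (mir z) := by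
  have h1 := congrArg (starRingEnd ℂ) h.2
  simp only [map_add, map_mul, map_pow, map_intCast, map_zero] at h1
  exact ⟨h.1, by rw [coe_mir]; push_cast; linear_combination h1⟩

/-- `x` is the invariant of the root of the form `[A, B, C]`. -/
def Fm (A B C : ℤ) (x : ℂ) : Prop := ∃ τ, Rt A B C τ ∧ jH τ = x

theorem Fm.sl (h : Fm A B C x) (p q r s : ℤ) (hd : p * s - q * r = 1)
    (h1 : A' = A * p ^ 2 + B * p * r + C * r ^ 2)
    (h2 : B' = 2 * A * p * q + B * (p * s + q * r) + 2 * C * r * s)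
    (h3 : C' = A * q ^ 2 + B * q * s + C * s ^ 2) : Fm A' B' C' x := by
  obtain ⟨τ, a, b⟩ := h
  let γ : SL(2, ℤ) := ⟨!![p, q; r, s], by rw [Matrix.det_fin_two_of]; exact hd⟩
  rw [← smul_inv_smul γ τ] at a
  rw [h1, h2, h3]
  exact ⟨γ⁻¹ • τ, a.sl, (jH_sl _ _).trans b⟩

theorem Fm.rel (h : Fm A B C x) (h' : Fm A' B' C' x)
    (hD : B' ^ 2 - 4 * A' * C' = B ^ 2 - 4 * A * C) : ∃ p q r s : ℤ,
      A' = A * p ^ 2 + B * p * r + C * r ^ 2 ∧ C' = A * q ^ 2 + B * q * s + C * s ^ 2 := by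
  obtain ⟨τ, a, b⟩ := h
  obtain ⟨τ', a', b'⟩ := h'
  obtain ⟨γ, rfl⟩ := hyp.jH_eq_iff.1 (b'.trans b.symm)
  have := rt_uniq a.sl a' (hD.trans (disc _ _ _ (det_eq γ)).symm)
  exact ⟨_, _, _, _, this.1, this.2.2⟩

theorem Fm.ex (hA : 0 < A) (hD : B ^ 2 - 4 * A * C < 0) : ∃ x, Fm A B C x := by
  have h1 : (0 : ℝ) < A := by exact_mod_cast hA
  have h2 : (0 : ℝ) < 4 * A * C - B ^ 2 := by exact_mod_cast (by omega : 0 < 4 * A * C - B ^ 2)
  obtain ⟨s, h3, h4⟩ : ∃ s : ℝ, 0 < s ∧ s * s = 4 * A * C - B ^ 2 :=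
    ⟨_, Real.sqrt_pos.2 h2, Real.mul_self_sqrt h2.le⟩
  refine ⟨_, ⟨⟨-B / (2 * A), s / (2 * A)⟩, by positivity⟩, ⟨hA, ?_⟩, rfl⟩
  apply Complex.ext
  · simp [pow_two]
    field_simp
    linear_combination -h4
  · simp [pow_two]
    field_simp
    ring

theorem Fm.uniq (h : Fm A B C x) (h' : Fm A B C y) : y = x := by
  obtain ⟨τ, a, rfl⟩ := h
  obtain ⟨τ', a', rfl⟩ := h'
  rw [rt_eq a a']

theorem Fm.conj (h : Fm A B C x) : Fm A (-B) C (starRingEnd ℂ x) := by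
  obtain ⟨τ, a, rfl⟩ := h
  exact ⟨_, rt_mir a, jH_mir τ⟩

theorem Fm.pos (h : Fm A B C x) : 0 < A := h.choose_spec.1.1

theorem Fm.ch (hS : Prs S) (hp : p ∈ S) (h : Fm A B C x) (h' : Fm A' B' C' x)
    (hD : B ^ 2 - 4 * A * C = dsc S) (hD' : B' ^ 2 - 4 * A' * C' = dsc S) :
    ch p A' C' = ch p A C := by
  obtain ⟨a, b, c, d, e1, e2⟩ := h.rel h' (hD'.trans hD.symm)
  rw [GF.ch]
  split_ifs with h1
  · rw [e2]
    exact ch_val hS hp hD (e2 ▸ prim hS hp hD' h1)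
  · rw [e1]
    exact ch_val hS hp hD (e1 ▸ h1)

/-- A class with real invariant contains an ambiguous form. -/
theorem Fm.amb (h : Fm A B C x) (hB : (B ^ 2 - 4 * A * C) % 4 = 1) (hx : starRingEnd ℂ x = x) :
    ∃ d c : ℤ, Fm d d c x ∧ d ^ 2 - 4 * d * c = B ^ 2 - 4 * A * C := by
  obtain ⟨τ, a, rfl⟩ := h
  obtain ⟨g, hg⟩ := ModularGroup.exists_smul_mem_fd τ
  rw [← inv_smul_smul g τ] at a
  rw [← jH_sl g τ] at hx ⊢
  rw [← disc A B C (det_eq g⁻¹)] at hB ⊢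
  have a1 := a.sl
  generalize g • τ = z at *
  generalize A * g⁻¹ 0 0 ^ 2 + _ + _ = A₁ at *
  generalize A * g⁻¹ 0 1 ^ 2 + _ + _ = C₁ at *
  generalize 2 * A * g⁻¹ 0 0 * _ + _ + _ = B₁ at *
  obtain ⟨e1, e2, -⟩ := a1.real
  have hF : Fm A₁ B₁ C₁ (jH z) := ⟨z, a1, rfl⟩
  by_cases h1 : |z.re| = 1 / 2
  · rcases (abs_eq (by norm_num)).1 h1 with e | e
    · obtain rfl : B₁ = -A₁ := by
        rw [e] at e1
        exact_mod_cast (by linarith : (B₁ : ℝ) = -A₁)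
      exact ⟨A₁, C₁, hF.sl 1 1 0 1 rfl (by ring) (by ring) (by ring), by ring⟩
    · obtain rfl : B₁ = A₁ := by
        rw [e] at e1
        exact_mod_cast (by linarith : (B₁ : ℝ) = A₁)
      exact ⟨_, _, hF, rfl⟩
  by_cases h2 : Complex.normSq z = 1
  · obtain rfl : C₁ = A₁ := by
      rw [Complex.normSq_apply, coe_re, coe_im, ← pow_two, ← pow_two] at h2
      rw [h2, mul_one] at e2
      exact_mod_cast e2
    exact ⟨2 * C₁ - B₁, C₁, hF.sl 1 1 (-1) 0 rfl (by ring) (by ring) (by ring), by ring⟩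
  have h3 : z ∈ ModularGroup.fdo := ⟨lt_of_le_of_ne hg.1 (Ne.symm h2), lt_of_le_of_ne hg.2 h1⟩
  obtain ⟨γ, e⟩ := hyp.jH_eq_iff.1 (hx.symm.trans (jH_mir z).symm)
  have h4 : mir z ∈ ModularGroup.fdo := by
    refine ⟨by simpa [coe_mir] using h3.1, ?_⟩
    have : (mir z).re = -z.re := by rw [← coe_re, coe_mir]; simp
    rw [this, abs_neg]
    exact h3.2
  rw [e] at h4
  have h5 := (rt_uniq a1 (((ModularGroup.eq_smul_self_of_mem_fdo_mem_fdo h3 h4).trans e.symm) ▸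
    rt_mir a1 : Rt A₁ (-B₁) C₁ z) (by ring)).2.1
  obtain rfl : B₁ = 0 := by omega
  have : (0 ^ 2 - 4 * A₁ * C₁ : ℤ) = 4 * (-(A₁ * C₁)) := by ring
  omega

/-- The product of a set of primes. -/
def pr (T : Finset ℕ) : ℤ := (∏ q ∈ T, q : ℕ)

theorem dvd_pr (hS : Prs S) (hT : T ⊆ S) (hp : p.Prime) : (p : ℤ) ∣ pr T ↔ p ∈ T := by
  rw [pr, Int.natCast_dvd_natCast, Prime.dvd_finsetProd_iff hp.prime]
  refine ⟨?_, fun h => ⟨p, h, dvd_rfl⟩⟩
  rintro ⟨q, hq, e⟩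
  rwa [(Nat.prime_dvd_prime_iff_eq hp (hS q (hT hq)).1).1 e]

theorem pr_pos (hS : Prs S) (hT : T ⊆ S) : 0 < pr T :=
  Int.natCast_pos.2 (prod_pos fun q hq => (hS q (hT hq)).1.pos)

theorem pr_mul (hS : Adm S) (hT : T ⊆ S) : pr T * pr (S \ T) = -dsc S := by
  rw [dsc_adm hS, neg_neg, ← prod_sdiff hT, pr, pr, mul_comm, Nat.cast_mul]

theorem jac_pr (hS : Prs S) (hT : T ⊆ S) (hp : p ∈ S) (h : p ∉ T) :
    zz (jacobiSym (pr T) p) = ∑ q ∈ T, al q p := by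
  rw [← zz_sg (∑ q ∈ T, _), sg_sum, pr, Nat.cast_prod]
  congr 1
  induction T using Finset.induction_on with
  | empty => simp
  | insert q T hq ih =>
    have h1 := hT (mem_insert_self _ _)
    rw [prod_insert hq, prod_insert hq, jacobiSym.mul_left,
      ih ((subset_insert _ _).trans hT) fun e => h (mem_insert_of_mem e),
      KerAux.al_eq (Nat.odd_iff.2 (odd_of hS q h1)) (Nat.odd_iff.2 (odd_of hS p hp))]
    congr 1
    refine (sg_zz (jac_cs (hS p hp).1 fun e => h ?_)).symm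
    rw [(Nat.prime_dvd_prime_iff_eq (hS p hp).1 (hS q h1).1).1 (Int.natCast_dvd_natCast.1 e)]
    exact mem_insert_self _ _

/-- The ambiguous class attached to a set of primes. -/
def Am (S T : Finset ℕ) (x : ℂ) : Prop :=
  ∃ c : ℤ, 4 * c = pr T + pr (S \ T) ∧ Fm (pr T) (pr T) c x

theorem am_disc (hS : Adm S) (hT : T ⊆ S) {c : ℤ} (h : 4 * c = pr T + pr (S \ T)) :
    pr T ^ 2 - 4 * pr T * c = dsc S := by
  linear_combination -pr T * h - pr_mul hS hT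

theorem am_ex (hS : Adm S) (hT : T ⊆ S) : ∃ x, Am S T x := by
  have h1 := pr_mul hS hT
  have h2 := dsc_mod hS.1
  have h3 : (pr T + pr (S \ T)) % 4 = 0 := by
    have h4 : (pr T % 4 * (pr (S \ T) % 4)) % 4 = 3 := by rw [← Int.mul_emod]; omega
    rw [Int.add_emod]
    generalize pr (S \ T) = u at *
    generalize pr T = v at *
    have h5 : u % 4 = 0 ∨ u % 4 = 1 ∨ u % 4 = 2 ∨ u % 4 = 3 := by omega
    have h6 : v % 4 = 0 ∨ v % 4 = 1 ∨ v % 4 = 2 ∨ v % 4 = 3 := by omega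
    rcases h5 with e | e | e | e <;> rcases h6 with e' | e' | e' | e' <;> simp [e, e'] at h4 ⊢
  have h4 : 4 * ((pr T + pr (S \ T)) / 4) = pr T + pr (S \ T) := by omega
  obtain ⟨x, hx⟩ := Fm.ex (pr_pos hS.1 hT) ((am_disc hS hT h4).trans_lt (dsc_neg hS))
  exact ⟨x, _, h4, hx⟩

theorem Am.real (h : Am S T x) : starRingEnd ℂ x = x := by
  obtain ⟨c, -, h⟩ := h
  exact h.uniq (h.conj.sl 1 1 0 1 rfl (by ring) (by ring) (by ring))

theorem Am.uniq (h : Am S T x) (h' : Am S T y) : y = x := by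
  obtain ⟨c, e, h⟩ := h
  obtain ⟨c', e', h'⟩ := h'
  obtain rfl : c = c' := by omega
  exact h.uniq h'

theorem Am.compl (hT : T ⊆ S) (h : Am S T x) : Am S (S \ T) x := by
  obtain ⟨c, e, h⟩ := h
  refine ⟨c, by rw [Finset.sdiff_sdiff_eq_self hT, e, add_comm], ?_⟩
  exact h.sl (-1) (-1) 2 1 rfl (by linear_combination -e) (by linear_combination -e) (by ring)

theorem Am.sub (hS : Adm S) (hT : T ⊆ S) (hT' : T' ⊆ S) (hp : p ∈ S) (h1 : p ∉ T) (h2 : p ∉ T')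
    (h : Am S T x) (h' : Am S T' x) : T ⊆ T' := by
  obtain ⟨c, e, h⟩ := h
  obtain ⟨c', e', h'⟩ := h'
  obtain ⟨u, -, v, -, e1, -⟩ := h.rel h' ((am_disc hS hT' e').trans (am_disc hS hT e).symm)
  have e2 : pr (S \ T) * v ^ 2 = 4 * pr T' - pr T * (2 * u + v) ^ 2 := by
    linear_combination -4 * e1 - v ^ 2 * e
  have hi : insert p T' ⊆ S := insert_subset hp hT'
  have h3 : pr (insert p T') ∣ pr (S \ T) * v ^ 2 := by
    rw [pr, Int.natCast_dvd]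
    refine Finset.prod_primes_dvd _ (fun q hq => (hS.1 q (hi hq)).1.prime) fun q hq => ?_
    have hq' := (hS.1 q (hi hq)).1
    rw [← Int.natCast_dvd]
    by_cases h4 : q ∈ T
    · rw [e2]
      refine dvd_sub (((dvd_pr hS.1 hT' hq').2 ?_).mul_left _)
        (((dvd_pr hS.1 hT hq').2 h4).mul_right _)
      exact (mem_insert.1 hq).resolve_left fun e => h1 (e ▸ h4)
    · exact ((dvd_pr hS.1 sdiff_subset hq').2 (mem_sdiff.2 ⟨hi hq, h4⟩)).mul_right _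
  have h5 : 5 ≤ p := by
    obtain ⟨a, b, c, -⟩ := hS.1 p hp
    exact a.five_le_of_ne_two_of_ne_three b c
  have h6 : pr (insert p T') = p * pr T' := by rw [pr, prod_insert h2, Nat.cast_mul, pr]
  have h7 := pr_pos hS.1 hT'
  have h8 : pr (S \ T) * v ^ 2 = 0 := Int.eq_zero_of_dvd_of_nonneg_of_lt
    (mul_nonneg (pr_pos hS.1 sdiff_subset).le (sq_nonneg _)) (by
      have : (5 : ℤ) ≤ p := by exact_mod_cast h5
      nlinarith [mul_nonneg (pr_pos hS.1 hT).le (sq_nonneg (2 * u + v))]) h3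
  obtain rfl : v = 0 := by simpa [(pr_pos hS.1 sdiff_subset).ne'] using h8
  intro q hq
  have hq' := (hS.1 q (hT hq)).1
  exact (dvd_pr hS.1 hT' hq').1 (((dvd_pr hS.1 hT hq').2 hq).trans ⟨u ^ 2, by rw [e1]; ring⟩)

theorem Fm.am (hS : Adm S) (h : Fm A B C x) (hD : B ^ 2 - 4 * A * C = dsc S)
    (hx : starRingEnd ℂ x = x) (p : ℕ) : ∃ T ⊆ S, p ∉ T ∧ Am S T x := by
  obtain ⟨d, c, h1, h2⟩ := h.amb (hD ▸ dsc_mod hS.1) hx
  obtain ⟨d, rfl⟩ := Int.eq_ofNat_of_zero_le h1.pos.le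
  have h3 : (d : ℤ) ∣ dsc S := ⟨d - 4 * c, by rw [← hD, ← h2]; ring⟩
  have h4 : d.primeFactors ⊆ S := fun q hq => mem_of_dvd hS.1 (Nat.prime_of_mem_primeFactors hq)
    ((Int.natCast_dvd_natCast.2 (Nat.dvd_of_mem_primeFactors hq)).trans h3)
  have h5 : pr d.primeFactors = d := by
    rw [pr, Nat.prod_primeFactors_of_squarefree]
    exact (sqf hS.1).squarefree_of_dvd (abs_dsc hS.1 ▸ Int.natCast_dvd.1 h3)
  have h6 : Am S d.primeFactors x := by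
    refine ⟨c, mul_left_cancel₀ h1.pos.ne' ?_, h5.symm ▸ h1⟩
    have := pr_mul hS h4
    rw [h5] at this ⊢
    linear_combination -h2 - hD - this
  by_cases h7 : p ∈ d.primeFactors
  · exact ⟨_, sdiff_subset, fun e => (mem_sdiff.1 e).2 h7, h6.compl h4⟩
  · exact ⟨_, h4, h7, h6⟩

theorem am_ch (hS : Adm S) (hT : T ⊆ S) (hp : p ∈ S) {c : ℤ} (h : 4 * c = pr T + pr (S \ T)) :
    zz (ch p (pr T) c) = ∑ q ∈ S, al q p * (ind T p + ind T q) := by
  have hp' := (hS.1 p hp).1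
  rw [ch]
  simp only [dvd_pr hS.1 hT hp']
  split_ifs with h1
  · obtain ⟨k, hk⟩ := (dvd_pr hS.1 hT hp').2 h1
    rw [← one_mul (jacobiSym c p), ← jacobiSym.at_four (Nat.odd_iff.2 (odd_of hS.1 p hp)),
      ← jacobiSym.mul_left, h, hk, jacobiSym.mod_left' (a₂ := pr (S \ T))
        (by rw [add_comm, Int.add_mul_emod_self_left]),
      jac_pr hS.1 sdiff_subset hp fun e => (mem_sdiff.1 e).2 h1, sdiff_eq_filter, sum_filter]
    refine sum_congr rfl fun q _ => ?_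
    by_cases h2 : q ∈ T
    · simp [ind, h1, h2, KerAux.add_self]
    · simp [ind, h1, h2]
  · rw [jac_pr hS.1 hT hp h1]
    simp [ind, h1, inter_eq_right.2 hT]

theorem ind_sd (T T' : Finset ℕ) (q : ℕ) : ind (T ∆ T') q = ind T q + ind T' q := by
  by_cases h : q ∈ T <;> by_cases h' : q ∈ T' <;> simp [ind, mem_symmDiff, h, h', KerAux.add_self]

theorem card_ker (hp : p ∈ S) : (((S.powerset.filter fun T => p ∉ T ∧
    ∀ r ∈ S, ∑ q ∈ S, al q r * (ind T r + ind T q) = 0).card : ℕ) : ZMod 2) = gT S := by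
  rw [gT]
  split_ifs with h
  · rw [card_eq_one.2 ⟨∅, eq_singleton_iff_unique_mem.2 ⟨by simp [ind], fun T hT => ?_⟩⟩]
    · rfl
    · obtain ⟨h1, h2, h3⟩ := mem_filter.1 hT
      exact (h T h1 h3).resolve_right fun e => h2 (e ▸ hp)
  · push Not at h
    obtain ⟨T, h1, h2, h3, h4⟩ := h
    have key : ∀ U V : Finset ℕ, (∀ r ∈ S, ∑ q ∈ S, al q r * (ind U r + ind U q) = 0) →
        (∀ r ∈ S, ∑ q ∈ S, al q r * (ind V r + ind V q) = 0) →
        ∀ r ∈ S, ∑ q ∈ S, al q r * (ind (U ∆ V) r + ind (U ∆ V) q) = 0 := fun U V a b r hr => by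
      rw [← add_zero (0 : ZMod 2)]
      nth_rewrite 1 [← a r hr, ← b r hr]
      rw [← sum_add_distrib]
      exact sum_congr rfl fun q _ => by rw [ind_sd, ind_sd]; ring
    have hsub : ∀ U V : Finset ℕ, U ⊆ S → V ⊆ S → U ∆ V ⊆ S := fun U V a b q hq => by
      rcases mem_symmDiff.1 hq with e | e
      exacts [a e.1, b e.1]
    obtain ⟨U, a1, a2, a3, a4⟩ : ∃ U ⊆ S, p ∉ U ∧ U ≠ ∅ ∧
        ∀ r ∈ S, ∑ q ∈ S, al q r * (ind U r + ind U q) = 0 := by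
      by_cases h5 : p ∈ T
      · refine ⟨T ∆ S, hsub _ _ (mem_powerset.1 h1) Subset.rfl, by simp [mem_symmDiff, h5, hp],
          fun e => h4 (symmDiff_eq_bot.1 e), key _ _ h2 fun r hr => sum_eq_zero fun q hq => ?_⟩
        simp [ind, hr, hq, KerAux.add_self]
      · exact ⟨T, mem_powerset.1 h1, h5, nonempty_iff_ne_empty.1 h3, h2⟩
    rw [card_eq_sum_ones, Nat.cast_sum]
    refine sum_involution (fun V _ => V ∆ U) (fun _ _ => KerAux.add_self _)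
      (fun V _ _ e => a3 (symmDiff_eq_left.1 e)) (fun V hV => ?_)
      fun V _ => symmDiff_symmDiff_cancel_right _ _
    obtain ⟨b1, b2, b3⟩ := mem_filter.1 hV
    exact mem_filter.2 ⟨mem_powerset.2 (hsub _ _ (mem_powerset.1 b1) a1),
      by simp [mem_symmDiff, b2, a2], key _ _ b3 a4⟩

/-- **Rédei**: the parity of the number of classes in the principal genus. -/
theorem redei (hS : Adm S) {I : Type} [Fintype I] (J : I → ℂ) (χ : ℕ → I → ZMod 2)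
    (inj : Function.Injective J)
    (ex : ∀ i, ∃ A B C, Fm A B C (J i) ∧ B ^ 2 - 4 * A * C = dsc S ∧
      ∀ p ∈ S, χ p i = zz (ch p A C))
    (sur : ∀ A B C x, Fm A B C x → B ^ 2 - 4 * A * C = dsc S → ∃ i, J i = x) :
    (((univ.filter fun i => ∀ p ∈ S, χ p i = 0).card : ℕ) : ZMod 2) = gT S := by
  classical
  obtain ⟨p, hp⟩ := adm_ne hS
  have val : ∀ i A B C, Fm A B C (J i) → B ^ 2 - 4 * A * C = dsc S →
      ∀ p ∈ S, χ p i = zz (ch p A C) := fun i A B C h hD p hp => by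
    obtain ⟨A', B', C', h', hD', e⟩ := ex i
    rw [e p hp, h.ch hS.1 hp h' hD hD']
  have h1 : ∀ i, ∃ i', J i' = starRingEnd ℂ (J i) ∧ ∀ p ∈ S, χ p i' = χ p i := fun i => by
    obtain ⟨A, B, C, h, hD, e⟩ := ex i
    have hD' : (-B) ^ 2 - 4 * A * C = dsc S := by rw [← hD]; ring
    obtain ⟨i', e'⟩ := sur _ _ _ _ h.conj hD'
    exact ⟨i', e', fun p hp => by rw [e p hp, val i' _ _ _ (e' ▸ h.conj) hD' p hp]⟩
  choose ι h1 h2 using h1
  have h3 : ∀ T ⊆ S, ∃ i, Am S T (J i) := fun T hT => by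
    obtain ⟨x, c, e, h⟩ := am_ex hS hT
    obtain ⟨i, rfl⟩ := sur _ _ _ _ h (am_disc hS hT e)
    exact ⟨i, c, e, h⟩
  choose f h3 using h3
  have h4 : ∀ T ⊆ S, ∀ i, Am S T (J i) → ∀ r ∈ S,
      χ r i = ∑ q ∈ S, al q r * (ind T r + ind T q) := by
    rintro T hT i ⟨c, e, h⟩ r hr
    rw [val i _ _ _ h (am_disc hS hT e) r hr, am_ch hS hT hr e]
  rw [← card_ker hp, ← card_filter_add_card_filter_not (fun i => starRingEnd ℂ (J i) = J i),
    Nat.cast_add, card_eq_sum_ones (filter (fun i => ¬ _) _), Nat.cast_sum,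
    sum_involution (fun i _ => ι i) (fun _ _ => KerAux.add_self _) (fun i hi _ e => ?_)
      (fun i hi => ?_) fun i _ => inj (by rw [h1, h1, Complex.conj_conj]), add_zero]
  · congr 1
    symm
    refine card_bij (fun T hT => f T (mem_powerset.1 (mem_filter.1 hT).1)) (fun T hT => ?_)
      (fun T hT U hU e => ?_) fun i hi => ?_
    · obtain ⟨a1, a2, a3⟩ := mem_filter.1 hT
      exact mem_filter.2 ⟨mem_filter.2 ⟨mem_univ _, fun r hr =>
        (h4 T (mem_powerset.1 a1) _ (h3 _ _) r hr).trans (a3 r hr)⟩, (h3 _ _).real⟩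
    · obtain ⟨a1, a2, -⟩ := mem_filter.1 hT
      obtain ⟨b1, b2, -⟩ := mem_filter.1 hU
      rw [mem_powerset] at a1 b1
      have b3 : Am S U (J (f T a1)) := e.symm ▸ h3 U b1
      exact Subset.antisymm (Am.sub hS a1 b1 hp a2 b2 (h3 T a1) b3)
        (Am.sub hS b1 a1 hp b2 a2 b3 (h3 T a1))
    · obtain ⟨a1, a2⟩ := mem_filter.1 hi
      obtain ⟨A, B, C, h, hD, -⟩ := ex i
      obtain ⟨T, b1, b2, b3⟩ := h.am hS hD a2 p
      exact ⟨T, mem_filter.2 ⟨mem_powerset.2 b1, b2, fun r hr =>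
        (h4 T b1 i b3 r hr).symm.trans ((mem_filter.1 a1).2 r hr)⟩, inj (b3.uniq (h3 T b1))⟩
  · exact (mem_filter.1 hi).2 (by rw [← h1, e])
  · obtain ⟨a1, a2⟩ := mem_filter.1 hi
    refine mem_filter.2 ⟨mem_filter.2 ⟨mem_univ _, fun r hr =>
      (h2 i r hr).trans ((mem_filter.1 a1).2 r hr)⟩, fun e => a2 ?_⟩
    rw [h1, Complex.conj_conj] at e
    exact e.symm

end Pool.Agent.Lib.MP_d6ddbd_nt.GF
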